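import Pool.Agent.H289R3.Tri.Defs

set_option autoImplicit false
set_option linter.unusedSectionVars false
set_option linter.unusedVariables false
open Set Filter Topology Metric

namespace Pool.Agent.H289R3.Tri

/-- a finite cell structure -/
structure CellStr (X : Type) [TopologicalSpace X] where
  cell : ℕ → Type
  map : ∀ n, cell n → PartialEquiv (Fin n → ℝ) X
  fin : Finite (Σ n, cell n)
  source_eq : ∀ n i, (map n i).source = ball 0 1
  continuousOn : ∀ n i, ContinuousOn (map n i) (closedBall 0 1)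
  continuousOn_symm : ∀ n i, ContinuousOn (map n i).symm (map n i).target
  disj : ∀ c c' : Σ n, cell n, c ≠ c' →
    Disjoint (map c.1 c.2 '' ball 0 1) (map c'.1 c'.2 '' ball 0 1)
  bd : ∀ n i, ∀ x ∈ sphere (0 : Fin n → ℝ) 1, ∃ m, m < n ∧ ∃ j, ∃ y ∈ closedBall (0 : Fin m → ℝ) 1,
    map m j y = map n i x
  cov : ∀ x, ∃ n i, x ∈ map n i '' ball 0 1

/-- Euler characteristic of a finite cell structure -/
noncomputable def CellStr.chi {X : Type} [TopologicalSpace X] (C : CellStr X) : ℤ :=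
  ∑ᶠ c : Σ n, C.cell n, (-1 : ℤ) ^ c.1

theorem CellStr.hasEuler {X : Type} [TopologicalSpace X] (C : CellStr X) :
    HasEulerCharacteristic X C.chi := by
  have hfin := C.fin
  have f1 : ∀ n, Finite (C.cell n) := fun n => Finite.of_injective (Sigma.mk n) sigma_mk_injective
  have f2 : ∀ᶠ n in atTop, IsEmpty (C.cell n) := by
    have hfs : (Set.range (Sigma.fst : (Σ n, C.cell n) → ℕ)).Finite := Set.finite_range _
    obtain ⟨N, hN⟩ := hfs.bddAbove
    filter_upwards [eventually_gt_atTop N] with n hn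
    refine ⟨fun i => ?_⟩
    have := hN ⟨⟨n, i⟩, rfl⟩
    exact absurd this (not_le.2 hn)
  refine ⟨Topology.CWComplex.mkFinite univ C.cell C.map f2 f1 C.source_eq C.continuousOn
    C.continuousOn_symm ?_ ?_ ?_, hfin, rfl⟩
  · intro c _ c' _ hne
    exact C.disj c c' hne
  · intro n i x hx
    obtain ⟨m, hm, j, y, hy, h⟩ := C.bd n i x hx
    simp only [mem_iUnion]
    exact ⟨m, hm, j, y, hy, h⟩
  · rw [eq_univ_iff_forall]
    intro x
    obtain ⟨n, i, y, hy, h⟩ := C.cov x
    simp only [mem_iUnion]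
    exact ⟨n, i, y, ball_subset_closedBall hy, h⟩

/-- splitting coordinates -/
def splitE {a b n : ℕ} (h : a + b = n) : (Fin n → ℝ) ≃ (Fin a → ℝ) × (Fin b → ℝ) where
  toFun f := (fun i => f (Fin.cast h (Fin.castAdd b i)), fun j => f (Fin.cast h (Fin.natAdd a j)))
  invFun q := fun k => Fin.append q.1 q.2 (Fin.cast h.symm k)
  left_inv := by
    subst h
    intro f
    funext k
    refine Fin.addCases (fun i => ?_) (fun j => ?_) k <;> simp
  right_inv := by
    subst h
    rintro ⟨f, g⟩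
    ext k <;> simp

theorem splitE_cont {a b n : ℕ} (h : a + b = n) : Continuous (splitE h) := by
  unfold splitE
  simp only [Equiv.coe_fn_mk]
  fun_prop

theorem splitE_symm_cont {a b n : ℕ} (h : a + b = n) : Continuous (splitE h).symm := by
  subst h
  apply continuous_pi
  intro k
  refine Fin.addCases (fun i => ?_) (fun j => ?_) k
  · have : (fun q : (Fin a → ℝ) × (Fin b → ℝ) => (splitE rfl).symm q (Fin.castAdd b i)) =
        fun q => q.1 i := by
      funext q; simp [splitE]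
    rw [this]; fun_prop
  · have : (fun q : (Fin a → ℝ) × (Fin b → ℝ) => (splitE rfl).symm q (Fin.natAdd a j)) =
        fun q => q.2 j := by
      funext q; simp [splitE]
    rw [this]; fun_prop

theorem splitE_lt {a b n : ℕ} (h : a + b = n) (f : Fin n → ℝ) :
    f ∈ ball (0 : Fin n → ℝ) 1 ↔ (splitE h f).1 ∈ ball (0 : Fin a → ℝ) 1 ∧
      (splitE h f).2 ∈ ball (0 : Fin b → ℝ) 1 := by
  subst h
  simp only [mem_ball_zero_iff, pi_norm_lt_iff one_pos]
  constructor
  · intro hf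
    exact ⟨fun i => hf _, fun j => hf _⟩
  · rintro ⟨h1, h2⟩ k
    refine Fin.addCases (fun i => ?_) (fun j => ?_) k
    · simpa [splitE] using h1 i
    · simpa [splitE] using h2 j

theorem splitE_le {a b n : ℕ} (h : a + b = n) (f : Fin n → ℝ) :
    f ∈ closedBall (0 : Fin n → ℝ) 1 ↔ (splitE h f).1 ∈ closedBall (0 : Fin a → ℝ) 1 ∧
      (splitE h f).2 ∈ closedBall (0 : Fin b → ℝ) 1 := by
  subst h
  simp only [mem_closedBall_zero_iff, pi_norm_le_iff_of_nonneg zero_le_one]
  constructor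
  · intro hf
    exact ⟨fun i => hf _, fun j => hf _⟩
  · rintro ⟨h1, h2⟩ k
    refine Fin.addCases (fun i => ?_) (fun j => ?_) k
    · simpa [splitE] using h1 i
    · simpa [splitE] using h2 j

theorem mem_sphere_of {n : ℕ} {f : Fin n → ℝ} (h : f ∈ closedBall (0 : Fin n → ℝ) 1)
    (h' : f ∉ ball (0 : Fin n → ℝ) 1) : f ∈ sphere (0 : Fin n → ℝ) 1 := by
  rw [mem_closedBall_zero_iff] at h
  rw [mem_ball_zero_iff, not_lt] at h'
  rw [mem_sphere_zero_iff_norm]
  exact le_antisymm h h'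

variable {X Y : Type} [TopologicalSpace X] [TopologicalSpace Y]

/-- the characteristic map of a product cell -/
noncomputable def prodMap (C : CellStr X) (D : CellStr Y) (n : ℕ)
    (c : Σ p : {p : ℕ × ℕ // p.1 + p.2 = n}, C.cell p.1.1 × D.cell p.1.2) :
    PartialEquiv (Fin n → ℝ) (X × Y) :=
  (splitE c.1.2).toPartialEquiv.trans ((C.map c.1.1.1 c.2.1).prod (D.map c.1.1.2 c.2.2))

theorem prodMap_apply (C : CellStr X) (D : CellStr Y) (n : ℕ)
    (c : Σ p : {p : ℕ × ℕ // p.1 + p.2 = n}, C.cell p.1.1 × D.cell p.1.2) (f : Fin n → ℝ) :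
    prodMap C D n c f = (C.map c.1.1.1 c.2.1 (splitE c.1.2 f).1,
      D.map c.1.1.2 c.2.2 (splitE c.1.2 f).2) := rfl

theorem prodMap_image_ball (C : CellStr X) (D : CellStr Y) (n : ℕ)
    (c : Σ p : {p : ℕ × ℕ // p.1 + p.2 = n}, C.cell p.1.1 × D.cell p.1.2) :
    prodMap C D n c '' ball 0 1 = (C.map c.1.1.1 c.2.1 '' ball 0 1) ×ˢ
      (D.map c.1.1.2 c.2.2 '' ball 0 1) := by
  ext ⟨x, y⟩
  constructor
  · rintro ⟨f, hf, h⟩
    rw [prodMap_apply] at h
    obtain ⟨h1, h2⟩ := (splitE_lt c.1.2 f).1 hf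
    have hx := congrArg Prod.fst h
    have hy := congrArg Prod.snd h
    exact ⟨⟨_, h1, hx⟩, ⟨_, h2, hy⟩⟩
  · rintro ⟨⟨f, hf, hx⟩, ⟨g, hg, hy⟩⟩
    refine ⟨(splitE c.1.2).symm (f, g), ?_, ?_⟩
    · rw [splitE_lt c.1.2]
      simp only [Equiv.apply_symm_apply]
      exact ⟨hf, hg⟩
    · rw [prodMap_apply]
      simp only [Equiv.apply_symm_apply]
      exact Prod.ext hx hy

/-- cells of a product -/
def cellEquiv (C : CellStr X) (D : CellStr Y) :
    (Σ n, Σ p : {p : ℕ × ℕ // p.1 + p.2 = n}, C.cell p.1.1 × D.cell p.1.2) ≃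
      (Σ n, C.cell n) × (Σ n, D.cell n) where
  toFun c := (⟨c.2.1.1.1, c.2.2.1⟩, ⟨c.2.1.1.2, c.2.2.2⟩)
  invFun d := ⟨d.1.1 + d.2.1, ⟨⟨(d.1.1, d.2.1), rfl⟩, (d.1.2, d.2.2)⟩⟩
  left_inv := by
    rintro ⟨n, ⟨⟨⟨a, b⟩, h⟩, ⟨i, j⟩⟩⟩
    simp only at h
    subst h
    rfl
  right_inv := by
    rintro ⟨⟨a, i⟩, ⟨b, j⟩⟩
    rfl

/-- product of cell structures -/
noncomputable def CellStr.prod (C : CellStr X) (D : CellStr Y) : CellStr (X × Y) where
  cell n := Σ p : {p : ℕ × ℕ // p.1 + p.2 = n}, C.cell p.1.1 × D.cell p.1.2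
  map := prodMap C D
  fin := by
    have := C.fin
    have := D.fin
    exact Finite.of_equiv _ (cellEquiv C D).symm
  source_eq := by
    intro n c
    ext f
    simp only [prodMap, PartialEquiv.trans_source, Equiv.toPartialEquiv_source, univ_inter,
      PartialEquiv.prod_source, mem_preimage, C.source_eq, D.source_eq, mem_prod,
      Equiv.toPartialEquiv_apply]
    exact (splitE_lt c.1.2 f).symm
  continuousOn := by
    intro n c
    have h1 : MapsTo (splitE c.1.2) (closedBall 0 1)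
        (closedBall (0 : Fin c.1.1.1 → ℝ) 1 ×ˢ closedBall (0 : Fin c.1.1.2 → ℝ) 1) :=
      fun f hf => (splitE_le c.1.2 f).1 hf
    have h2 := ((C.continuousOn c.1.1.1 c.2.1).prodMap (D.continuousOn c.1.1.2 c.2.2)).comp
      (splitE_cont c.1.2).continuousOn h1
    exact h2
  continuousOn_symm := by
    intro n c
    have h2 := (splitE_symm_cont c.1.2).comp_continuousOn
      ((C.continuousOn_symm c.1.1.1 c.2.1).prodMap (D.continuousOn_symm c.1.1.2 c.2.2))
    refine h2.mono ?_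
    intro z hz
    simp only [prodMap, PartialEquiv.trans_target, PartialEquiv.prod_target] at hz
    exact hz.1
  disj := by
    intro c c' hne
    rw [prodMap_image_ball, prodMap_image_ball, Set.disjoint_left]
    rintro ⟨x, y⟩ ⟨hx, hy⟩ ⟨hx', hy'⟩
    apply hne
    apply (cellEquiv C D).injective
    refine Prod.ext ?_ ?_
    · by_contra hcon
      exact (C.disj _ _ hcon).le_bot ⟨hx, hx'⟩
    · by_contra hcon
      exact (D.disj _ _ hcon).le_bot ⟨hy, hy'⟩
  bd := by
    rintro n ⟨⟨⟨a, b⟩, h⟩, ⟨i, j⟩⟩ f hf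
    simp only at h i j
    subst h
    have hcl : f ∈ closedBall (0 : Fin (a + b) → ℝ) 1 := sphere_subset_closedBall hf
    have hnb : f ∉ ball (0 : Fin (a + b) → ℝ) 1 := by
      rw [mem_ball_zero_iff, not_lt, mem_sphere_zero_iff_norm.1 hf]
    obtain ⟨h1, h2⟩ := (splitE_le rfl f).1 hcl
    rw [splitE_lt rfl, not_and_or] at hnb
    rcases hnb with hnb | hnb
    · obtain ⟨m, hm, j', y, hy, he⟩ := C.bd a i _ (mem_sphere_of h1 hnb)
      refine ⟨m + b, by omega, ⟨⟨(m, b), rfl⟩, (j', j)⟩,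
        (splitE (rfl : m + b = m + b)).symm (y, (splitE rfl f).2), ?_, ?_⟩
      · rw [splitE_le rfl]
        simp only [Equiv.apply_symm_apply]
        exact ⟨hy, h2⟩
      · rw [prodMap_apply, prodMap_apply]
        simp only [Equiv.apply_symm_apply]
        rw [he]
    · obtain ⟨m, hm, j', y, hy, he⟩ := D.bd b j _ (mem_sphere_of h2 hnb)
      refine ⟨a + m, by omega, ⟨⟨(a, m), rfl⟩, (i, j')⟩,
        (splitE (rfl : a + m = a + m)).symm ((splitE rfl f).1, y), ?_, ?_⟩
      · rw [splitE_le rfl]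
        simp only [Equiv.apply_symm_apply]
        exact ⟨h1, hy⟩
      · rw [prodMap_apply, prodMap_apply]
        simp only [Equiv.apply_symm_apply]
        rw [he]
  cov := by
    rintro ⟨x, y⟩
    obtain ⟨a, i, hx⟩ := C.cov x
    obtain ⟨b, j, hy⟩ := D.cov y
    refine ⟨a + b, ⟨⟨(a, b), rfl⟩, (i, j)⟩, ?_⟩
    rw [prodMap_image_ball]
    exact ⟨hx, hy⟩

theorem CellStr.chi_prod (C : CellStr X) (D : CellStr Y) : (C.prod D).chi = C.chi * D.chi := by
  classical
  have := C.fin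
  have := D.fin
  have f1 := Fintype.ofFinite (Σ n, C.cell n)
  have f2 := Fintype.ofFinite (Σ n, D.cell n)
  have e1 : C.chi = ∑ c : Σ n, C.cell n, (-1 : ℤ) ^ c.1 := finsum_eq_sum_of_fintype _
  have e2 : D.chi = ∑ c : Σ n, D.cell n, (-1 : ℤ) ^ c.1 := finsum_eq_sum_of_fintype _
  have e3 : (C.prod D).chi = ∑ᶠ d : (Σ n, C.cell n) × (Σ n, D.cell n),
      (-1 : ℤ) ^ d.1.1 * (-1) ^ d.2.1 := by
    refine finsum_eq_of_bijective (cellEquiv C D) (cellEquiv C D).bijective ?_
    rintro ⟨n, ⟨⟨⟨a, b⟩, h⟩, ⟨i, j⟩⟩⟩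
    simp only at h
    subst h
    show (-1 : ℤ) ^ (a + b) = (-1) ^ a * (-1) ^ b
    rw [pow_add]
  rw [e3, e1, e2, finsum_eq_sum_of_fintype, Fintype.sum_prod_type, Finset.sum_mul_sum]

/-! ### the circle -/

/-- cells of the circle -/
def cellC : ℕ → Type
  | 0 => Unit
  | 1 => Unit
  | _ => Empty

/-- zero-dimensional cells -/
noncomputable def ptMap {X : Type} (x : X) : PartialEquiv (Fin 0 → ℝ) X where
  toFun _ := x
  invFun _ := 0
  source := ball 0 1
  target := {x}
  map_source' _ _ := rfl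
  map_target' _ _ := by simp
  left_inv' _ _ := Subsingleton.elim _ _
  right_inv' y hy := hy.symm

/-- the one-cell of the circle -/
noncomputable def arcMap : PartialEquiv (Fin 1 → ℝ) Circle where
  toFun x := Circle.exp (Real.pi * x 0)
  invFun z := fun _ => Complex.arg z / Real.pi
  source := ball 0 1
  target := {z | (z : ℂ) ∈ Complex.slitPlane}
  map_source' x hx := by
    have hpi := Real.pi_pos
    rw [mem_ball_zero_iff, pi_norm_lt_iff one_pos] at hx
    have h1 := abs_lt.1 (hx 0)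
    show ((Circle.exp (Real.pi * x 0) : Circle) : ℂ) ∈ Complex.slitPlane
    rw [Complex.mem_slitPlane_iff_arg]
    have : Complex.arg ((Circle.exp (Real.pi * x 0) : Circle) : ℂ) = Real.pi * x 0 :=
      Circle.arg_exp (by nlinarith) (by nlinarith)
    rw [this]
    exact ⟨by nlinarith, Circle.coe_ne_zero _⟩
  map_target' z hz := by
    have hpi := Real.pi_pos
    have hz' : (z : ℂ) ∈ Complex.slitPlane := hz
    rw [Complex.mem_slitPlane_iff_arg] at hz'
    rw [mem_ball_zero_iff, pi_norm_lt_iff one_pos]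
    intro i
    rw [Real.norm_eq_abs, abs_div, abs_of_pos hpi, div_lt_one hpi, abs_lt]
    exact ⟨Complex.neg_pi_lt_arg _, lt_of_le_of_ne (Complex.arg_le_pi _) hz'.1⟩
  left_inv' x hx := by
    have hpi := Real.pi_pos
    rw [mem_ball_zero_iff, pi_norm_lt_iff one_pos] at hx
    have h1 := abs_lt.1 (hx 0)
    funext i
    have hi : i = 0 := Subsingleton.elim _ _
    subst hi
    have : Complex.arg ((Circle.exp (Real.pi * x 0) : Circle) : ℂ) = Real.pi * x 0 :=
      Circle.arg_exp (by nlinarith) (by nlinarith)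
    show Complex.arg ((Circle.exp (Real.pi * x 0) : Circle) : ℂ) / Real.pi = x 0
    rw [this]
    field_simp
  right_inv' z hz := by
    have hpi := Real.pi_pos
    show Circle.exp (Real.pi * (Complex.arg z / Real.pi)) = z
    rw [mul_div_cancel₀ _ hpi.ne']
    exact Circle.exp_arg z

/-- characteristic maps -/
noncomputable def mapC : ∀ n, cellC n → PartialEquiv (Fin n → ℝ) Circle
  | 0, _ => ptMap (Circle.exp Real.pi)
  | 1, _ => arcMap
  | (_ + 2), e => e.elim

theorem cellC_cases (c : Σ n, cellC n) : c = ⟨0, ()⟩ ∨ c = ⟨1, ()⟩ := by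
  rcases c with ⟨_ | _ | n, i⟩
  · exact Or.inl rfl
  · exact Or.inr rfl
  · exact i.elim

/-- cell structure of the circle -/
noncomputable def circleStr : CellStr Circle where
  cell := cellC
  map := mapC
  fin := by
    have : Function.Surjective (fun b : Bool => if b then (⟨0, ()⟩ : Σ n, cellC n) else ⟨1, ()⟩) := by
      intro c
      rcases cellC_cases c with rfl | rfl
      · exact ⟨true, rfl⟩
      · exact ⟨false, rfl⟩
    exact Finite.of_surjective _ this
  source_eq := by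
    rintro (_ | _ | n) i
    · rfl
    · rfl
    · exact i.elim
  continuousOn := by
    rintro (_ | _ | n) i
    · exact continuousOn_const
    · have : Continuous (fun x : Fin 1 → ℝ => Circle.exp (Real.pi * x 0)) := by fun_prop
      exact this.continuousOn
    · exact i.elim
  continuousOn_symm := by
    rintro (_ | _ | n) i
    · exact continuousOn_const
    · show ContinuousOn (fun z : Circle => fun _ : Fin 1 => Complex.arg z / Real.pi)
        {z | (z : ℂ) ∈ Complex.slitPlane}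
      refine continuousOn_pi.2 fun _ => ?_
      intro z hz
      have h1 : ContinuousAt (fun z : Circle => Complex.arg (z : ℂ)) z :=
        (Complex.continuousAt_arg hz).comp
          (by fun_prop : Continuous (fun z : Circle => (z : ℂ))).continuousAt
      exact (h1.div_const _).continuousWithinAt
    · exact i.elim
  disj := by
    have key : Disjoint (mapC 0 () '' ball 0 1) (mapC 1 () '' ball 0 1) := by
      rw [Set.disjoint_left]
      rintro _ ⟨x, hx, rfl⟩ ⟨y, hy, h⟩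
      have h1 : (mapC 1 () y : ℂ) ∈ Complex.slitPlane := arcMap.map_source hy
      rw [h] at h1
      have h2 : ((Circle.exp Real.pi : Circle) : ℂ) ∈ Complex.slitPlane := h1
      rw [Circle.coe_exp, Complex.exp_pi_mul_I] at h2
      rcases h2 with h3 | h3 <;> norm_num at h3
    intro c c' hne
    rcases cellC_cases c with rfl | rfl <;> rcases cellC_cases c' with rfl | rfl
    · exact (hne rfl).elim
    · exact key
    · exact key.symm
    · exact (hne rfl).elim
  bd := by
    rintro (_ | _ | n) i x hx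
    · rw [mem_sphere_zero_iff_norm] at hx
      have : x = 0 := Subsingleton.elim _ _
      rw [this, norm_zero] at hx
      norm_num at hx
    · refine ⟨0, one_pos, (), 0, by simp, ?_⟩
      show Circle.exp Real.pi = Circle.exp (Real.pi * x 0)
      have h1 : ‖x‖ = 1 := mem_sphere_zero_iff_norm.1 hx
      have h2 : |x 0| = 1 := by
        rw [← h1, Pi.norm_def]
        simp
      rcases (abs_eq one_pos.le).1 h2 with h3 | h3
      · rw [h3, mul_one]
      · rw [h3, Circle.exp_eq_exp]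
        exact ⟨1, by push_cast; ring⟩
    · exact i.elim
  cov := by
    intro z
    by_cases hz : (z : ℂ) ∈ Complex.slitPlane
    · refine ⟨1, (), arcMap.symm z, ?_, ?_⟩
      · exact arcMap.map_target hz
      · exact arcMap.right_inv hz
    · refine ⟨0, (), 0, by simp, ?_⟩
      show Circle.exp Real.pi = z
      have h1 : Complex.arg z = Real.pi := by
        rw [Complex.mem_slitPlane_iff_arg] at hz
        by_contra hcon
        exact hz ⟨hcon, Circle.coe_ne_zero z⟩
      rw [← h1]; exact Circle.exp_arg z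

theorem circleStr_chi : circleStr.chi = 0 := by
  have e : (univ : Set (Σ n, cellC n)) = {⟨0, ()⟩, ⟨1, ()⟩} := by
    ext c
    simp only [mem_univ, mem_insert_iff, mem_singleton_iff, true_iff]
    exact cellC_cases c
  unfold CellStr.chi
  rw [← finsum_mem_univ]
  show ∑ᶠ (i : Σ n, cellC n) (_ : i ∈ univ), (-1 : ℤ) ^ i.1 = 0
  rw [e, finsum_mem_pair]
  · norm_num
  · intro h
    have := congrArg Sigma.fst h
    simp at this

/-! ### the two-sphere -/

/-- denominator -/
noncomputable def dn (x : Fin 2 → ℝ) : ℝ := x 0 ^ 2 + x 1 ^ 2 + (1 - ‖x‖) ^ 2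

theorem dn_pos (x : Fin 2 → ℝ) : 0 < dn x := by
  by_cases h : x = 0
  · rw [h]; simp [dn]
  · have : 0 < x 0 ^ 2 + x 1 ^ 2 := by
      by_contra hcon
      push Not at hcon
      have h0 : x 0 = 0 := by nlinarith [sq_nonneg (x 0), sq_nonneg (x 1)]
      have h1 : x 1 = 0 := by nlinarith [sq_nonneg (x 0), sq_nonneg (x 1)]
      apply h
      funext i
      fin_cases i
      · exact h0
      · exact h1
    unfold dn
    positivity

theorem vec_mem_sphere {a b c : ℝ} (h : a ^ 2 + b ^ 2 + c ^ 2 = 1) :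
    (!₂[a, b, c] : EuclideanSpace ℝ (Fin 3)) ∈ sphere (0 : EuclideanSpace ℝ (Fin 3)) 1 := by
  rw [mem_sphere_zero_iff_norm, EuclideanSpace.norm_eq]
  simp [Fin.sum_univ_three, h]

theorem sphere_eq (p : sphere (0 : EuclideanSpace ℝ (Fin 3)) 1) :
    p.1 0 ^ 2 + p.1 1 ^ 2 + p.1 2 ^ 2 = 1 := by
  have h := mem_sphere_zero_iff_norm.1 p.2
  rw [EuclideanSpace.norm_eq, Real.sqrt_eq_one] at h
  simpa [Fin.sum_univ_three] using h

theorem sq_sum (x : Fin 2 → ℝ) : (2 * (1 - ‖x‖) * x 0 / dn x) ^ 2 +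
    (2 * (1 - ‖x‖) * x 1 / dn x) ^ 2 + ((x 0 ^ 2 + x 1 ^ 2 - (1 - ‖x‖) ^ 2) / dn x) ^ 2 = 1 := by
  have h := dn_pos x
  have e : dn x = x 0 ^ 2 + x 1 ^ 2 + (1 - ‖x‖) ^ 2 := rfl
  rw [div_pow, div_pow, div_pow, ← add_div, ← add_div, div_eq_one_iff_eq (by positivity), e]
  ring

/-- square onto sphere -/
noncomputable def sqF (x : Fin 2 → ℝ) : sphere (0 : EuclideanSpace ℝ (Fin 3)) 1 :=
  ⟨!₂[2 * (1 - ‖x‖) * x 0 / dn x, 2 * (1 - ‖x‖) * x 1 / dn x,
    (x 0 ^ 2 + x 1 ^ 2 - (1 - ‖x‖) ^ 2) / dn x], vec_mem_sphere (sq_sum x)⟩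

theorem sqF_cont : Continuous sqF := by
  have h : ∀ x, dn x ≠ 0 := fun x => (dn_pos x).ne'
  have hd : Continuous dn := by unfold dn; fun_prop
  have h1 : Continuous (fun x : Fin 2 → ℝ => 2 * (1 - ‖x‖) * x 0 / dn x) := by
    apply Continuous.div _ hd h; fun_prop
  have h2 : Continuous (fun x : Fin 2 → ℝ => 2 * (1 - ‖x‖) * x 1 / dn x) := by
    apply Continuous.div _ hd h; fun_prop
  have h3 : Continuous (fun x : Fin 2 → ℝ => (x 0 ^ 2 + x 1 ^ 2 - (1 - ‖x‖) ^ 2) / dn x) := by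
    apply Continuous.div _ hd h; fun_prop
  apply Continuous.subtype_mk
  fun_prop

/-- affine coordinates -/
noncomputable def aff (p : sphere (0 : EuclideanSpace ℝ (Fin 3)) 1) : Fin 2 → ℝ :=
  ![p.1 0 / (1 - p.1 2), p.1 1 / (1 - p.1 2)]

theorem aff_sqF {x : Fin 2 → ℝ} (hx : ‖x‖ < 1) : aff (sqF x) = (1 - ‖x‖)⁻¹ • x := by
  have hd := dn_pos x
  have hw : (1 - ‖x‖) ≠ 0 := by linarith
  have e2 : 1 - (x 0 ^ 2 + x 1 ^ 2 - (1 - ‖x‖) ^ 2) / dn x = 2 * (1 - ‖x‖) ^ 2 / dn x := by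
    rw [eq_div_iff hd.ne', sub_mul, div_mul_cancel₀ _ hd.ne']
    unfold dn; ring
  funext i
  fin_cases i
  · show (2 * (1 - ‖x‖) * x 0 / dn x) / (1 - (x 0 ^ 2 + x 1 ^ 2 - (1 - ‖x‖) ^ 2) / dn x) =
      (1 - ‖x‖)⁻¹ * x 0
    rw [e2]; field_simp
  · show (2 * (1 - ‖x‖) * x 1 / dn x) / (1 - (x 0 ^ 2 + x 1 ^ 2 - (1 - ‖x‖) ^ 2) / dn x) =
      (1 - ‖x‖)⁻¹ * x 1
    rw [e2]; field_simp

/-- inverse of the collapse -/
noncomputable def sqG (p : sphere (0 : EuclideanSpace ℝ (Fin 3)) 1) : Fin 2 → ℝ :=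
  (1 + ‖aff p‖)⁻¹ • aff p

theorem sqG_norm (p : sphere (0 : EuclideanSpace ℝ (Fin 3)) 1) :
    ‖sqG p‖ = ‖aff p‖ / (1 + ‖aff p‖) := by
  have : 0 < 1 + ‖aff p‖ := by positivity
  rw [sqG, norm_smul, norm_inv, Real.norm_eq_abs, abs_of_pos this, inv_mul_eq_div]

theorem sqG_sqF {x : Fin 2 → ℝ} (hx : ‖x‖ < 1) : sqG (sqF x) = x := by
  have hw : 0 < (1 - ‖x‖) := by linarith
  rw [sqG, aff_sqF hx, norm_smul, norm_inv, Real.norm_eq_abs, abs_of_pos hw, smul_smul]
  have : (1 + (1 - ‖x‖)⁻¹ * ‖x‖)⁻¹ * (1 - ‖x‖)⁻¹ = 1 := by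
    field_simp
    ring
  rw [this, one_smul]

theorem sqF_sqG {p : sphere (0 : EuclideanSpace ℝ (Fin 3)) 1} (hp : p.1 2 ≠ 1) :
    sqF (sqG p) = p := by
  have hs := sphere_eq p
  have h1 : 1 - p.1 2 ≠ 0 := fun h => hp (by linarith)
  have hN : 0 < 1 + ‖aff p‖ := by positivity
  have hn := sqG_norm p
  have hw : 1 - ‖sqG p‖ = (1 + ‖aff p‖)⁻¹ := by
    rw [hn]; field_simp; ring
  have g0 : sqG p 0 = (1 + ‖aff p‖)⁻¹ * (p.1 0 / (1 - p.1 2)) := rfl
  have g1 : sqG p 1 = (1 + ‖aff p‖)⁻¹ * (p.1 1 / (1 - p.1 2)) := rfl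
  have hsq : (p.1 0 / (1 - p.1 2)) ^ 2 + (p.1 1 / (1 - p.1 2)) ^ 2 + 1 = 2 / (1 - p.1 2) := by
    rw [div_pow, div_pow, ← add_div, div_add_one (pow_ne_zero 2 h1), div_eq_div_iff
      (pow_ne_zero 2 h1) h1]
    have : p.1 0 ^ 2 + p.1 1 ^ 2 = 1 - p.1 2 ^ 2 := by linarith
    rw [this]; ring
  have hsq' : (p.1 0 / (1 - p.1 2)) ^ 2 + (p.1 1 / (1 - p.1 2)) ^ 2 - 1 =
      2 * p.1 2 / (1 - p.1 2) := by
    have : 2 * p.1 2 / (1 - p.1 2) = 2 / (1 - p.1 2) - 2 := by field_simp; ring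
    rw [this, ← hsq]; ring
  have hd : dn (sqG p) = (1 + ‖aff p‖)⁻¹ ^ 2 * (2 / (1 - p.1 2)) := by
    unfold dn
    rw [hw, g0, g1, ← hsq]; ring
  have hN' : (1 + ‖aff p‖)⁻¹ ≠ 0 := inv_ne_zero hN.ne'
  apply Subtype.ext
  ext i
  fin_cases i
  · show 2 * (1 - ‖sqG p‖) * sqG p 0 / dn (sqG p) = p.1 0
    rw [hw, g0, hd]
    field_simp
  · show 2 * (1 - ‖sqG p‖) * sqG p 1 / dn (sqG p) = p.1 1
    rw [hw, g1, hd]
    field_simp
  · show (sqG p 0 ^ 2 + sqG p 1 ^ 2 - (1 - ‖sqG p‖) ^ 2) / dn (sqG p) = p.1 2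
    have e : sqG p 0 ^ 2 + sqG p 1 ^ 2 - (1 - ‖sqG p‖) ^ 2 =
        (1 + ‖aff p‖)⁻¹ ^ 2 * (2 * p.1 2 / (1 - p.1 2)) := by
      rw [hw, g0, g1, ← hsq']; ring
    rw [e, hd, mul_div_mul_left _ _ (pow_ne_zero 2 hN')]
    field_simp

/-- the two-cell of the sphere -/
noncomputable def sqMap : PartialEquiv (Fin 2 → ℝ) (sphere (0 : EuclideanSpace ℝ (Fin 3)) 1) where
  toFun := sqF
  invFun := sqG
  source := ball 0 1
  target := {p | p.1 2 ≠ 1}
  map_source' x hx := by
    rw [mem_ball_zero_iff] at hx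
    have hd := dn_pos x
    have hw : 0 < (1 - ‖x‖) := by linarith
    show (x 0 ^ 2 + x 1 ^ 2 - (1 - ‖x‖) ^ 2) / dn x ≠ 1
    rw [ne_eq, div_eq_one_iff_eq hd.ne']
    unfold dn
    intro h
    nlinarith [pow_pos hw 2]
  map_target' p hp := by
    rw [mem_ball_zero_iff, sqG_norm, div_lt_one (by positivity)]
    linarith
  left_inv' x hx := sqG_sqF (mem_ball_zero_iff.1 hx)
  right_inv' p hp := sqF_sqG hp

/-- cells of the sphere -/
def cellS : ℕ → Type
  | 0 => Unit
  | 2 => Unit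
  | _ => Empty

/-- the north pole -/
noncomputable def npole : sphere (0 : EuclideanSpace ℝ (Fin 3)) 1 :=
  ⟨!₂[0, 0, 1], vec_mem_sphere (by norm_num)⟩

/-- characteristic maps -/
noncomputable def mapS : ∀ n, cellS n →
    PartialEquiv (Fin n → ℝ) (sphere (0 : EuclideanSpace ℝ (Fin 3)) 1)
  | 0, _ => ptMap npole
  | 1, e => e.elim
  | 2, _ => sqMap
  | (_ + 3), e => e.elim

theorem cellS_cases (c : Σ n, cellS n) : c = ⟨0, ()⟩ ∨ c = ⟨2, ()⟩ := by
  rcases c with ⟨_ | _ | _ | n, i⟩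
  · exact Or.inl rfl
  · exact i.elim
  · exact Or.inr rfl
  · exact i.elim

theorem eq_npole {p : sphere (0 : EuclideanSpace ℝ (Fin 3)) 1} (hp : p.1 2 = 1) : p = npole := by
  have hs := sphere_eq p
  rw [hp] at hs
  have h0 : p.1 0 = 0 := by nlinarith [sq_nonneg (p.1 0), sq_nonneg (p.1 1)]
  have h1 : p.1 1 = 0 := by nlinarith [sq_nonneg (p.1 0), sq_nonneg (p.1 1)]
  apply Subtype.ext
  ext i
  fin_cases i
  · exact h0
  · exact h1
  · exact hp

theorem aff_cont : ContinuousOn aff {p | p.1 2 ≠ 1} := by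
  apply continuousOn_pi.2
  intro i
  have hc : ∀ j, Continuous (fun p : sphere (0 : EuclideanSpace ℝ (Fin 3)) 1 => p.1 j) := by
    intro j; fun_prop
  have hne : ∀ p ∈ {p : sphere (0 : EuclideanSpace ℝ (Fin 3)) 1 | p.1 2 ≠ 1}, 1 - p.1 2 ≠ 0 := by
    intro p hp h
    exact hp (by linarith)
  fin_cases i
  · exact (hc 0).continuousOn.div (continuousOn_const.sub (hc 2).continuousOn) hne
  · exact (hc 1).continuousOn.div (continuousOn_const.sub (hc 2).continuousOn) hne

/-- cell structure of the two-sphere -/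
noncomputable def sphereStr : CellStr (sphere (0 : EuclideanSpace ℝ (Fin 3)) 1) where
  cell := cellS
  map := mapS
  fin := by
    have : Function.Surjective (fun b : Bool => if b then (⟨0, ()⟩ : Σ n, cellS n) else ⟨2, ()⟩) := by
      intro c
      rcases cellS_cases c with rfl | rfl
      · exact ⟨true, rfl⟩
      · exact ⟨false, rfl⟩
    exact Finite.of_surjective _ this
  source_eq := by
    rintro (_ | _ | _ | n) i
    · rfl
    · exact i.elim
    · rfl
    · exact i.elim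
  continuousOn := by
    rintro (_ | _ | _ | n) i
    · exact continuousOn_const
    · exact i.elim
    · exact sqF_cont.continuousOn
    · exact i.elim
  continuousOn_symm := by
    rintro (_ | _ | _ | n) i
    · exact continuousOn_const
    · exact i.elim
    · show ContinuousOn sqG {p | p.1 2 ≠ 1}
      have h1 : ContinuousOn (fun p => (1 + ‖aff p‖)⁻¹)
          {p : sphere (0 : EuclideanSpace ℝ (Fin 3)) 1 | p.1 2 ≠ 1} := by
        apply ContinuousOn.inv₀ (continuousOn_const.add aff_cont.norm)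
        intro p _
        have : 0 < 1 + ‖aff p‖ := by positivity
        exact this.ne'
      exact h1.smul aff_cont
    · exact i.elim
  disj := by
    have key : Disjoint (mapS 0 () '' ball 0 1) (mapS 2 () '' ball 0 1) := by
      rw [Set.disjoint_left]
      rintro _ ⟨x, hx, rfl⟩ ⟨y, hy, h⟩
      have h1 : (mapS 2 () y).1 2 ≠ 1 := sqMap.map_source hy
      rw [h] at h1
      exact h1 rfl
    intro c c' hne
    rcases cellS_cases c with rfl | rfl <;> rcases cellS_cases c' with rfl | rfl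
    · exact (hne rfl).elim
    · exact key
    · exact key.symm
    · exact (hne rfl).elim
  bd := by
    rintro (_ | _ | _ | n) i x hx
    · rw [mem_sphere_zero_iff_norm] at hx
      have : x = 0 := Subsingleton.elim _ _
      rw [this, norm_zero] at hx
      norm_num at hx
    · exact i.elim
    · refine ⟨0, two_pos, (), 0, by simp, ?_⟩
      show npole = sqF x
      have h1 : ‖x‖ = 1 := mem_sphere_zero_iff_norm.1 hx
      have hd := dn_pos x
      refine (eq_npole ?_).symm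
      show (x 0 ^ 2 + x 1 ^ 2 - (1 - ‖x‖) ^ 2) / dn x = 1
      rw [div_eq_one_iff_eq hd.ne']
      unfold dn
      rw [h1]; ring
    · exact i.elim
  cov := by
    intro z
    by_cases hz : z.1 2 = 1
    · exact ⟨0, (), 0, by simp, (eq_npole hz).symm⟩
    · exact ⟨2, (), sqMap.symm z, sqMap.map_target hz, sqMap.right_inv hz⟩

theorem sphereStr_chi : sphereStr.chi = 2 := by
  have e : (univ : Set (Σ n, cellS n)) = {⟨0, ()⟩, ⟨2, ()⟩} := by
    ext c
    simp only [mem_univ, mem_insert_iff, mem_singleton_iff, true_iff]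
    exact cellS_cases c
  unfold CellStr.chi
  rw [← finsum_mem_univ]
  show ∑ᶠ (i : Σ n, cellS n) (_ : i ∈ univ), (-1 : ℤ) ^ i.1 = 2
  rw [e, finsum_mem_pair]
  · norm_num
  · intro h
    have := congrArg Sigma.fst h
    simp at this

theorem euler_X4 : HasEulerCharacteristic
    (sphere (0 : EuclideanSpace ℝ (Fin 3)) 1 × Circle × Circle) 0 := by
  have h := (sphereStr.prod (circleStr.prod circleStr)).hasEuler
  rwa [CellStr.chi_prod, CellStr.chi_prod, circleStr_chi, mul_zero, mul_zero] at h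

end Pool.Agent.H289R3.Tri
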