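import Pool.Agent.H289R3.Tri.Param

set_option autoImplicit false
open Set Filter Topology

namespace Pool.Agent.H289R3.Tri

variable {Y : Type*} [TopologicalSpace Y] {G : Type*} [Group G]

/-- cocycle on a whole space -/
def Coc (g : Y → Y → G) : Prop :=
  ∀ p, ∀ᶠ x in 𝓝 p, ∀ᶠ y in 𝓝 x, g x y = (g p x)⁻¹ * g p y

theorem Coc.self {g : Y → Y → G} (hg : Coc g) (p : Y) : g p p = 1 := by
  have h1 := (hg p).self_of_nhds.self_of_nhds
  simpa using h1

/-- the total space of the principal bundle -/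
def Tot (_ : Y → Y → G) : Type _ := Y × G

instance (g : Y → Y → G) : TopologicalSpace (Tot g) where
  IsOpen U := ∀ z ∈ U, ∀ᶠ x in 𝓝 z.1, ((x, z.2 * g z.1 x) : Y × G) ∈ U
  isOpen_univ := fun _ _ => Eventually.of_forall fun _ => trivial
  isOpen_inter := fun s t hs ht z hz => by
    filter_upwards [hs z hz.1, ht z hz.2] with x h1 h2 using ⟨h1, h2⟩
  isOpen_sUnion := fun S hS z hz => by
    obtain ⟨t, ht, hzt⟩ := hz
    filter_upwards [hS t ht z hzt] with x hx using ⟨t, ht, hx⟩

theorem tot_isOpen_iff {g : Y → Y → G} {U : Set (Tot g)} :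
    IsOpen U ↔ ∀ z ∈ U, ∀ᶠ x in 𝓝 z.1, ((x, z.2 * g z.1 x) : Y × G) ∈ U := Iff.rfl

/-- projection -/
def Tot.proj (g : Y → Y → G) : Tot g → Y := fun z => z.1

theorem Tot.continuous_proj (g : Y → Y → G) : Continuous (Tot.proj g) := by
  refine ⟨fun U hU => ?_⟩
  rw [tot_isOpen_iff]
  intro z hz
  exact hU.mem_nhds hz

open Classical in
theorem Tot.isCoveringMap {g : Y → Y → G} (hg : Coc g) : IsCoveringMap (Tot.proj g) := by
  let _ : TopologicalSpace G := ⊥
  have _ : DiscreteTopology G := ⟨rfl⟩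
  choose N hN hNo hpN using fun p => eventually_nhds_iff.1 (hg p)
  refine IsCoveringMap.mk _ (fun _ => G) (fun p => 
    { toFun := fun z => (z.1, z.2 * (g p z.1)⁻¹)
      invFun := fun w => (w.1, w.2 * g p w.1)
      source := Tot.proj g ⁻¹' N p
      target := N p ×ˢ univ
      map_source' := fun z hz => ⟨hz, trivial⟩
      map_target' := fun w hw => hw.1
      left_inv' := fun z _ => show ((z.1, z.2 * (g p z.1)⁻¹ * g p z.1) : Y × G) = z by
        rw [inv_mul_cancel_right]; rfl
      right_inv' := fun w _ => by simp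
      open_source := (hNo p).preimage (Tot.continuous_proj g)
      open_target := (hNo p).prod isOpen_univ
      continuousOn_toFun := ?_
      continuousOn_invFun := ?_
      baseSet := N p
      open_baseSet := hNo p
      source_eq := rfl
      target_eq := rfl
      proj_toFun := fun z _ => rfl }) (fun p => hpN p)
  · have h2 : ContinuousOn (fun z : Tot g => z.2 * (g p z.1)⁻¹) (Tot.proj g ⁻¹' N p) := by
      intro z hz
      apply ContinuousAt.continuousWithinAt
      apply Filter.Tendsto.congr' (f₁ := fun _ : Tot g => z.2 * (g p z.1)⁻¹) _ tendsto_const_nhds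
      have ho : IsOpen {w : Tot g | w.1 ∈ N p ∧ w.2 * (g p w.1)⁻¹ = z.2 * (g p z.1)⁻¹} := by
        rw [tot_isOpen_iff]
        rintro w ⟨hw, hw2⟩
        filter_upwards [hN p w.1 hw, (hNo p).mem_nhds hw] with x hx hxN
        refine ⟨hxN, ?_⟩
        show w.2 * g w.1 x * (g p x)⁻¹ = _
        rw [hx, ← hw2]; group
      filter_upwards [ho.mem_nhds ⟨hz, rfl⟩] with w hw
      exact hw.2.symm
    exact (Tot.continuous_proj g).continuousOn.prodMk h2
  · intro w hw
    apply ContinuousAt.continuousWithinAt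
    intro W hW
    obtain ⟨W', hW'W, hW'o, hwW'⟩ := mem_nhds_iff.1 hW
    have h3 := (tot_isOpen_iff.1 hW'o) _ hwW'
    have h4 : ∀ᶠ y in 𝓝 w.1, ((y, w.2 * g p y) : Y × G) ∈ W' := by
      filter_upwards [h3, hN p w.1 hw.1] with y hy hy2
      have : w.2 * g p w.1 * g w.1 y = w.2 * g p y := by rw [hy2]; group
      rw [← this]; exact hy
    change (fun v : Y × G => (show Tot g from (v.1, v.2 * g p v.1))) ⁻¹' W ∈ 𝓝 w
    have h5 : {v : Y × G | ((v.1, w.2 * g p v.1) : Y × G) ∈ W' ∧ v.2 = w.2} ∈ 𝓝 w := by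
      have e1 : {v : Y × G | ((v.1, w.2 * g p v.1) : Y × G) ∈ W' ∧ v.2 = w.2} =
        {y : Y | ((y, w.2 * g p y) : Y × G) ∈ W'} ×ˢ {w.2} := by
        ext v; simp
      rw [e1]
      have : w = (w.1, w.2) := rfl
      rw [this]
      exact prod_mem_nhds h4 (by simp)
    filter_upwards [h5] with v hv
    apply hW'W
    rw [← hv.2] at hv
    exact hv.1

/-- cocycles on simply connected locally path connected spaces are trivial -/
theorem Coc.triv [SimplyConnectedSpace Y] [LocallyPathConnectedSpace Y] {g : Y → Y → G}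
    (hg : Coc g) : ∃ c : Y → G, ∀ p, ∀ᶠ x in 𝓝 p, g p x = (c p)⁻¹ * c x := by
  have hne : Nonempty Y := PathConnectedSpace.nonempty
  obtain ⟨y0⟩ := hne
  obtain ⟨F, ⟨-, hF⟩, -⟩ := (Tot.isCoveringMap hg).existsUnique_continuousMap_lifts
    (ContinuousMap.id Y) y0 ((y0, 1) : Y × G) rfl
  refine ⟨fun y => (F y).2, fun p => ?_⟩
  obtain ⟨N, hN, hNo, hpN⟩ := eventually_nhds_iff.1 (hg p)
  have hF1 : ∀ y, (F y).1 = y := fun y => congrFun hF y
  have ho : IsOpen {w : Tot g | w.1 ∈ N ∧ w.2 = (F p).2 * g p w.1} := by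
    rw [tot_isOpen_iff]
    rintro w ⟨hw, hw2⟩
    filter_upwards [hN w.1 hw, hNo.mem_nhds hw] with x hx hxN
    refine ⟨hxN, ?_⟩
    show w.2 * g w.1 x = _
    rw [hx, hw2]; group
  have hmem : F p ∈ {w : Tot g | w.1 ∈ N ∧ w.2 = (F p).2 * g p w.1} := by
    refine ⟨by rw [hF1]; exact hpN, ?_⟩
    rw [hF1, hg.self]; simp
  have hev := F.continuous.continuousAt.preimage_mem_nhds (ho.mem_nhds hmem)
  filter_upwards [hev] with x hx
  have := hx.2
  rw [hF1] at this
  rw [this]; group

theorem coc_of_cocOn {U : Set Y} {g : Y → Y → G} (h : CocOn U g) :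
    Coc (fun x y : U => g x y) := by
  intro p
  have h1 := h p p.2
  rw [← eventually_nhds_subtype_iff] at h1
  filter_upwards [h1] with x hx
  exact (eventually_nhds_subtype_iff U x (fun y => g x y = (g p x)⁻¹ * g p y)).2 hx

theorem Triv.of_sc (U : Set Y) [SimplyConnectedSpace U] [LocallyPathConnectedSpace U] :
    Triv G U := by
  classical
  intro g hg
  obtain ⟨c, hc⟩ := (coc_of_cocOn hg).triv
  refine ⟨fun y => if hy : y ∈ U then c ⟨y, hy⟩ else 1, fun p hp => ?_⟩
  have h1 : ∀ᶠ x : U in 𝓝 (⟨p, hp⟩ : U), g p x = (c ⟨p, hp⟩)⁻¹ *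
      (if hx : (x : Y) ∈ U then c ⟨x, hx⟩ else 1) := by
    filter_upwards [hc ⟨p, hp⟩] with x hx
    simpa using hx
  rw [eventually_nhds_subtype_iff U ⟨p, hp⟩ (fun x => g p x = (c ⟨p, hp⟩)⁻¹ *
      (if hx : x ∈ U then c ⟨x, hx⟩ else 1))] at h1
  filter_upwards [h1] with x hx
  simpa [hp] using hx

theorem Triv.of_convex {E : Type*} [NormedAddCommGroup E] [NormedSpace ℝ E] {U : Set E}
    (hU : Convex ℝ U) (hne : U.Nonempty) : Triv G U := by
  have h1 : LocallyPathConnectedSpace U := hU.locallyPathConnectedSpace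
  have h2 : ContractibleSpace U := hU.contractibleSpace hne
  exact Triv.of_sc U

section hol

open unitInterval

/-- `a` is the holonomy of `g` along `γ` -/
def IsHol (g : Y → Y → G) (γ : I → Y) (a : G) : Prop :=
  ∃ c : I → G, (∀ s, ∀ᶠ t in 𝓝 s, g (γ s) (γ t) = (c s)⁻¹ * c t) ∧ a = (c 0)⁻¹ * c 1

theorem Coc.pull {Z : Type*} [TopologicalSpace Z] {g : Y → Y → G} (hg : Coc g) {f : Z → Y}
    (hf : Continuous f) : Coc (fun x y => g (f x) (f y)) := by
  intro p
  have h1 := hf.continuousAt.eventually (hg (f p))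
  filter_upwards [h1] with x hx
  exact hf.continuousAt.eventually hx

instance instLPCI : LocallyPathConnectedSpace I := (convex_Icc (0:ℝ) 1).locallyPathConnectedSpace

instance instCI : ContractibleSpace I := (convex_Icc (0:ℝ) 1).contractibleSpace ⟨0, by simp⟩

theorem exists_hol {g : Y → Y → G} (hg : Coc g) {γ : I → Y} (hγ : Continuous γ) :
    ∃ a, IsHol g γ a := by
  obtain ⟨c, hc⟩ := (hg.pull hγ).triv
  exact ⟨_, c, hc, rfl⟩

theorem const_of_local' {Z T : Type*} [TopologicalSpace Z] [PreconnectedSpace Z] {f : Z → T}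
    (h : ∀ p, ∀ᶠ x in 𝓝 p, f x = f p) (x y : Z) : f x = f y := by
  refine const_of_local (C := univ) isPreconnected_univ (f := f) ?_ x trivial y trivial
  intro p _
  rw [nhdsWithin_univ]
  exact h p

omit [TopologicalSpace Y] in
theorem IsHol.uniq {g : Y → Y → G} {γ : I → Y} {a b : G} (h : IsHol g γ a) (h' : IsHol g γ b) :
    a = b := by
  obtain ⟨c, hc, rfl⟩ := h
  obtain ⟨d, hd, rfl⟩ := h'
  have key : ∀ x y : I, d x * (c x)⁻¹ = d y * (c y)⁻¹ := by
    apply const_of_local' (f := fun x => d x * (c x)⁻¹)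
    intro p
    filter_upwards [hc p, hd p] with x hx hx'
    rw [hx] at hx'
    have : d x = d p * ((c p)⁻¹ * c x) := by rw [hx']; group
    rw [this]; group
  have h1 : d 1 = (d 0 * (c 0)⁻¹) * c 1 := by rw [key 0 1]; group
  rw [h1]; group

theorem IsHol.homotopic {g : Y → Y → G} (hg : Coc g) {x y : Y} {γ γ' : Path x y}
    (hh : γ.Homotopic γ') {a b : G} (h : IsHol g γ a) (h' : IsHol g γ' b) : a = b := by
  obtain ⟨F⟩ := hh
  obtain ⟨c, hc⟩ := (hg.pull F.continuous).triv
  have e1 : IsHol g γ ((c (0, 0))⁻¹ * c (0, 1)) := by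
    refine ⟨fun t => c (0, t), fun s => ?_, rfl⟩
    have hcont : Continuous (fun t : I => ((0 : I), t)) := by fun_prop
    filter_upwards [hcont.continuousAt.eventually (hc (0, s))] with t ht
    simpa using ht
  have e2 : IsHol g γ' ((c (1, 0))⁻¹ * c (1, 1)) := by
    refine ⟨fun t => c (1, t), fun s => ?_, rfl⟩
    have hcont : Continuous (fun t : I => ((1 : I), t)) := by fun_prop
    filter_upwards [hcont.continuousAt.eventually (hc (1, s))] with t ht
    simpa using ht
  have c0 : ∀ s s' : I, c (s, 0) = c (s', 0) := by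
    apply const_of_local' (f := fun s => c (s, 0))
    intro s
    have hcont : Continuous (fun t : I => (t, (0 : I))) := by fun_prop
    filter_upwards [hcont.continuousAt.eventually (hc (s, 0))] with t ht
    have h1 : F (s, 0) = x := F.source s
    have h2 : F (t, 0) = x := F.source t
    rw [h1, h2, hg.self] at ht
    exact (inv_mul_eq_one.1 ht.symm).symm
  have c1 : ∀ s s' : I, c (s, 1) = c (s', 1) := by
    apply const_of_local' (f := fun s => c (s, 1))
    intro s
    have hcont : Continuous (fun t : I => (t, (1 : I))) := by fun_prop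
    filter_upwards [hcont.continuousAt.eventually (hc (s, 1))] with t ht
    have h1 : F (s, 1) = y := F.target s
    have h2 : F (t, 1) = y := F.target t
    rw [h1, h2, hg.self] at ht
    exact (inv_mul_eq_one.1 ht.symm).symm
  rw [h.uniq e1, h'.uniq e2, c0 0 1, c1 0 1]

theorem IsHol.trans {g : Y → Y → G} (hg : Coc g) {x y z : Y} {γ : Path x y} {δ : Path y z}
    {a b : G} (h : IsHol g γ a) (h' : IsHol g δ b) : IsHol g (γ.trans δ) (a * b) := by
  obtain ⟨c, hc⟩ := (hg.pull (γ.trans δ).continuous).triv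
  let l : I → I := fun t => ⟨t / 2, by constructor <;> linarith [t.2.1, t.2.2]⟩
  let r : I → I := fun t => ⟨(1 + t) / 2, by constructor <;> linarith [t.2.1, t.2.2]⟩
  have hl : Continuous l := by
    apply Continuous.subtype_mk; fun_prop
  have hr : Continuous r := by
    apply Continuous.subtype_mk; fun_prop
  have el : ∀ t, (γ.trans δ) (l t) = γ t := by
    intro t
    have h1 : ((l t : I) : ℝ) ≤ 1 / 2 := by simp only [l]; linarith [t.2.2]
    rw [Path.trans_apply, dif_pos h1]
    congr 1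
    apply Subtype.ext
    simp only [l]; ring
  have er : ∀ t, (γ.trans δ) (r t) = δ t := by
    intro t
    rw [Path.trans_apply]
    by_cases ht : (t : ℝ) = 0
    · have h1 : ((r t : I) : ℝ) ≤ 1 / 2 := by simp only [r]; rw [ht]; norm_num
      rw [dif_pos h1]
      have h2 : t = 0 := Subtype.ext ht
      subst h2
      rw [δ.source]
      have : (⟨2 * ((r 0 : I) : ℝ), (mul_pos_mem_iff zero_lt_two).2 ⟨(r 0).2.1, h1⟩⟩ : I) = 1 := by
        apply Subtype.ext; simp [r]
      rw [this, γ.target]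
    · have h1 : ¬ ((r t : I) : ℝ) ≤ 1 / 2 := by
        have : 0 < (t : ℝ) := lt_of_le_of_ne t.2.1 (Ne.symm ht)
        simp only [r]; intro hcon; linarith
      rw [dif_neg h1]
      congr 1
      apply Subtype.ext
      simp only [r]; ring
  have e1 : IsHol g γ ((c (l 0))⁻¹ * c (l 1)) := by
    refine ⟨fun t => c (l t), fun s => ?_, rfl⟩
    filter_upwards [hl.continuousAt.eventually (hc (l s))] with t ht
    rw [el, el] at ht
    exact ht
  have e2 : IsHol g δ ((c (r 0))⁻¹ * c (r 1)) := by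
    refine ⟨fun t => c (r t), fun s => ?_, rfl⟩
    filter_upwards [hr.continuousAt.eventually (hc (r s))] with t ht
    rw [er, er] at ht
    exact ht
  refine ⟨c, hc, ?_⟩
  rw [h.uniq e1, h'.uniq e2]
  have h0 : l 0 = 0 := by apply Subtype.ext; simp [l]
  have h1 : r 1 = 1 := by apply Subtype.ext; simp [r]
  have h2 : l 1 = r 0 := by apply Subtype.ext; simp [l, r]
  rw [h0, h1, h2]; group

end hol

end Pool.Agent.H289R3.Tri
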