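import Mathlib

set_option autoImplicit false
open Set Topology
open scoped Manifold ContDiff

namespace Pool.Agent.H289R3.Tri

/-- The disc with `k` holes, as a ladder: the rectangle `[0, 2k+1] × [0, 3]` with the `k` open
squares `(2j+1, 2j+2) × (1, 2)` removed, written as the union of a bottom strip, a top strip and
`k + 1` vertical bars. -/
def ladder (k : ℕ) : Set (ℝ × ℝ) :=
  (Icc (0 : ℝ) (2 * k + 1) ×ˢ Icc (0 : ℝ) 1 ∪ Icc (0 : ℝ) (2 * k + 1) ×ˢ Icc (2 : ℝ) 3) ∪
    ⋃ j : Fin (k + 1), Icc (2 * ((j : ℕ) : ℝ)) (2 * ((j : ℕ) : ℝ) + 1) ×ˢ Icc (0 : ℝ) 3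

/-- The standard `(m+2)`-dimensional orientable handlebody with `k` handles (the boundary connected
sum of `k` copies of `S¹ × B^(m+1)`), as the product of a disc with `k` holes and an `m`-cube. Its
boundary is its frontier in the ambient Euclidean space. -/
def handle (m k : ℕ) : Set ((ℝ × ℝ) × (Fin m → ℝ)) :=
  ladder k ×ˢ Icc (0 : Fin m → ℝ) 1

/-- `P 0, P 1, P 2` is a (topological) trisection of `X` of type `(g; k 0, k 1, k 2)` with core
`S`. Each sector `P i` is homeomorphic to `♮^(k i) (S¹ × B³)`, its boundary being the union of its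
intersections with the other two sectors; each `P i ∩ P j` is homeomorphic to a handlebody of genus
`g`, its boundary being `S`; the three sectors cover `X`, have pairwise disjoint interiors, and
intersect exactly in `S`. (Since `handle m k` is compact, a continuous injective map of it into a
Hausdorff space is a homeomorphism onto its image.) -/
structure IsTrisection {X : Type*} [TopologicalSpace X] (g : ℕ) (k : Fin 3 → ℕ)
    (P : Fin 3 → Set X) (S : Set X) : Prop where
  cover : (⋃ i, P i) = univ
  interior_disjoint : ∀ i j, i ≠ j → Disjoint (interior (P i)) (interior (P j))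
  sector : ∀ i, ∃ f : (ℝ × ℝ) × (Fin 2 → ℝ) → X,
    ContinuousOn f (handle 2 (k i)) ∧ InjOn f (handle 2 (k i)) ∧ f '' handle 2 (k i) = P i ∧
      f '' frontier (handle 2 (k i)) = ⋃ j ∈ {j | j ≠ i}, P i ∩ P j
  inter : ∀ i j, i ≠ j → ∃ f : (ℝ × ℝ) × (Fin 1 → ℝ) → X,
    ContinuousOn f (handle 1 g) ∧ InjOn f (handle 1 g) ∧ f '' handle 1 g = P i ∩ P j ∧
      f '' frontier (handle 1 g) = S
  core : (⋂ i, P i) = S

/-- The polynomial `q_g` with positivity domain `{q_g ≥ 0}` equal to the closed disc of radius
`4 (g + 1)` about the origin of the plane, minus the `g` open unit discs about `(4, 0)`, `(8, 0)`,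
..., `(4 g, 0)`. It changes sign transversally across each of the `g + 1` boundary circles. -/
def qpoly (g : ℕ) (x y : ℝ) : ℝ :=
  ((4 * (g + 1)) ^ 2 - x ^ 2 - y ^ 2) * ∏ j ∈ Finset.range g, ((x - 4 * (j + 1)) ^ 2 + y ^ 2 - 1)

/-- The standard smooth genus-`g` handlebody `{z² ≤ q_g(x, y)}` in `ℝ³` (a disc with `g` holes,
thickened; it is a compact domain with smooth boundary, since `0` is a regular value of
`z² - q_g(x, y)`). -/
def smoothHandlebody (g : ℕ) : Set (EuclideanSpace ℝ (Fin 3)) :=
  {v | v 2 ^ 2 ≤ qpoly g (v 0) (v 1)}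

/-- The boundary surface `{z² = q_g(x, y)}`, of genus `g`, of the standard handlebody. -/
def smoothSurface (g : ℕ) : Set (EuclideanSpace ℝ (Fin 3)) :=
  {v | v 2 ^ 2 = qpoly g (v 0) (v 1)}

/-- `Φ` restricts to an injective smooth immersion on the subset `U` of the manifold `M`. -/
def IsInjectiveImmersionOn {E H M E' H' M' : Type*} [NormedAddCommGroup E] [NormedSpace ℝ E]
    [TopologicalSpace H] (I : ModelWithCorners ℝ E H) [TopologicalSpace M] [ChartedSpace H M]
    [NormedAddCommGroup E'] [NormedSpace ℝ E'] [TopologicalSpace H'] (J : ModelWithCorners ℝ E' H')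
    [TopologicalSpace M'] [ChartedSpace H' M'] (Φ : M → M') (U : Set M) : Prop :=
  ContMDiffOn I J ∞ Φ U ∧ InjOn Φ U ∧ ∀ v ∈ U, Function.Injective (mfderiv I J Φ v)

/-- `S` is the boundary of a genus-`g` handlebody smoothly embedded in the manifold `M`: there is
an injective immersion into `M` of an open neighbourhood of the standard handlebody in `ℝ³`, which
carries the boundary surface of the standard handlebody onto `S`. (The standard handlebody is
compact, so the restriction of such an immersion to it is a smooth embedding.) -/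
def BoundsHandlebody {E H M : Type*} [NormedAddCommGroup E] [NormedSpace ℝ E] [TopologicalSpace H]
    (I : ModelWithCorners ℝ E H) [TopologicalSpace M] [ChartedSpace H M] (g : ℕ) (S : Set M) :
    Prop :=
  ∃ (U : Set (EuclideanSpace ℝ (Fin 3))) (Φ : EuclideanSpace ℝ (Fin 3) → M),
    IsOpen U ∧ smoothHandlebody g ⊆ U ∧ IsInjectiveImmersionOn (𝓡 3) I Φ U ∧
      Φ '' smoothSurface g = S

/-- The inclusion `S ⊆ M` induces a surjection of fundamental groups, at every base point. -/
def PiOneSurjective {M : Type*} [TopologicalSpace M] (S : Set M) : Prop :=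
  ∀ x : S, Function.Surjective
    (FundamentalGroup.map (⟨Subtype.val, continuous_subtype_val⟩ : C(S, M)) x)

/-- The space `M` has Euler characteristic `χ`: it carries a CW structure with finitely many cells
such that the sum of `(-1) ^ (dimension)` over all cells is `χ`. -/
def HasEulerCharacteristic (M : Type) [TopologicalSpace M] (χ : ℤ) : Prop :=
  ∃ C : Topology.CWComplex (univ : Set M), Finite (Σ n, Topology.CWComplex.cell (univ : Set M) n) ∧
    χ = ∑ᶠ c : Σ n, Topology.CWComplex.cell (univ : Set M) n, (-1 : ℤ) ^ c.1

/-- The smooth manifold `M`, with model `I` without boundary, is orientable: for every chart `φ` of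
the atlas and every point `x` of its domain there is a sign `ε φ x` (saying whether `φ` preserves or
reverses the orientation at `x`), locally constant in `x`, such that at every point the Jacobian
determinant of every change of charts has the sign `ε φ x * ε ψ x`. -/
def IsOrientable {E H : Type*} [NormedAddCommGroup E] [NormedSpace ℝ E] [TopologicalSpace H]
    (I : ModelWithCorners ℝ E H) (M : Type*) [TopologicalSpace M] [ChartedSpace H M] : Prop :=
  ∃ ε : OpenPartialHomeomorph M H → M → ℝ,
    (∀ φ ∈ atlas H M, ContinuousOn (ε φ) φ.source ∧ ∀ x ∈ φ.source, ε φ x = 1 ∨ ε φ x = -1) ∧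
    ∀ φ ∈ atlas H M, ∀ ψ ∈ atlas H M, ∀ x ∈ φ.source ∩ ψ.source,
      0 < ε φ x * ε ψ x * (fderiv ℝ (I ∘ ψ ∘ φ.symm ∘ I.symm) (I (φ x))).det

/-- `X`, with its smooth structure modelled on `I`, is a closed, connected, orientable, smooth
manifold of dimension four. -/
structure IsClosedOrientable4Manifold {E H : Type} [NormedAddCommGroup E] [NormedSpace ℝ E]
    [TopologicalSpace H] (I : ModelWithCorners ℝ E H) (X : Type) [TopologicalSpace X]
    [ChartedSpace H X] : Prop where
  dimension : Module.finrank ℝ E = 4
  boundaryless : I.Boundaryless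
  smooth : IsManifold I ∞ X
  compact : CompactSpace X
  hausdorff : T2Space X
  connected : ConnectedSpace X
  orientable : IsOrientable I X

/-- The surface `F` in the manifold `X` satisfies the hypotheses of the question, with genus `g`:
`X` is a closed orientable smooth four-manifold, `F` is the boundary of a smoothly embedded
handlebody of genus `g`, the map `π₁(F) → π₁(X)` is surjective, and `χ(X) ≤ 2 + g`. -/
structure SatisfiesHypotheses {E H : Type} [NormedAddCommGroup E] [NormedSpace ℝ E]
    [TopologicalSpace H] (I : ModelWithCorners ℝ E H) (X : Type) [TopologicalSpace X]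
    [ChartedSpace H X] (g : ℕ) (F : Set X) : Prop where
  manifold : IsClosedOrientable4Manifold I X
  handlebody : BoundsHandlebody I g F
  surjective : PiOneSurjective F
  euler : ∃ χ : ℤ, HasEulerCharacteristic X χ ∧ χ ≤ 2 + g

/-- The surface `F` in the product manifold `M × N × N`, with its product smooth structure,
satisfies the hypotheses of the question. -/
def ProductSatisfiesHypotheses {E H M E' H' N : Type} [NormedAddCommGroup E] [NormedSpace ℝ E]
    [TopologicalSpace H] (I : ModelWithCorners ℝ E H) [TopologicalSpace M] [ChartedSpace H M]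
    [NormedAddCommGroup E'] [NormedSpace ℝ E'] [TopologicalSpace H'] (J : ModelWithCorners ℝ E' H')
    [TopologicalSpace N] [ChartedSpace H' N] (g : ℕ) (F : Set (M × N × N)) : Prop :=
  SatisfiesHypotheses (I.prod (J.prod J)) (M × N × N) g F

/-- `F` is the core of a (topological) trisection of `X` of genus `g`, the genus of `F`. -/
def IsCoreOfTrisection (X : Type) [TopologicalSpace X] (g : ℕ) (F : Set X) : Prop :=
  ∃ (k : Fin 3 → ℕ) (P : Fin 3 → Set X), IsTrisection g k P F

/-- the round two-sphere -/
abbrev S2 : Type := Metric.sphere (0 : EuclideanSpace ℝ (Fin 3)) 1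

/-- the four-manifold `S² × S¹ × S¹` -/
abbrev X4 : Type := S2 × Circle × Circle

/-- the model of the smooth manifold `S¹ × S¹` -/
noncomputable abbrev I2 := (𝓡 1).prod (𝓡 1)

/-- the model of the smooth manifold `S² × S¹ × S¹` -/
noncomputable abbrev I4 := (𝓡 2).prod I2

end Pool.Agent.H289R3.Tri
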