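import Pool.Agent.H289R3.Tri.Defs

set_option autoImplicit false
set_option linter.unusedSectionVars false
set_option linter.unusedVariables false
open Set Filter Topology Metric Module
open scoped Manifold ContDiff

namespace Pool.Agent.H289R3.Tri

section sphere

variable {E : Type*} [NormedAddCommGroup E] [InnerProductSpace ℝ E] {n : ℕ}
  [hE : Fact (finrank ℝ E = n + 1)]

abbrev En (n : ℕ) := EuclideanSpace ℝ (Fin n)

/-- inverse chart as a map to the ambient space -/
noncomputable def par (φ : OpenPartialHomeomorph (sphere (0 : E) 1) (En n)) (y : En n) : E :=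
  (φ.symm y : E)

theorem par_contDiffOn {φ : OpenPartialHomeomorph (sphere (0 : E) 1) (En n)}
    (hφ : φ ∈ atlas (En n) (sphere (0 : E) 1)) : ContDiffOn ℝ ∞ (par φ) φ.target := by
  rw [← contMDiffOn_iff_contDiffOn]
  exact (contMDiff_coe_sphere (n := n)).comp_contMDiffOn
    (contMDiffOn_symm_of_mem_maximalAtlas (I := 𝓡 n) (IsManifold.subset_maximalAtlas hφ))

theorem par_fderiv {φ : OpenPartialHomeomorph (sphere (0 : E) 1) (En n)}
    (hφ : φ ∈ atlas (En n) (sphere (0 : E) 1)) {x : sphere (0 : E) 1} (hx : x ∈ φ.source) :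
    Function.Injective (fderiv ℝ (par φ) (φ x)) ∧
      ∀ v, inner ℝ (x : E) (fderiv ℝ (par φ) (φ x) v) = 0 := by
  have hy : φ x ∈ φ.target := φ.map_source hx
  have h1 : MDifferentiableAt (𝓡 n) (𝓡 n) φ.symm (φ x) :=
    mdifferentiableAt_atlas_symm (I := 𝓡 n) hφ hy
  have h2 : MDifferentiableAt (𝓡 n) 𝓘(ℝ, E) ((↑) : sphere (0 : E) 1 → E) (φ.symm (φ x)) :=
    ((contMDiff_coe_sphere (n := n) (m := 1)).mdifferentiable (by simp)).mdifferentiableAt
  have h3 : mfderiv (𝓡 n) 𝓘(ℝ, E) (par φ) (φ x) =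
      (mfderiv (𝓡 n) 𝓘(ℝ, E) ((↑) : sphere (0 : E) 1 → E) (φ.symm (φ x))).comp
        (mfderiv (𝓡 n) (𝓡 n) φ.symm (φ x)) := mfderiv_comp (φ x) h2 h1
  rw [mfderiv_eq_fderiv] at h3
  have h4 : Function.Injective (mfderiv (𝓡 n) (𝓡 n) φ.symm (φ x)) :=
    (mdifferentiable_of_mem_atlas (I := 𝓡 n) hφ).symm.mfderiv_injective hy
  have h5 := mfderiv_coe_sphere_injective (n := n) (φ.symm (φ x))
  constructor
  · intro a b hab
    apply h4
    apply h5
    have ea := congrArg (fun L : En n →L[ℝ] E => L a) h3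
    have eb := congrArg (fun L : En n →L[ℝ] E => L b) h3
    exact ea.symm.trans (hab.trans eb)
  · intro v
    have ev := congrArg (fun L : En n →L[ℝ] E => L v) h3
    have hr : fderiv ℝ (par φ) (φ x) v ∈
        (mfderiv (𝓡 n) 𝓘(ℝ, E) ((↑) : sphere (0 : E) 1 → E) (φ.symm (φ x))).range :=
      ⟨_, ev.symm⟩
    rw [range_mfderiv_coe_sphere, φ.left_inv hx] at hr
    exact Submodule.mem_orthogonal_singleton_iff_inner_right.1 hr

/-- a basis of the ambient space -/
noncomputable def bb : Basis (Fin (n + 1)) ℝ E :=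
  haveI : FiniteDimensional ℝ E := FiniteDimensional.of_fact_finrank_eq_succ n
  finBasisOfFinrankEq ℝ E hE.out

/-- the standard basis of the model -/
noncomputable def ee (n : ℕ) : Basis (Fin n) ℝ (En n) := (EuclideanSpace.basisFun (Fin n) ℝ).toBasis

/-- the orientation determinant -/
noncomputable def JJ (φ : OpenPartialHomeomorph (sphere (0 : E) 1) (En n)) (x : sphere (0 : E) 1) :
    ℝ :=
  (bb (E := E) (n := n)).det
    (Fin.cons (x : E) (fun i => fderiv ℝ (par φ) (φ x) (ee n i)) : Fin (n + 1) → E)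

theorem JJ_ne {φ : OpenPartialHomeomorph (sphere (0 : E) 1) (En n)}
    (hφ : φ ∈ atlas (En n) (sphere (0 : E) 1)) {x : sphere (0 : E) 1} (hx : x ∈ φ.source) :
    JJ φ x ≠ 0 := by
  obtain ⟨hinj, horth⟩ := par_fderiv hφ hx
  have : FiniteDimensional ℝ E := FiniteDimensional.of_fact_finrank_eq_succ n
  have li : LinearIndependent ℝ
      (Fin.cons (x : E) (fun i => fderiv ℝ (par φ) (φ x) (ee n i)) : Fin (n + 1) → E) := by
    rw [linearIndependent_finCons]
    constructor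
    · have := (ee n).linearIndependent.map' (fderiv ℝ (par φ) (φ x)).toLinearMap
        (LinearMap.ker_eq_bot.2 hinj)
      exact this
    · intro hmem
      have hsub : Submodule.span ℝ (range fun i => fderiv ℝ (par φ) (φ x) (ee n i)) ≤
          (ℝ ∙ (x : E))ᗮ := by
        rw [Submodule.span_le]
        rintro _ ⟨i, rfl⟩
        exact Submodule.mem_orthogonal_singleton_iff_inner_right.2 (horth _)
      have h1 := Submodule.mem_orthogonal_singleton_iff_inner_right.1 (hsub hmem)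
      rw [real_inner_self_eq_norm_sq, mem_sphere_zero_iff_norm.1 x.2] at h1
      norm_num at h1
  have hspan : Submodule.span ℝ (range
      (Fin.cons (x : E) (fun i => fderiv ℝ (par φ) (φ x) (ee n i)) : Fin (n + 1) → E)) = ⊤ :=
    li.span_eq_top_of_card_eq_finrank' (by simp [hE.out])
  exact ((bb (E := E) (n := n)).is_basis_iff_det.1 ⟨li, hspan⟩).ne_zero

theorem det_continuous : Continuous (fun v : Fin (n + 1) → E => (bb (E := E) (n := n)).det v) := by
  have : FiniteDimensional ℝ E := FiniteDimensional.of_fact_finrank_eq_succ n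
  have h : (fun v : Fin (n + 1) → E => (bb (E := E) (n := n)).det v) =
      fun v => ((bb (E := E) (n := n)).toMatrix v).det := by
    funext v; exact Basis.det_apply _ _
  rw [h]
  apply Continuous.matrix_det
  apply continuous_matrix
  intro i j
  have : Continuous ((bb (E := E) (n := n)).coord i) := LinearMap.continuous_of_finiteDimensional _
  exact this.comp (continuous_apply j)

theorem JJ_continuousOn {φ : OpenPartialHomeomorph (sphere (0 : E) 1) (En n)}
    (hφ : φ ∈ atlas (En n) (sphere (0 : E) 1)) : ContinuousOn (JJ φ) φ.source := by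
  apply det_continuous.comp_continuousOn
  apply continuousOn_pi.2
  intro i
  refine Fin.cases ?_ (fun i => ?_) i
  · exact continuous_subtype_val.continuousOn
  · have h1 : ContinuousOn (fderiv ℝ (par φ)) φ.target :=
      (par_contDiffOn hφ).continuousOn_fderiv_of_isOpen φ.open_target (by simp)
    have h2 : ContinuousOn (fun x => fderiv ℝ (par φ) (φ x)) φ.source :=
      h1.comp φ.continuousOn φ.mapsTo
    exact h2.clm_apply continuousOn_const

theorem JJ_change {φ ψ : OpenPartialHomeomorph (sphere (0 : E) 1) (En n)}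
    (hφ : φ ∈ atlas (En n) (sphere (0 : E) 1)) (hψ : ψ ∈ atlas (En n) (sphere (0 : E) 1))
    {x : sphere (0 : E) 1} (hx : x ∈ φ.source) (hx' : x ∈ ψ.source) :
    JJ φ x = (fderiv ℝ (ψ ∘ φ.symm) (φ x)).det * JJ ψ x := by
  have hy : φ x ∈ φ.target := φ.map_source hx
  have hsy : φ.symm (φ x) = x := φ.left_inv hx
  have hT : DifferentiableAt ℝ (ψ ∘ φ.symm) (φ x) := by
    rw [← mdifferentiableAt_iff_differentiableAt]
    apply MDifferentiableAt.comp (I' := 𝓡 n) (φ x)
    · rw [hsy]; exact mdifferentiableAt_atlas (I := 𝓡 n) hψ hx'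
    · exact mdifferentiableAt_atlas_symm (I := 𝓡 n) hφ hy
  have hP : DifferentiableAt ℝ (par ψ) ((ψ ∘ φ.symm) (φ x)) := by
    have : (ψ ∘ φ.symm) (φ x) ∈ ψ.target := by
      simp only [Function.comp_apply, hsy]; exact ψ.map_source hx'
    exact ((par_contDiffOn hψ).contDiffAt (ψ.open_target.mem_nhds this)).differentiableAt (by simp)
  have hev : par φ =ᶠ[𝓝 (φ x)] par ψ ∘ (ψ ∘ φ.symm) := by
    have h1 : ∀ᶠ y in 𝓝 (φ x), φ.symm y ∈ ψ.source := by
      have hc : ContinuousAt φ.symm (φ x) := φ.continuousAt_symm hy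
      apply hc.preimage_mem_nhds
      rw [hsy]; exact ψ.open_source.mem_nhds hx'
    filter_upwards [h1] with y hy
    simp only [par, Function.comp_apply, ψ.left_inv hy]
  have hD : fderiv ℝ (par φ) (φ x) =
      (fderiv ℝ (par ψ) (ψ x)).comp (fderiv ℝ (ψ ∘ φ.symm) (φ x)) := by
    rw [hev.fderiv_eq, fderiv_comp _ hP hT]
    simp only [Function.comp_apply, hsy]
  let η : (En n) [⋀^Fin n]→ₗ[ℝ] ℝ :=
    ((bb (E := E) (n := n)).det.curryLeft (x : E)).compLinearMap
      (fderiv ℝ (par ψ) (ψ x)).toLinearMap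
  have e1 : JJ ψ x = η (ee n) := rfl
  have e2 : JJ φ x = η ((fderiv ℝ (ψ ∘ φ.symm) (φ x)).toLinearMap ∘ (ee n)) := by
    unfold JJ
    rw [hD]
    rfl
  rw [e1, e2, η.eq_smul_basis_det (ee n)]
  simp only [AlternatingMap.smul_apply, smul_eq_mul, Basis.det_comp, Basis.det_self, mul_one]
  exact mul_comm _ _

theorem sphere_orientable : IsOrientable (𝓡 n) (sphere (0 : E) 1) := by
  refine ⟨fun φ x => JJ φ x / |JJ φ x|, ?_, ?_⟩
  · intro φ hφ
    constructor
    · apply (JJ_continuousOn hφ).div (JJ_continuousOn hφ).abs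
      intro x hx
      exact abs_ne_zero.2 (JJ_ne hφ hx)
    · intro x hx
      have h := JJ_ne hφ hx
      rcases lt_or_gt_of_ne h with h' | h'
      · right
        show JJ φ x / |JJ φ x| = -1
        rw [abs_of_neg h', div_neg, div_self h]
      · left
        show JJ φ x / |JJ φ x| = 1
        rw [abs_of_pos h', div_self h]
  · rintro φ hφ ψ hψ x ⟨hx, hx'⟩
    have h := JJ_change hφ hψ hx hx'
    have n1 := JJ_ne hφ hx
    have n2 := JJ_ne hψ hx'
    show 0 < JJ φ x / |JJ φ x| * (JJ ψ x / |JJ ψ x|) * (fderiv ℝ (ψ ∘ φ.symm) (φ x)).det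
    have hd : (fderiv ℝ (ψ ∘ φ.symm) (φ x)).det ≠ 0 := by
      intro h0; rw [h0, zero_mul] at h; exact n1 h
    have e : JJ φ x / |JJ φ x| * (JJ ψ x / |JJ ψ x|) * (fderiv ℝ (ψ ∘ φ.symm) (φ x)).det =
        ((fderiv ℝ (ψ ∘ φ.symm) (φ x)).det) ^ 2 * (JJ ψ x) ^ 2 / (|JJ φ x| * |JJ ψ x|) := by
      have : |JJ φ x| ≠ 0 := abs_ne_zero.2 n1
      have : |JJ ψ x| ≠ 0 := abs_ne_zero.2 n2
      field_simp
      rw [h]; ring
    rw [e]
    have : 0 < |JJ φ x| := abs_pos.2 n1
    have : 0 < |JJ ψ x| := abs_pos.2 n2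
    have : 0 < ((fderiv ℝ (ψ ∘ φ.symm) (φ x)).det) ^ 2 := by positivity
    have : 0 < (JJ ψ x) ^ 2 := by positivity
    positivity

end sphere

section prod

variable {E H E' H' : Type*} [NormedAddCommGroup E] [NormedSpace ℝ E] [TopologicalSpace H]
  [NormedAddCommGroup E'] [NormedSpace ℝ E'] [TopologicalSpace H']
  {I : ModelWithCorners ℝ E H} {J : ModelWithCorners ℝ E' H'} {M N : Type*}
  [TopologicalSpace M] [ChartedSpace H M] [TopologicalSpace N] [ChartedSpace H' N]

theorem transition_differentiable [I.Boundaryless] [IsManifold I ∞ M]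
    {φ ψ : OpenPartialHomeomorph M H} (hφ : φ ∈ atlas H M) (hψ : ψ ∈ atlas H M) {x : M}
    (hx : x ∈ φ.source) (hx' : x ∈ ψ.source) :
    DifferentiableAt ℝ (I ∘ ψ ∘ φ.symm ∘ I.symm) (I (φ x)) := by
  have h := (contDiffGroupoid ∞ I).compatible hφ hψ
  have h1 := (mem_groupoid_of_pregroupoid.1 h).1
  have h2 : ContDiffOn ℝ ∞ (I ∘ (φ.symm ≫ₕ ψ) ∘ I.symm)
      (I.symm ⁻¹' (φ.symm ≫ₕ ψ).source ∩ range I) := h1
  rw [I.range_eq_univ, inter_univ] at h2
  have ho : IsOpen (I.symm ⁻¹' (φ.symm ≫ₕ ψ).source) :=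
    (φ.symm ≫ₕ ψ).open_source.preimage I.continuous_symm
  have hm : I (φ x) ∈ I.symm ⁻¹' (φ.symm ≫ₕ ψ).source := by
    simp only [mem_preimage, I.left_inv, OpenPartialHomeomorph.trans_source,
      OpenPartialHomeomorph.symm_source, mem_inter_iff]
    exact ⟨φ.map_source hx, by rw [φ.left_inv hx]; exact hx'⟩
  exact (h2.contDiffAt (ho.mem_nhds hm)).differentiableAt (by simp)

theorem IsOrientable.prod [FiniteDimensional ℝ E] [FiniteDimensional ℝ E'] [I.Boundaryless]
    [J.Boundaryless] [IsManifold I ∞ M] [IsManifold J ∞ N] (hM : IsOrientable I M)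
    (hN : IsOrientable J N) : IsOrientable (I.prod J) (M × N) := by
  classical
  obtain ⟨ε, h1, h2⟩ := hM
  obtain ⟨δ, k1, k2⟩ := hN
  have hat : ∀ φ : OpenPartialHomeomorph (M × N) (ModelProd H H'), φ ∈ atlas (ModelProd H H') (M × N) →
      ∃ a ∈ atlas H M, ∃ b ∈ atlas H' N, φ = a.prod b := by
    rintro φ ⟨a, ha, b, hb, rfl⟩
    exact ⟨a, ha, b, hb, rfl⟩
  choose a ha b hb hab using hat
  have hε : ∀ φ (h : φ ∈ atlas (ModelProd H H') (M × N)) (z : M × N),
      (if h : φ ∈ atlas (ModelProd H H') (M × N) then ε (a φ h) z.1 * δ (b φ h) z.2 else 1) =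
      ε (a φ h) z.1 * δ (b φ h) z.2 := by
    intro φ h z
    rw [dif_pos h]
  refine ⟨fun φ z => if h : φ ∈ atlas (ModelProd H H') (M × N) then
    ε (a φ h) z.1 * δ (b φ h) z.2 else 1, ?_, ?_⟩
  · intro φ hφ
    have hs : φ.source = (a φ hφ).source ×ˢ (b φ hφ).source :=
      congrArg (fun q : OpenPartialHomeomorph (M × N) (ModelProd H H') => q.source) (hab φ hφ)
    obtain ⟨c1, s1⟩ := h1 _ (ha φ hφ)
    obtain ⟨c2, s2⟩ := k1 _ (hb φ hφ)
    simp only [hε φ hφ]
    constructor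
    · rw [hs]
      exact (c1.comp continuousOn_fst fun z hz => hz.1).mul
        (c2.comp continuousOn_snd fun z hz => hz.2)
    · intro z hz
      rw [hs] at hz
      rcases s1 z.1 hz.1 with e1 | e1 <;> rcases s2 z.2 hz.2 with e2 | e2 <;> rw [e1, e2] <;> simp
  · rintro φ hφ ψ hψ ⟨x, y⟩ ⟨hz, hz'⟩
    have hs : φ.source = (a φ hφ).source ×ˢ (b φ hφ).source :=
      congrArg (fun q : OpenPartialHomeomorph (M × N) (ModelProd H H') => q.source) (hab φ hφ)
    have hs' : ψ.source = (a ψ hψ).source ×ˢ (b ψ hψ).source :=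
      congrArg (fun q : OpenPartialHomeomorph (M × N) (ModelProd H H') => q.source) (hab ψ hψ)
    rw [hs] at hz
    rw [hs'] at hz'
    show 0 < (if h : φ ∈ atlas (ModelProd H H') (M × N) then
      ε (a φ h) (x, y).1 * δ (b φ h) (x, y).2 else 1) *
      (if h : ψ ∈ atlas (ModelProd H H') (M × N) then
      ε (a ψ h) (x, y).1 * δ (b ψ h) (x, y).2 else 1) * _
    rw [hε φ hφ (x, y), hε ψ hψ (x, y)]
    have p1 := h2 _ (ha φ hφ) _ (ha ψ hψ) x ⟨hz.1, hz'.1⟩
    have p2 := k2 _ (hb φ hφ) _ (hb ψ hψ) y ⟨hz.2, hz'.2⟩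
    have d1 := transition_differentiable (I := I) (ha φ hφ) (ha ψ hψ) hz.1 hz'.1
    have d2 := transition_differentiable (I := J) (hb φ hφ) (hb ψ hψ) hz.2 hz'.2
    have e : ((I.prod J) ∘ ψ ∘ φ.symm ∘ (I.prod J).symm) =
        Prod.map (I ∘ (a ψ hψ) ∘ (a φ hφ).symm ∘ I.symm)
          (J ∘ (b ψ hψ) ∘ (b φ hφ).symm ∘ J.symm) := by
      have e1 : (φ.symm : ModelProd H H' → M × N) = ((a φ hφ).prod (b φ hφ)).symm :=
        congrArg (fun q : OpenPartialHomeomorph (M × N) (ModelProd H H') =>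
          (q.symm : ModelProd H H' → M × N)) (hab φ hφ)
      have e2 : (ψ : M × N → ModelProd H H') = ((a ψ hψ).prod (b ψ hψ)) :=
        congrArg (fun q : OpenPartialHomeomorph (M × N) (ModelProd H H') =>
          (q : M × N → ModelProd H H')) (hab ψ hψ)
      rw [e1, e2]
      rfl
    have e0 : (I.prod J) (φ (x, y)) = (I (a φ hφ x), J (b φ hφ y)) := by
      have e2 : (φ : M × N → ModelProd H H') = ((a φ hφ).prod (b φ hφ)) :=
        congrArg (fun q : OpenPartialHomeomorph (M × N) (ModelProd H H') =>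
          (q : M × N → ModelProd H H')) (hab φ hφ)
      rw [e2]
      rfl
    rw [e, e0]
    have hD : fderiv ℝ (Prod.map (I ∘ (a ψ hψ) ∘ (a φ hφ).symm ∘ I.symm)
        (J ∘ (b ψ hψ) ∘ (b φ hφ).symm ∘ J.symm)) (I (a φ hφ x), J (b φ hφ y)) =
        (fderiv ℝ (I ∘ (a ψ hψ) ∘ (a φ hφ).symm ∘ I.symm) (I (a φ hφ x))).prodMap
        (fderiv ℝ (J ∘ (b ψ hψ) ∘ (b φ hφ).symm ∘ J.symm) (J (b φ hφ y))) :=
      (d1.hasFDerivAt.prodMap (I (a φ hφ x), J (b φ hφ y)) d2.hasFDerivAt).fderiv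
    rw [hD]
    have hdet : ((fderiv ℝ (I ∘ (a ψ hψ) ∘ (a φ hφ).symm ∘ I.symm) (I (a φ hφ x))).prodMap
        (fderiv ℝ (J ∘ (b ψ hψ) ∘ (b φ hφ).symm ∘ J.symm) (J (b φ hφ y)))).det =
        (fderiv ℝ (I ∘ (a ψ hψ) ∘ (a φ hφ).symm ∘ I.symm) (I (a φ hφ x))).det *
        (fderiv ℝ (J ∘ (b ψ hψ) ∘ (b φ hφ).symm ∘ J.symm) (J (b φ hφ y))).det :=
      LinearMap.det_prodMap _ _
    rw [hdet]
    have := mul_pos p1 p2
    calc 0 < _ := this
      _ = _ := by ring

end prod

theorem circle_orientable : IsOrientable (𝓡 1) Circle :=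
  haveI : Fact (finrank ℝ ℂ = 1 + 1) := finrank_real_complex_fact'
  sphere_orientable (E := ℂ) (n := 1)

theorem S2_orientable : IsOrientable (𝓡 2) (sphere (0 : EuclideanSpace ℝ (Fin 3)) 1) :=
  haveI := Fact.mk (@finrank_euclideanSpace_fin ℝ _ (2 + 1))
  sphere_orientable (E := EuclideanSpace ℝ (Fin 3)) (n := 2)

theorem X4_orientable : IsOrientable ((𝓡 2).prod ((𝓡 1).prod (𝓡 1)))
    (sphere (0 : EuclideanSpace ℝ (Fin 3)) 1 × Circle × Circle) := by
  haveI : IsManifold (𝓡 2) ∞ (sphere (0 : EuclideanSpace ℝ (Fin 3)) 1) :=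
    IsManifold.of_le (n := ω) (by simp)
  haveI : IsManifold (𝓡 1) ∞ Circle := IsManifold.of_le (n := ω) (by simp)
  haveI : IsManifold ((𝓡 1).prod (𝓡 1)) ∞ (Circle × Circle) := inferInstance
  exact S2_orientable.prod (circle_orientable.prod circle_orientable)

end Pool.Agent.H289R3.Tri
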