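import Pool.Agent.H289R3.Tri.Pi1
import Pool.Agent.H289R3.Tri.CW
import Pool.Agent.H289R3.Tri.Orient

set_option autoImplicit false
open Set Topology Metric Module
open scoped Manifold ContDiff

namespace Pool.Agent.H289R3.Tri

theorem X4_closed : IsClosedOrientable4Manifold ((𝓡 2).prod ((𝓡 1).prod (𝓡 1)))
    (sphere (0 : EuclideanSpace ℝ (Fin 3)) 1 × Circle × Circle) := by
  have h1 : IsManifold (𝓡 2) ∞ (sphere (0 : EuclideanSpace ℝ (Fin 3)) 1) :=
    IsManifold.of_le (n := ω) (by simp)
  have h2 : IsManifold (𝓡 1) ∞ Circle := IsManifold.of_le (n := ω) (by simp)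
  have h3 : IsManifold ((𝓡 1).prod (𝓡 1)) ∞ (Circle × Circle) := inferInstance
  have h4 : PathConnectedSpace (sphere (0 : EuclideanSpace ℝ (Fin 3)) 1) :=
    haveI : SimplyConnectedSpace S2 := instSCS2
    inferInstanceAs (PathConnectedSpace S2)
  have h5 : ConnectedSpace Circle := by
    have : Function.Surjective (Circle.exp : ℝ → Circle) := Circle.exp_surjective
    exact this.connectedSpace Circle.exp.continuous
  exact
    { dimension := by simp
      boundaryless := inferInstance
      smooth := inferInstance
      compact := inferInstance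
      hausdorff := inferInstance
      connected := inferInstance
      orientable := X4_orientable }

end Pool.Agent.H289R3.Tri
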