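import Mathlib

set_option autoImplicit false
open Set Filter Topology

namespace Pool.Agent.H289R3.Tri

variable {X : Type*} [TopologicalSpace X] {G : Type*} [Group G]

/-- `g` is a germ cocycle on the set `A` (a principal `G`-bundle with a set-theoretic frame). -/
def CocOn (A : Set X) (g : X → X → G) : Prop :=
  ∀ p ∈ A, ∀ᶠ x in 𝓝[A] p, ∀ᶠ y in 𝓝[A] x, g x y = (g p x)⁻¹ * g p y

/-- `b` is an isomorphism from the cocycle `g` to the cocycle `g'` on `A`. -/
def GauOn (A : Set X) (g g' : X → X → G) (b : X → G) : Prop :=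
  ∀ p ∈ A, ∀ᶠ x in 𝓝[A] p, g' p x = (b p)⁻¹ * g p x * b x

/-- `c` trivialises `g` on `U`. -/
def TrivBy (U : Set X) (g : X → X → G) (c : X → G) : Prop :=
  ∀ p ∈ U, ∀ᶠ x in 𝓝[U] p, g p x = (c p)⁻¹ * c x

theorem CocOn.mono {A B : Set X} {g : X → X → G} (h : CocOn A g) (hBA : B ⊆ A) : CocOn B g := by
  intro p hp
  have h1 := h p (hBA hp)
  have h2 : ∀ᶠ x in 𝓝[B] p, ∀ᶠ y in 𝓝[A] x, g x y = (g p x)⁻¹ * g p y :=
    h1.filter_mono (nhdsWithin_mono _ hBA)
  exact h2.mono fun x hx => hx.filter_mono (nhdsWithin_mono _ hBA)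

theorem GauOn.mono {A B : Set X} {g g' : X → X → G} {b : X → G} (h : GauOn A g g' b)
    (hBA : B ⊆ A) : GauOn B g g' b := fun p hp =>
  (h p (hBA hp)).filter_mono (nhdsWithin_mono _ hBA)

theorem TrivBy.mono {A B : Set X} {g : X → X → G} {c : X → G} (h : TrivBy A g c)
    (hBA : B ⊆ A) : TrivBy B g c := fun p hp =>
  (h p (hBA hp)).filter_mono (nhdsWithin_mono _ hBA)

theorem GauOn.refl (A : Set X) (g : X → X → G) : GauOn A g g (fun _ => 1) := by
  intro p _
  exact Eventually.of_forall fun x => by simp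

theorem GauOn.symm {A : Set X} {g g' : X → X → G} {b : X → G} (h : GauOn A g g' b) :
    GauOn A g' g (fun x => (b x)⁻¹) := by
  intro p hp
  filter_upwards [h p hp] with x hx
  rw [hx]
  group

theorem GauOn.trans {A : Set X} {g g' g'' : X → X → G} {b b' : X → G} (h : GauOn A g g' b)
    (h' : GauOn A g' g'' b') : GauOn A g g'' (fun x => b x * b' x) := by
  intro p hp
  filter_upwards [h p hp, h' p hp] with x hx hx'
  rw [hx', hx]
  group

theorem CocOn.gau {A : Set X} {g g' : X → X → G} {b : X → G} (hg : CocOn A g)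
    (h : GauOn A g g' b) : CocOn A g' := by
  intro p hp
  have h1 := h p hp
  have h2 := eventually_eventually_nhdsWithin.2 h1
  filter_upwards [hg p hp, h1, h2, self_mem_nhdsWithin] with x hx1 hx2 hx3 hxA
  filter_upwards [hx1, h x hxA, hx3] with y hy1 hy2 hy3
  rw [hy2, hy3, hx2, hy1]
  group

theorem GauOn.congr_b {A : Set X} {g g' : X → X → G} {b b' : X → G} (h : GauOn A g g' b)
    (hb : ∀ x ∈ A, b x = b' x) : GauOn A g g' b' := by
  intro p hp
  filter_upwards [h p hp, self_mem_nhdsWithin] with x hx hxA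
  rw [hx, hb p hp, hb x hxA]

theorem TrivBy.congr_c {A : Set X} {g : X → X → G} {c c' : X → G} (h : TrivBy A g c)
    (hb : ∀ x ∈ A, c x = c' x) : TrivBy A g c' := by
  intro p hp
  filter_upwards [h p hp, self_mem_nhdsWithin] with x hx hxA
  rw [hx, hb p hp, hb x hxA]

/-- germwise equal cocycles -/
theorem GauOn.of_germ {A : Set X} {g g' : X → X → G}
    (h : ∀ p ∈ A, ∀ᶠ x in 𝓝[A] p, g' p x = g p x) : GauOn A g g' (fun _ => 1) := by
  intro p hp
  filter_upwards [h p hp] with x hx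
  rw [hx]; simp

theorem nhdsWithin_bot_of_closed {A : Set X} (hA : IsClosed A) {p : X} (hp : p ∉ A) :
    𝓝[A] p = ⊥ := by
  by_contra h
  have h1 : NeBot (𝓝[A] p) := ⟨h⟩
  have h2 := mem_closure_iff_nhdsWithin_neBot.2 h1
  rw [hA.closure_eq] at h2
  exact hp h2

theorem eventually_union {A B : Set X} {p : X} {P : X → Prop}
    (hA : ∀ᶠ x in 𝓝[A] p, P x) (hB : ∀ᶠ x in 𝓝[B] p, P x) : ∀ᶠ x in 𝓝[A ∪ B] p, P x := by
  rw [nhdsWithin_union]
  exact eventually_sup.2 ⟨hA, hB⟩

theorem GauOn.union {A B : Set X} (hA : IsClosed A) (hB : IsClosed B) {g g' : X → X → G}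
    {b : X → G} (h : GauOn A g g' b) (h' : GauOn B g g' b) : GauOn (A ∪ B) g g' b := by
  intro p _
  apply eventually_union
  · by_cases hp : p ∈ A
    · exact h p hp
    · rw [nhdsWithin_bot_of_closed hA hp]; exact eventually_bot
  · by_cases hp : p ∈ B
    · exact h' p hp
    · rw [nhdsWithin_bot_of_closed hB hp]; exact eventually_bot

theorem TrivBy.union {A B : Set X} (hA : IsClosed A) (hB : IsClosed B) {g : X → X → G}
    {b : X → G} (h : TrivBy A g b) (h' : TrivBy B g b) : TrivBy (A ∪ B) g b := by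
  intro p _
  apply eventually_union
  · by_cases hp : p ∈ A
    · exact h p hp
    · rw [nhdsWithin_bot_of_closed hA hp]; exact eventually_bot
  · by_cases hp : p ∈ B
    · exact h' p hp
    · rw [nhdsWithin_bot_of_closed hB hp]; exact eventually_bot

theorem CocOn.aux {A B : Set X} (hB : IsClosed B) {g : X → X → G}
    (h' : CocOn B g) (p : X) :
    ∀ᶠ x in 𝓝[A] p, ∀ᶠ y in 𝓝[B] x, g x y = (g p x)⁻¹ * g p y := by
  by_cases hp : p ∈ B
  · have h1 : ∀ᶠ x in 𝓝 p, x ∈ B → ∀ᶠ y in 𝓝[B] x, g x y = (g p x)⁻¹ * g p y :=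
      eventually_nhdsWithin_iff.1 (h' p hp)
    have h2 : ∀ᶠ x in 𝓝[A] p, x ∈ B → ∀ᶠ y in 𝓝[B] x, g x y = (g p x)⁻¹ * g p y :=
      h1.filter_mono nhdsWithin_le_nhds
    filter_upwards [h2] with x hx
    by_cases hxB : x ∈ B
    · exact hx hxB
    · rw [nhdsWithin_bot_of_closed hB hxB]; exact eventually_bot
  · have h1 : ∀ᶠ x in 𝓝 p, x ∉ B := hB.isOpen_compl.mem_nhds hp
    have h2 : ∀ᶠ x in 𝓝[A] p, x ∉ B := h1.filter_mono nhdsWithin_le_nhds
    filter_upwards [h2] with x hx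
    rw [nhdsWithin_bot_of_closed hB hx]; exact eventually_bot

theorem CocOn.union {A B : Set X} (hA : IsClosed A) (hB : IsClosed B) {g : X → X → G}
    (h : CocOn A g) (h' : CocOn B g) : CocOn (A ∪ B) g := by
  intro p _
  have e1 := CocOn.aux (A := A ∪ B) hA h p
  have e2 := CocOn.aux (A := A ∪ B) hB h' p
  filter_upwards [e1, e2] with x hx1 hx2
  exact eventually_union hx1 hx2

/-- the cocycle only depends on the germs -/
theorem CocOn.congr {A : Set X} {g g' : X → X → G} (h : CocOn A g)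
    (hg : ∀ p ∈ A, ∀ᶠ x in 𝓝[A] p, g' p x = g p x) : CocOn A g' :=
  h.gau (GauOn.of_germ hg)

theorem GauOn.uniq {C : Set X} (hC : IsPreconnected C) {g g' : X → X → G} {b b' : X → G}
    (h : GauOn C g g' b) (h' : GauOn C g g' b') {x0 : X} (hx0 : x0 ∈ C) (h0 : b x0 = b' x0) :
    ∀ x ∈ C, b x = b' x := by
  intro x hx
  have key : (b x0 = b' x0) ↔ (b x = b' x) := by
    apply hC.induction₂ (fun x y => (b x = b' x) ↔ (b y = b' y)) _ _ _ hx0 hx
    · intro p hp
      filter_upwards [h p hp, h' p hp] with y hy hy'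
      rw [hy] at hy'
      constructor
      · intro hb
        rw [hb] at hy'
        exact mul_left_cancel hy'
      · intro hb
        rw [hb] at hy'
        have := mul_right_cancel hy'
        have := mul_right_cancel this
        exact inv_injective this
    · intro x y z _ _ _ h1 h2
      exact h1.trans h2
    · intro x y _ _ h1
      exact h1.symm
  exact key.1 h0

/-- a locally constant function on a preconnected set is constant -/
theorem const_of_local {T : Type*} {C : Set X} (hC : IsPreconnected C) {f : X → T}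
    (h : ∀ p ∈ C, ∀ᶠ x in 𝓝[C] p, f x = f p) : ∀ x ∈ C, ∀ y ∈ C, f x = f y := by
  intro x hx y hy
  apply hC.induction₂ (fun x y => f x = f y) _ _ _ hx hy
  · intro p hp
    filter_upwards [h p hp] with y hy using hy.symm
  · intro x y z _ _ _ h1 h2
    exact h1.trans h2
  · intro x y _ _ h1
    exact h1.symm

theorem TrivBy.gau {U : Set X} {g g' : X → X → G} {c b : X → G} (h : TrivBy U g c)
    (h' : GauOn U g g' b) : TrivBy U g' (fun x => c x * b x) := by
  intro p hp
  filter_upwards [h p hp, h' p hp] with x hx hx'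
  rw [hx', hx]; group

theorem TrivBy.const_mul {U : Set X} {g : X → X → G} {c : X → G} (h : TrivBy U g c) (a : G) :
    TrivBy U g (fun x => a * c x) := by
  intro p hp
  filter_upwards [h p hp] with x hx
  rw [hx]; group

theorem TrivBy.uniq {U : Set X} (hU : IsPreconnected U) {g : X → X → G} {c c' : X → G}
    (h : TrivBy U g c) (h' : TrivBy U g c') {x y : X} (hx : x ∈ U) (hy : y ∈ U) :
    c' x * (c x)⁻¹ = c' y * (c y)⁻¹ := by
  apply const_of_local hU (f := fun x => c' x * (c x)⁻¹) _ x hx y hy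
  intro p hp
  filter_upwards [h p hp, h' p hp] with x hx hx'
  rw [hx] at hx'
  have : c' x = c' p * ((c p)⁻¹ * c x) := by rw [hx']; group
  rw [this]; group

theorem TrivBy.gauOn {U : Set X} {g g' : X → X → G} {c c' : X → G} (h : TrivBy U g c)
    (h' : TrivBy U g' c') (a : G) : GauOn U g g' (fun x => (c x)⁻¹ * a * c' x) := by
  intro p hp
  filter_upwards [h p hp, h' p hp] with x hx hx'
  rw [hx, hx']; group

/-- cocycles of this form are cocycles -/
theorem CocOn.of_triv {U : Set X} (c : X → G) : CocOn U (fun x y => (c x)⁻¹ * c y) := by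
  intro p _
  exact Eventually.of_forall fun x => Eventually.of_forall fun y => by group

variable (G) in
/-- every cocycle on `U` is trivial -/
def Triv (U : Set X) : Prop := ∀ g : X → X → G, CocOn U g → ∃ c : X → G, TrivBy U g c

variable (G) in
/-- isomorphisms over `C` extend to isomorphisms over `A` -/
def Ext (A C : Set X) : Prop :=
  ∀ g g' : X → X → G, CocOn A g → CocOn A g' → ∀ b : X → G, GauOn C g g' b →
    ∃ b' : X → G, GauOn A g g' b' ∧ ∀ x ∈ C, b' x = b x

theorem Triv.union {U V : Set X} (hU : IsClosed U) (hV : IsClosed V) (tU : Triv G U)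
    (tV : Triv G V) (hc : IsPreconnected (U ∩ V)) (hne : (U ∩ V).Nonempty) :
    Triv G (U ∪ V) := by
  classical
  intro g hg
  obtain ⟨c, hcU⟩ := tU g (hg.mono subset_union_left)
  obtain ⟨d, hdV⟩ := tV g (hg.mono subset_union_right)
  obtain ⟨z, hz⟩ := hne
  set a : G := c z * (d z)⁻¹ with ha
  have hd2 := hdV.const_mul a
  have hcd : ∀ x ∈ U ∩ V, c x = a * d x := by
    intro x hx
    have := TrivBy.uniq hc (hdV.mono inter_subset_right) (hcU.mono inter_subset_left) hx hz
    rw [ha, ← this]; group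
  refine ⟨fun x => if x ∈ U then c x else a * d x, ?_⟩
  apply TrivBy.union hU hV
  · exact hcU.congr_c fun x hx => by simp [hx]
  · apply hd2.congr_c
    intro x hx
    by_cases hxU : x ∈ U
    · simp [hxU, hcd x ⟨hxU, hx⟩]
    · simp [hxU]

theorem Ext.of_triv {U C : Set X} (tU : Triv G U) (hCU : C ⊆ U) (hC : IsPreconnected C)
    (hne : C.Nonempty) : Ext G U C := by
  intro g g' hg hg' b hb
  obtain ⟨c, hc⟩ := tU g hg
  obtain ⟨c', hc'⟩ := tU g' hg'
  obtain ⟨z, hz⟩ := hne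
  refine ⟨fun x => (c x)⁻¹ * (c z * b z * (c' z)⁻¹) * c' x, hc.gauOn hc' _, ?_⟩
  intro x hx
  have h1 : TrivBy C g' (fun x => c x * b x) := (hc.mono hCU).gau hb
  have h2 := TrivBy.uniq hC (hc'.mono hCU) h1 hz hx
  rw [h2]; group

theorem Ext.trans {A B C : Set X} (hBA : B ⊆ A) (h1 : Ext G A B) (h2 : Ext G B C) (hCB : C ⊆ B) :
    Ext G A C := by
  intro g g' hg hg' b hb
  obtain ⟨b1, hb1, hb1'⟩ := h2 g g' (hg.mono hBA) (hg'.mono hBA) b hb
  obtain ⟨b2, hb2, hb2'⟩ := h1 g g' hg hg' b1 hb1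
  exact ⟨b2, hb2, fun x hx => by rw [hb2' x (hCB hx), hb1' x hx]⟩

theorem Ext.union {U V C : Set X} (hU : IsClosed U) (hV : IsClosed V) (hC : C ⊆ U ∪ V)
    (eU : Ext G U (C ∩ U)) (eV : Ext G V (C ∩ V))
    (hq : ∀ x ∈ U ∩ V, ∃ D ⊆ U ∩ V, IsPreconnected D ∧ x ∈ D ∧ (D ∩ C).Nonempty) :
    Ext G (U ∪ V) C := by
  classical
  intro g g' hg hg' b hb
  obtain ⟨b1, hb1, hb1'⟩ := eU g g' (hg.mono subset_union_left) (hg'.mono subset_union_left) b
    (hb.mono inter_subset_left)
  obtain ⟨b2, hb2, hb2'⟩ := eV g g' (hg.mono subset_union_right) (hg'.mono subset_union_right) b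
    (hb.mono inter_subset_left)
  have h12 : ∀ x ∈ U ∩ V, b1 x = b2 x := by
    intro x hx
    obtain ⟨D, hD, hDc, hxD, z, hzD, hzC⟩ := hq x hx
    have hz := hD hzD
    exact GauOn.uniq hDc (hb1.mono (hD.trans inter_subset_left))
      (hb2.mono (hD.trans inter_subset_right)) hzD
      (by rw [hb1' z ⟨hzC, hz.1⟩, hb2' z ⟨hzC, hz.2⟩]) x hxD
  refine ⟨fun x => if x ∈ U then b1 x else b2 x, ?_, ?_⟩
  · apply GauOn.union hU hV
    · exact hb1.congr_b fun x hx => by simp [hx]
    · apply hb2.congr_b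
      intro x hx
      by_cases hxU : x ∈ U
      · simp [hxU, h12 x ⟨hxU, hx⟩]
      · simp [hxU]
  · intro x hx
    by_cases hxU : x ∈ U
    · simp [hxU, hb1' x ⟨hx, hxU⟩]
    · have hxV : x ∈ V := (hC hx).resolve_left hxU
      simp [hxU, hb2' x ⟨hx, hxV⟩]

/-- enlarge `C` inside `A` -/
theorem Ext.enlarge {A C F : Set X} (h : Ext G A C) (hCF : C ⊆ F) (hFA : F ⊆ A)
    (hF : ∀ x ∈ F, ∃ D ⊆ F, IsPreconnected D ∧ x ∈ D ∧ (D ∩ C).Nonempty) : Ext G A F := by
  intro g g' hg hg' b hb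
  obtain ⟨b1, hb1, hb1'⟩ := h g g' hg hg' b (hb.mono hCF)
  refine ⟨b1, hb1, fun x hx => ?_⟩
  obtain ⟨D, hD, hDc, hxD, z, hzD, hzC⟩ := hF x hx
  exact GauOn.uniq hDc (hb1.mono (hD.trans hFA)) (hb.mono hD) hzD (hb1' z hzC) x hxD

end Pool.Agent.H289R3.Tri
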