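import Pool.Agent.H289R3.Tri.Trisect

set_option autoImplicit false
set_option linter.unusedSectionVars false
set_option linter.unusedVariables false
open Set Filter Topology

namespace Pool.Agent.H289R3.Tri

variable {G : Type*} [Group G] {X : Type*} [TopologicalSpace X] [T2Space X]

theorem fin3 : ∀ i j l : Fin 3, i ≠ j → i ≠ l → j ≠ l → ∀ m, m = i ∨ m = j ∨ m = l := by decide

section tri

variable {g : ℕ} {k : Fin 3 → ℕ} {P : Fin 3 → Set X} {S : Set X}

theorem IsTrisection.isCompact (h : IsTrisection g k P S) (i : Fin 3) : IsCompact (P i) := by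
  obtain ⟨f, hf, -, h2, -⟩ := h.sector i
  rw [← h2]
  exact (isCompact_handle 2 (k i)).image_of_continuousOn hf

theorem IsTrisection.isClosed (h : IsTrisection g k P S) (i : Fin 3) : IsClosed (P i) :=
  (h.isCompact i).isClosed

theorem IsTrisection.triple (h : IsTrisection g k P S) {i j l : Fin 3} (hij : i ≠ j) (hil : i ≠ l)
    (hjl : j ≠ l) : (P i ∩ P j) ∩ (P i ∩ P l) = S := by
  rw [← h.core]
  ext x
  simp only [mem_inter_iff, mem_iInter]
  constructor
  · rintro ⟨⟨h1, h2⟩, -, h3⟩ m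
    have : m = i ∨ m = j ∨ m = l := fin3 i j l hij hil hjl m
    rcases this with rfl | rfl | rfl <;> assumption
  · intro hx
    exact ⟨⟨hx i, hx j⟩, hx i, hx l⟩

theorem IsTrisection.biUnion (h : IsTrisection g k P S) {i j l : Fin 3} (hij : i ≠ j) (hil : i ≠ l)
    (hjl : j ≠ l) : (⋃ m ∈ {m | m ≠ i}, P i ∩ P m) = (P i ∩ P j) ∪ (P i ∩ P l) := by
  ext x
  simp only [mem_iUnion, mem_union, mem_ofPred_eq, exists_prop]
  constructor
  · rintro ⟨m, hm, hx⟩
    have : m = j ∨ m = l := (fin3 i j l hij hil hjl m).resolve_left hm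
    rcases this with rfl | rfl
    · exact Or.inl hx
    · exact Or.inr hx
  · rintro (hx | hx)
    · exact ⟨j, hij.symm, hx⟩
    · exact ⟨l, hil.symm, hx⟩

variable (G) in
theorem IsTrisection.A1 (h : IsTrisection g k P S) {i j : Fin 3} (hij : i ≠ j) :
    Ext G (P i ∩ P j) S := by
  obtain ⟨f, hf, hi, h1, h2⟩ := h.inter i j hij
  rw [← h1, ← h2]
  exact (ext_handle G one_pos g).transfer (isCompact_handle 1 g) hf hi
    (isCompact_handle 1 g).isClosed.frontier_subset

variable (G) in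
theorem IsTrisection.A2 (h : IsTrisection g k P S) {i j l : Fin 3} (hij : i ≠ j) (hil : i ≠ l)
    (hjl : j ≠ l) : Ext G (P i) ((P i ∩ P j) ∪ (P i ∩ P l)) := by
  obtain ⟨f, hf, hi, h1, h2⟩ := h.sector i
  rw [h.biUnion hij hil hjl] at h2
  have := (ext_handle G two_pos (k i)).transfer (isCompact_handle 2 (k i)) hf hi
    (isCompact_handle 2 (k i)).isClosed.frontier_subset
  rwa [h1, h2] at this

variable (G) in
theorem IsTrisection.A3 (h : IsTrisection g k P S) {i j l : Fin 3} (hij : i ≠ j) (hil : i ≠ l)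
    (hjl : j ≠ l) : Ext G ((P i ∩ P j) ∪ (P i ∩ P l)) (P i ∩ P j) := by
  apply Ext.glue ((h.isClosed i).inter (h.isClosed j)) ((h.isClosed i).inter (h.isClosed l))
  rw [h.triple hij hil hjl]
  exact h.A1 G hil

variable (G) in
theorem IsTrisection.A4 (h : IsTrisection g k P S) {i j l : Fin 3} (hij : i ≠ j) (hil : i ≠ l)
    (hjl : j ≠ l) : Ext G (P i) (P i ∩ P j) :=
  (h.A2 G hij hil hjl).trans (union_subset inter_subset_left inter_subset_left)
    (h.A3 G hij hil hjl) subset_union_left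

theorem IsTrisection.cover' (h : IsTrisection g k P S) {i j l : Fin 3} (hij : i ≠ j) (hil : i ≠ l)
    (hjl : j ≠ l) : (P i ∪ P j) ∪ P l = univ := by
  rw [← h.cover]
  ext x
  simp only [mem_iUnion, mem_union]
  constructor
  · rintro ((hx | hx) | hx)
    · exact ⟨i, hx⟩
    · exact ⟨j, hx⟩
    · exact ⟨l, hx⟩
  · rintro ⟨m, hm⟩
    have : m = i ∨ m = j ∨ m = l := fin3 i j l hij hil hjl m
    rcases this with rfl | rfl | rfl
    · exact Or.inl (Or.inl hm)
    · exact Or.inl (Or.inr hm)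
    · exact Or.inr hm

variable (G) in
theorem IsTrisection.A6 (h : IsTrisection g k P S) {i j l : Fin 3} (hij : i ≠ j) (hil : i ≠ l)
    (hjl : j ≠ l) : Ext G (univ : Set X) (P i) := by
  have e1 : Ext G (P i ∪ P j) (P i) := by
    apply Ext.glue (h.isClosed i) (h.isClosed j)
    rw [inter_comm]
    exact h.A4 G hij.symm hjl hil
  have e2 : Ext G ((P i ∪ P j) ∪ P l) (P i ∪ P j) := by
    apply Ext.glue ((h.isClosed i).union (h.isClosed j)) (h.isClosed l)
    rw [union_inter_distrib_right, inter_comm (P i), inter_comm (P j)]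
    exact h.A2 G hil.symm hjl.symm hij
  rw [h.cover' hij hil hjl] at e2
  exact e2.trans (subset_univ _) e1 subset_union_left

theorem IsTrisection.S_sub (h : IsTrisection g k P S) (i : Fin 3) : S ⊆ P i := by
  rw [← h.core]; exact iInter_subset _ _

theorem IsTrisection.S_nonempty (h : IsTrisection g k P S) : S.Nonempty := by
  obtain ⟨f, hf, hi, h1, h2⟩ := h.inter 0 1 (by decide)
  rw [← h2]
  refine Nonempty.image _ ?_
  have hfr : frontier (handle 1 g) = ladder g ×ˢ frontier (Icc (0 : Fin 1 → ℝ) 1) ∪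
      frontier (ladder g) ×ˢ Icc (0 : Fin 1 → ℝ) 1 := by
    rw [handle, frontier_prod_eq, (isClosed_ladder g).closure_eq, isClosed_Icc.closure_eq]
  rw [hfr]
  exact ⟨((0, 0), 0), Or.inr ⟨zero_mem_frontier_ladder g, by simp⟩⟩

variable (G) in
/-- parametrisation of the sectors -/
theorem IsTrisection.B1 (h : IsTrisection g k P S) {s0 : X} (hs : s0 ∈ S) (i : Fin 3) :
    ∃ R : (X → X → G) → (Fin (k i) → G) → Prop, ParamR (P i) s0 R := by
  obtain ⟨f, hf, hi, h1, h2⟩ := h.sector i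
  have hs' : s0 ∈ f '' handle 2 (k i) := by rw [h1]; exact h.S_sub i hs
  obtain ⟨w0, hw0, rfl⟩ := hs'
  obtain ⟨R, hR⟩ := param_handle G 2 (k i) hw0
  have := ParamR.transfer (isCompact_handle 2 (k i)) hf hi hw0 (R := R) hR
  rw [h1] at this
  exact ⟨_, this⟩

/-- extension of cocycles from `P i ∩ P j` to `P i` -/
theorem IsTrisection.sur (h : IsTrisection g k P S) [Finite G] {s0 : X} (hs : s0 ∈ S)
    {R : (X → X → G) → (Fin g → G) → Prop} {i j l : Fin 3} (hij : i ≠ j) (hil : i ≠ l)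
    (hjl : j ≠ l) (hR : ParamR (P i ∩ P j) s0 R) :
    (Nat.card G ^ k i ≤ Nat.card G ^ g) ∧
    (k i = g → ∀ c, CocOn (P i ∩ P j) c → ∃ c', CocOn (P i) c' ∧
      ∃ b : X → G, b s0 = 1 ∧ GauOn (P i ∩ P j) c' c b) := by
  classical
  obtain ⟨R', hR'⟩ := h.B1 G hs i
  obtain ⟨r1, r2, r3⟩ := hR
  obtain ⟨r1', r2', r3'⟩ := hR'
  choose c hc hct using r3'
  have hc' : ∀ t, CocOn (P i ∩ P j) (c t) := fun t => (hc t).mono inter_subset_left
  choose Ψ hΨ using fun t => r1 (c t) (hc' t)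
  have hinj : Function.Injective Ψ := by
    intro t t' htt
    rw [r2 _ _ _ _ (hΨ t) (hΨ t')] at htt
    obtain ⟨b, hb1, hb⟩ := htt
    obtain ⟨b', hb', hbb⟩ := h.A4 G hij hil hjl (c t) (c t') (hc t) (hc t') b hb
    rw [r2' _ _ _ _ (hct t) (hct t')]
    exact ⟨b', by rw [hbb s0 ⟨h.S_sub i hs, h.S_sub j hs⟩, hb1], hb'⟩
  have hcard := Nat.card_le_card_of_injective Ψ hinj
  simp only [Nat.card_fun, Nat.card_eq_fintype_card, Fintype.card_fin] at hcard
  constructor
  · simpa [Nat.card_fun] using hcard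
  · intro hk
    have hbij : Function.Bijective Ψ := by
      apply Function.Injective.bijective_of_nat_card_le hinj
      rw [Nat.card_fun, Nat.card_fun, hk]
    intro d hd
    obtain ⟨t, ht⟩ := r1 d hd
    obtain ⟨t', ht'⟩ := hbij.2 t
    refine ⟨c t', hc t', ?_⟩
    exact (r2 _ _ _ _ (hΨ t') ht).1 ht'

/-- every cocycle on `P 0 ∩ P 1` comes from `X` -/
theorem IsTrisection.global (h : IsTrisection g k P S) [Finite G] {s0 : X} (hs : s0 ∈ S)
    {i j l : Fin 3} (hij : i ≠ j) (hil : i ≠ l) (hjl : j ≠ l)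
    (s1 : ∀ c : X → X → G, CocOn (P i ∩ P j) c → ∃ c', CocOn (P i) c' ∧
      ∃ b : X → G, b s0 = 1 ∧ GauOn (P i ∩ P j) c' c b)
    (s2 : ∀ c : X → X → G, CocOn (P j ∩ P i) c → ∃ c', CocOn (P j) c' ∧
      ∃ b : X → G, b s0 = 1 ∧ GauOn (P j ∩ P i) c' c b)
    (s3 : ∀ c : X → X → G, CocOn (P l ∩ P i) c → ∃ c', CocOn (P l) c' ∧
      ∃ b : X → G, b s0 = 1 ∧ GauOn (P l ∩ P i) c' c b)
    {c : X → X → G} (hc : CocOn (P i ∩ P j) c) :
    ∃ d : X → X → G, Coc d ∧ ∃ b : X → G, b s0 = 1 ∧ GauOn (P i ∩ P j) d c b := by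
  obtain ⟨c1, hc1, b1, hb1, hcb1⟩ := s1 c hc
  obtain ⟨c2, hc2, b2, hb2, hcb2⟩ := s2 c (by rw [inter_comm]; exact hc)
  rw [inter_comm] at hcb2
  have e12 : GauOn (P i ∩ P j) c2 c1 _ := hcb2.trans hcb1.symm
  obtain ⟨d1, hd1, hd1', -⟩ := glue_coc (h.isClosed i) (h.isClosed j) hc1 hc2 e12
  have hsub : P l ∩ P i ⊆ P i ∪ P j := fun x hx => Or.inl hx.2
  obtain ⟨c3, hc3, b3, -, hcb3⟩ := s3 d1 (hd1.mono hsub)
  have hA3 := h.A3 G hil.symm hjl.symm hij
  obtain ⟨b4, hb4, -⟩ := hA3 c3 d1 (hc3.mono (union_subset inter_subset_left inter_subset_left))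
    (hd1.mono (union_subset hsub fun x hx => Or.inr hx.2)) b3 hcb3
  have e : (P i ∪ P j) ∩ P l = P l ∩ P i ∪ P l ∩ P j := by
    rw [union_inter_distrib_right, inter_comm (P i), inter_comm (P j)]
  obtain ⟨d, hd, hd', -⟩ := glue_coc ((h.isClosed i).union (h.isClosed j)) (h.isClosed l) hd1 hc3
    (b := b4) (by rw [e]; exact hb4)
  rw [h.cover' hij hil hjl] at hd
  refine ⟨d, ?_, ?_⟩
  · intro p
    have := hd p trivial
    simpa only [nhdsWithin_univ] using this
  · have f1 : GauOn (P i ∩ P j) d d1 _ :=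
      (hd'.mono (inter_subset_left.trans subset_union_left)).symm
    have f2 : GauOn (P i ∩ P j) d1 c1 _ := (hd1'.mono inter_subset_left).symm
    refine ⟨_, ?_, (f1.trans f2).trans hcb1⟩
    simp [hb1]

end tri

end Pool.Agent.H289R3.Tri
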