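import Pool.Agent.H289R3.Tri.Cover
import Pool.Agent.H289R3.Tri.Defs

set_option autoImplicit false
open Set Filter Topology

namespace Pool.Agent.H289R3.Tri

variable {G : Type*} [Group G]

section comb

variable {E : Type*} [NormedAddCommGroup E] [NormedSpace ℝ E] {ι : Type*}

theorem comb_aux {S : Set E} (hS : IsClosed S) (cS : Convex ℝ S) {B : ι → Set E}
    (hB : ∀ i, IsClosed (B i)) (cB : ∀ i, Convex ℝ (B i)) (hd : ∀ i j, i ≠ j → Disjoint (B i) (B j))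
    (hne : ∀ i, (S ∩ B i).Nonempty) (hSne : S.Nonempty) (s : Finset ι) :
    IsClosed (S ∪ ⋃ i ∈ s, B i) ∧ IsPathConnected (S ∪ ⋃ i ∈ s, B i) ∧
      Triv G (S ∪ ⋃ i ∈ s, B i) := by
  classical
  induction s using Finset.induction_on with
  | empty =>
    simp only [Finset.notMem_empty, iUnion_of_empty, iUnion_empty, union_empty]
    exact ⟨hS, cS.isPathConnected hSne, Triv.of_convex cS hSne⟩
  | insert a s ha ih =>
    obtain ⟨h1, h2, h3⟩ := ih
    have e : (S ∪ ⋃ i ∈ insert a s, B i) = (S ∪ ⋃ i ∈ s, B i) ∪ B a := by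
      rw [Finset.set_biUnion_insert, union_comm (B a), union_assoc]
    have e2 : (S ∪ ⋃ i ∈ s, B i) ∩ B a = S ∩ B a := by
      ext x
      simp only [mem_inter_iff, mem_union, mem_iUnion, exists_prop]
      constructor
      · rintro ⟨h | ⟨i, hi, hx⟩, hxa⟩
        · exact ⟨h, hxa⟩
        · exfalso
          exact (hd i a (fun h => ha (h ▸ hi))).le_bot ⟨hx, hxa⟩
      · rintro ⟨h, hxa⟩
        exact ⟨Or.inl h, hxa⟩
    rw [e]
    refine ⟨h1.union (hB a), ?_, ?_⟩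
    · apply h2.union ((cB a).isPathConnected ((hne a).mono inter_subset_right))
      rw [e2]; exact hne a
    · apply h3.union h1 (hB a) (Triv.of_convex (cB a) ((hne a).mono inter_subset_right))
      · rw [e2]; exact (cS.inter (cB a)).isPreconnected
      · rw [e2]; exact hne a

theorem comb [Fintype ι] {S : Set E} (hS : IsClosed S) (cS : Convex ℝ S) {B : ι → Set E}
    (hB : ∀ i, IsClosed (B i)) (cB : ∀ i, Convex ℝ (B i)) (hd : ∀ i j, i ≠ j → Disjoint (B i) (B j))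
    (hne : ∀ i, (S ∩ B i).Nonempty) (hSne : S.Nonempty) :
    IsClosed (S ∪ ⋃ i, B i) ∧ IsPathConnected (S ∪ ⋃ i, B i) ∧ Triv G (S ∪ ⋃ i, B i) := by
  have := comb_aux (G := G) hS cS hB cB hd hne hSne (Finset.univ : Finset ι)
  simpa using this

end comb

/-- lower half of the ladder -/
def lowC (k : ℕ) : Set (ℝ × ℝ) :=
  Icc (0 : ℝ) (2 * k + 1) ×ˢ Icc (0 : ℝ) 1 ∪
    ⋃ j : Fin (k + 1), Icc (2 * ((j : ℕ) : ℝ)) (2 * ((j : ℕ) : ℝ) + 1) ×ˢ Icc (0 : ℝ) (3 / 2)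

/-- upper half of the ladder -/
def upC (k : ℕ) : Set (ℝ × ℝ) :=
  Icc (0 : ℝ) (2 * k + 1) ×ˢ Icc (2 : ℝ) 3 ∪
    ⋃ j : Fin (k + 1), Icc (2 * ((j : ℕ) : ℝ)) (2 * ((j : ℕ) : ℝ) + 1) ×ˢ Icc (3 / 2 : ℝ) 3

/-- the rungs of the intersection -/
def rung (k : ℕ) (j : Fin (k + 1)) : Set (ℝ × ℝ) :=
  Icc (2 * ((j : ℕ) : ℝ)) (2 * ((j : ℕ) : ℝ) + 1) ×ˢ {(3 / 2 : ℝ)}

theorem ladder_eq (k : ℕ) : ladder k = lowC k ∪ upC k := by
  ext ⟨x, y⟩
  simp only [ladder, lowC, upC, mem_union, mem_prod, mem_Icc, mem_iUnion]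
  constructor
  · rintro ((h | h) | ⟨j, hj⟩)
    · exact Or.inl (Or.inl h)
    · exact Or.inr (Or.inl h)
    · rcases le_total y (3 / 2) with hy | hy
      · exact Or.inl (Or.inr ⟨j, hj.1, hj.2.1, hy⟩)
      · exact Or.inr (Or.inr ⟨j, hj.1, hy, hj.2.2⟩)
  · rintro ((h | ⟨j, hj⟩) | (h | ⟨j, hj⟩))
    · exact Or.inl (Or.inl h)
    · exact Or.inr ⟨j, hj.1, hj.2.1, by linarith [hj.2.2]⟩
    · exact Or.inl (Or.inr h)
    · exact Or.inr ⟨j, hj.1, by linarith [hj.2.1], hj.2.2⟩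

theorem bar_disj {k : ℕ} {i j : Fin (k + 1)} {x : ℝ}
    (hi : 2 * ((i : ℕ) : ℝ) ≤ x ∧ x ≤ 2 * ((i : ℕ) : ℝ) + 1)
    (hj : 2 * ((j : ℕ) : ℝ) ≤ x ∧ x ≤ 2 * ((j : ℕ) : ℝ) + 1) : i = j := by
  apply Fin.ext
  by_contra hne
  rcases lt_or_gt_of_ne hne with h | h
  · have : ((i : ℕ) : ℝ) + 1 ≤ (j : ℕ) := by exact_mod_cast h
    linarith [hi.2, hj.1]
  · have : ((j : ℕ) : ℝ) + 1 ≤ (i : ℕ) := by exact_mod_cast h
    linarith [hj.2, hi.1]

theorem low_inter_up (k : ℕ) : lowC k ∩ upC k = ⋃ j, rung k j := by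
  ext ⟨x, y⟩
  simp only [lowC, upC, rung, mem_inter_iff, mem_union, mem_prod, mem_Icc, mem_iUnion,
    mem_singleton_iff]
  constructor
  · rintro ⟨h | ⟨j, hj⟩, h' | ⟨i, hi⟩⟩
    · linarith [h.2.2, h'.2.1]
    · linarith [h.2.2, hi.2.1]
    · linarith [hj.2.2, h'.2.1]
    · exact ⟨j, hj.1, le_antisymm hj.2.2 hi.2.1⟩
  · rintro ⟨j, hj, rfl⟩
    exact ⟨Or.inr ⟨j, hj, by norm_num, by norm_num⟩, Or.inr ⟨j, hj, by norm_num, by norm_num⟩⟩

theorem cube_convex (m : ℕ) : Convex ℝ (Icc (0 : Fin m → ℝ) 1) := convex_Icc _ _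

theorem fin_le {k : ℕ} (j : Fin (k + 1)) : 2 * ((j : ℕ) : ℝ) + 1 ≤ 2 * k + 1 := by
  have : ((j : ℕ) : ℝ) ≤ k := by exact_mod_cast Nat.lt_succ_iff.1 j.2
  linarith

theorem low_prod (m k : ℕ) (K : Set (Fin m → ℝ)) : lowC k ×ˢ K =
    (Icc (0 : ℝ) (2 * k + 1) ×ˢ Icc (0 : ℝ) 1) ×ˢ K ∪
    ⋃ j : Fin (k + 1), (Icc (2 * ((j : ℕ) : ℝ)) (2 * ((j : ℕ) : ℝ) + 1) ×ˢ Icc (0 : ℝ) (3 / 2)) ×ˢ
      K := by
  rw [lowC, union_prod, iUnion_prod_const]

theorem up_prod (m k : ℕ) (K : Set (Fin m → ℝ)) : upC k ×ˢ K =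
    (Icc (0 : ℝ) (2 * k + 1) ×ˢ Icc (2 : ℝ) 3) ×ˢ K ∪
    ⋃ j : Fin (k + 1), (Icc (2 * ((j : ℕ) : ℝ)) (2 * ((j : ℕ) : ℝ) + 1) ×ˢ Icc (3 / 2 : ℝ) 3) ×ˢ
      K := by
  rw [upC, union_prod, iUnion_prod_const]

theorem low_facts (m k : ℕ) {K : Set (Fin m → ℝ)} (hK : IsClosed K) (cK : Convex ℝ K)
    (nK : K.Nonempty) :
    IsClosed (lowC k ×ˢ K) ∧ IsPathConnected (lowC k ×ˢ K) ∧ Triv G (lowC k ×ˢ K) := by
  obtain ⟨t, ht⟩ := nK
  rw [low_prod]
  apply comb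
  · exact (isClosed_Icc.prod isClosed_Icc).prod hK
  · exact ((convex_Icc _ _).prod (convex_Icc _ _)).prod cK
  · exact fun i => (isClosed_Icc.prod isClosed_Icc).prod hK
  · exact fun i => ((convex_Icc _ _).prod (convex_Icc _ _)).prod cK
  · intro i j hij
    rw [Set.disjoint_left]
    rintro ⟨⟨x, y⟩, s⟩ h1 h2
    simp only [mem_prod, mem_Icc] at h1 h2
    exact hij (bar_disj h1.1.1 h2.1.1)
  · intro i
    refine ⟨((2 * ((i : ℕ) : ℝ), 0), t), ?_, ?_⟩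
    · simp only [mem_prod, mem_Icc]
      have := fin_le i
      refine ⟨⟨⟨by positivity, by linarith⟩, by norm_num, by norm_num⟩, ht⟩
    · simp only [mem_prod, mem_Icc]
      exact ⟨⟨⟨le_refl _, by linarith⟩, by norm_num, by norm_num⟩, ht⟩
  · refine ⟨((0, 0), t), ?_⟩
    simp only [mem_prod, mem_Icc]
    exact ⟨⟨⟨le_refl _, by positivity⟩, by norm_num, by norm_num⟩, ht⟩

theorem up_facts (m k : ℕ) {K : Set (Fin m → ℝ)} (hK : IsClosed K) (cK : Convex ℝ K)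
    (nK : K.Nonempty) :
    IsClosed (upC k ×ˢ K) ∧ IsPathConnected (upC k ×ˢ K) ∧ Triv G (upC k ×ˢ K) := by
  obtain ⟨t, ht⟩ := nK
  rw [up_prod]
  apply comb
  · exact (isClosed_Icc.prod isClosed_Icc).prod hK
  · exact ((convex_Icc _ _).prod (convex_Icc _ _)).prod cK
  · exact fun i => (isClosed_Icc.prod isClosed_Icc).prod hK
  · exact fun i => ((convex_Icc _ _).prod (convex_Icc _ _)).prod cK
  · intro i j hij
    rw [Set.disjoint_left]
    rintro ⟨⟨x, y⟩, s⟩ h1 h2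
    simp only [mem_prod, mem_Icc] at h1 h2
    exact hij (bar_disj h1.1.1 h2.1.1)
  · intro i
    refine ⟨((2 * ((i : ℕ) : ℝ), 3), t), ?_, ?_⟩
    · simp only [mem_prod, mem_Icc]
      have := fin_le i
      refine ⟨⟨⟨by positivity, by linarith⟩, by norm_num, by norm_num⟩, ht⟩
    · simp only [mem_prod, mem_Icc]
      exact ⟨⟨⟨le_refl _, by linarith⟩, by norm_num, by norm_num⟩, ht⟩
  · refine ⟨((0, 3), t), ?_⟩
    simp only [mem_prod, mem_Icc]
    exact ⟨⟨⟨le_refl _, by positivity⟩, by norm_num, by norm_num⟩, ht⟩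

variable (G) in
theorem twoPiece (m k : ℕ) {K : Set (Fin m → ℝ)} (hK : IsClosed K) (cK : Convex ℝ K)
    (nK : K.Nonempty) :
    TwoPiece G (lowC k ×ˢ K) (upC k ×ˢ K) (fun j => rung k j ×ˢ K) where
  cU := (low_facts (G := G) m k hK cK nK).1
  cV := (up_facts (G := G) m k hK cK nK).1
  pU := (low_facts (G := G) m k hK cK nK).2.1.isConnected.isPreconnected
  pV := (up_facts (G := G) m k hK cK nK).2.1.isConnected.isPreconnected
  tU := (low_facts (G := G) m k hK cK nK).2.2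
  tV := (up_facts (G := G) m k hK cK nK).2.2
  cD := fun j => (isClosed_Icc.prod isClosed_singleton).prod hK
  pD := fun j => (((convex_Icc _ _).prod (convex_singleton _)).prod cK).isPreconnected
  neD := fun j => by
    obtain ⟨t, ht⟩ := nK
    refine ⟨((2 * ((j : ℕ) : ℝ), 3 / 2), t), ?_⟩
    simp only [rung, mem_prod, mem_Icc, mem_singleton_iff]
    exact ⟨⟨⟨le_refl _, by linarith⟩, trivial⟩, ht⟩
  disj := fun i j hij => by
    rw [Set.disjoint_left]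
    rintro ⟨⟨x, y⟩, s⟩ h1 h2
    simp only [rung, mem_prod, mem_Icc] at h1 h2
    exact hij (bar_disj h1.1.1 h2.1.1)
  inter := by
    rw [prod_inter_prod, low_inter_up, inter_self, iUnion_prod_const]

theorem cube_facts (m : ℕ) : IsClosed (Icc (0 : Fin m → ℝ) 1) ∧
    Convex ℝ (Icc (0 : Fin m → ℝ) 1) ∧ (Icc (0 : Fin m → ℝ) 1).Nonempty :=
  ⟨isClosed_Icc, convex_Icc _ _, ⟨0, by simp⟩⟩

variable (G) in
theorem twoPiece_handle (m k : ℕ) : TwoPiece G (lowC k ×ˢ Icc (0 : Fin m → ℝ) 1)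
    (upC k ×ˢ Icc (0 : Fin m → ℝ) 1) (fun j => rung k j ×ˢ Icc (0 : Fin m → ℝ) 1) :=
  twoPiece G m k (cube_facts m).1 (cube_facts m).2.1 (cube_facts m).2.2

theorem handle_eq (m k : ℕ) : handle m k =
    lowC k ×ˢ Icc (0 : Fin m → ℝ) 1 ∪ upC k ×ˢ Icc (0 : Fin m → ℝ) 1 := by
  rw [handle, ladder_eq, union_prod]

theorem isClosed_ladder (k : ℕ) : IsClosed (ladder k) := by
  rw [ladder]
  refine ((isClosed_Icc.prod isClosed_Icc).union (isClosed_Icc.prod isClosed_Icc)).union ?_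
  exact isClosed_iUnion_of_finite fun j => isClosed_Icc.prod isClosed_Icc

theorem isCompact_ladder (k : ℕ) : IsCompact (ladder k) := by
  rw [ladder]
  refine ((isCompact_Icc.prod isCompact_Icc).union (isCompact_Icc.prod isCompact_Icc)).union ?_
  exact isCompact_iUnion fun j => isCompact_Icc.prod isCompact_Icc

theorem isCompact_handle (m k : ℕ) : IsCompact (handle m k) :=
  (isCompact_ladder k).prod isCompact_Icc

theorem isPreconnected_handle (m k : ℕ) : IsPreconnected (handle m k) := by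
  have h := twoPiece_handle (Multiplicative (ZMod 1)) m k
  rw [handle_eq]
  obtain ⟨z, hz⟩ := h.neD 0
  exact h.pU.union z (h.subU 0 hz) (h.subV 0 hz) h.pV

variable (G) in
theorem param_handle (m k : ℕ) {w0 : (ℝ × ℝ) × (Fin m → ℝ)} (hw : w0 ∈ handle m k) :
    Param G (handle m k) w0 k := by
  rw [handle_eq] at hw ⊢
  exact (twoPiece_handle G m k).param' hw

theorem zero_mem_frontier_cube {m : ℕ} (hm : 0 < m) :
    (0 : Fin m → ℝ) ∈ frontier (Icc (0 : Fin m → ℝ) 1) := by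
  refine ⟨subset_closure (by simp), fun hint => ?_⟩
  have hcont : Continuous (fun r : ℝ => (fun _ : Fin m => r)) := by fun_prop
  have h1 : ∀ᶠ r : ℝ in 𝓝 0, (fun _ : Fin m => r) ∈ Icc (0 : Fin m → ℝ) 1 := by
    have : Tendsto (fun r : ℝ => (fun _ : Fin m => r)) (𝓝 0) (𝓝 (0 : Fin m → ℝ)) := by
      have := hcont.tendsto 0
      exact this
    exact this (mem_interior_iff_mem_nhds.1 hint)
  obtain ⟨ε, hε, hb⟩ := Metric.eventually_nhds_iff.1 h1
  have := hb (y := -(ε / 2)) (by rw [Real.dist_eq]; simp; rw [abs_of_pos (half_pos hε)]; linarith)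
  have h2 := this.1 ⟨0, hm⟩
  simp at h2
  linarith

theorem zero_mem_frontier_ladder (k : ℕ) : ((0, 0) : ℝ × ℝ) ∈ frontier (ladder k) := by
  have hmem : ((0, 0) : ℝ × ℝ) ∈ ladder k := by
    refine Or.inl (Or.inl ?_)
    simp only [mem_prod, mem_Icc]
    exact ⟨⟨le_refl _, by positivity⟩, by norm_num, by norm_num⟩
  refine ⟨subset_closure hmem, fun hint => ?_⟩
  have hcont : Continuous (fun r : ℝ => ((r, 0) : ℝ × ℝ)) := by fun_prop
  have h1 : ∀ᶠ r : ℝ in 𝓝 0, ((r, 0) : ℝ × ℝ) ∈ ladder k :=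
    hcont.tendsto 0 (mem_interior_iff_mem_nhds.1 hint)
  obtain ⟨ε, hε, hb⟩ := Metric.eventually_nhds_iff.1 h1
  have := hb (y := -(ε / 2)) (by rw [Real.dist_eq]; simp; rw [abs_of_pos (half_pos hε)]; linarith)
  have h2 : (0 : ℝ) ≤ -(ε / 2) := by
    rcases this with (h | h) | h
    · exact h.1.1
    · exact h.1.1
    · obtain ⟨j, hj⟩ := mem_iUnion.1 h
      exact le_trans (by positivity) hj.1.1
  linarith

theorem isPreconnected_ladder (k : ℕ) : IsPreconnected (ladder k) := by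
  have h := (isPreconnected_handle 0 k).image Prod.fst continuous_fst.continuousOn
  have e : Prod.fst '' (handle 0 k) = ladder k := by
    ext z
    constructor
    · rintro ⟨w, hw, rfl⟩; exact hw.1
    · intro hz; exact ⟨(z, 0), ⟨hz, by simp⟩, rfl⟩
  rwa [e] at h

variable (G) in
theorem ext_handle {m : ℕ} (hm : 0 < m) (k : ℕ) :
    Ext G (handle m k) (frontier (handle m k)) := by
  set K : Set (Fin m → ℝ) := Icc (0 : Fin m → ℝ) 1 with hKdef
  have h0K : (0 : Fin m → ℝ) ∈ K := by simp [hKdef]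
  have two := twoPiece_handle G m k
  have two0 := twoPiece G m k (K := {(0 : Fin m → ℝ)}) isClosed_singleton (convex_singleton _)
    ⟨0, rfl⟩
  set C : Set ((ℝ × ℝ) × (Fin m → ℝ)) := ladder k ×ˢ {(0 : Fin m → ℝ)} with hCdef
  have hsub : ({(0 : Fin m → ℝ)} : Set (Fin m → ℝ)) ⊆ K := by
    rintro x rfl; exact h0K
  have eC1 : C ∩ (lowC k ×ˢ K) = lowC k ×ˢ {(0 : Fin m → ℝ)} := by
    rw [hCdef, prod_inter_prod, ladder_eq, union_inter_cancel_left, inter_eq_left.2 hsub]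
  have eC2 : C ∩ (upC k ×ˢ K) = upC k ×ˢ {(0 : Fin m → ℝ)} := by
    rw [hCdef, prod_inter_prod, ladder_eq, union_inter_cancel_right, inter_eq_left.2 hsub]
  have E1 : Ext G (handle m k) C := by
    rw [handle_eq]
    obtain ⟨z, hz⟩ := two0.neD 0
    refine Ext.union two.cU two.cV ?_ ?_ ?_ ?_
    · rw [← handle_eq]
      exact prod_mono le_rfl hsub
    · rw [eC1]
      exact Ext.of_triv two.tU (prod_mono le_rfl hsub) two0.pU ⟨z, two0.subU 0 hz⟩
    · rw [eC2]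
      exact Ext.of_triv two.tV (prod_mono le_rfl hsub) two0.pV ⟨z, two0.subV 0 hz⟩
    · intro x hx
      rw [two.inter] at hx
      obtain ⟨j, hj⟩ := mem_iUnion.1 hx
      refine ⟨rung k j ×ˢ K, ?_, two.pD j, hj, ?_⟩
      · rw [two.inter]; exact subset_iUnion (fun j => rung k j ×ˢ K) j
      · obtain ⟨w, hw⟩ := two0.neD j
        refine ⟨w, prod_mono le_rfl hsub hw, ?_⟩
        rw [hCdef, ladder_eq]
        exact ⟨Or.inl (two0.subU j hw).1, hw.2⟩
  have hfr : frontier (handle m k) = ladder k ×ˢ frontier K ∪ frontier (ladder k) ×ˢ K := by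
    rw [handle, frontier_prod_eq, (isClosed_ladder k).closure_eq, isClosed_Icc.closure_eq]
  have hfl : frontier (ladder k) ⊆ ladder k := (isClosed_ladder k).frontier_subset
  have hfK : frontier K ⊆ K := IsClosed.frontier_subset isClosed_Icc
  have h0f : (0 : Fin m → ℝ) ∈ frontier K := zero_mem_frontier_cube hm
  apply E1.enlarge
  · rw [hfr]
    rintro ⟨z, t⟩ ⟨hz, ht⟩
    have ht' : t = 0 := ht
    subst ht'
    exact Or.inl ⟨hz, h0f⟩
  · exact (isCompact_handle m k).isClosed.frontier_subset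
  · intro x hx
    rw [hfr] at hx
    rcases hx with ⟨hz, ht⟩ | ⟨hz, ht⟩
    · refine ⟨ladder k ×ˢ {x.2} ∪ {((0, 0) : ℝ × ℝ)} ×ˢ K, ?_, ?_, Or.inl ⟨hz, rfl⟩, ?_⟩
      · rw [hfr]
        rintro w (⟨h1, h2⟩ | ⟨h1, h2⟩)
        · have h2' : w.2 = x.2 := h2
          exact Or.inl ⟨h1, by rw [h2']; exact ht⟩
        · have h1' : w.1 = (0, 0) := h1
          exact Or.inr ⟨by rw [h1']; exact zero_mem_frontier_ladder k, h2⟩
      · refine IsPreconnected.union (((0, 0) : ℝ × ℝ), x.2)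
          ⟨hfl (zero_mem_frontier_ladder k), rfl⟩ ⟨rfl, hfK ht⟩ ?_ ?_
        · exact (isPreconnected_ladder k).prod isPreconnected_singleton
        · exact isPreconnected_singleton.prod (cube_convex m).isPreconnected
      · exact ⟨((0, 0), 0), Or.inr ⟨rfl, h0K⟩, ⟨hfl (zero_mem_frontier_ladder k), rfl⟩⟩
    · refine ⟨{x.1} ×ˢ K, ?_, ?_, ⟨rfl, ht⟩, ?_⟩
      · rw [hfr]
        rintro w ⟨h1, h2⟩
        have h1' : w.1 = x.1 := h1
        exact Or.inr ⟨by rw [h1']; exact hz, h2⟩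
      · exact isPreconnected_singleton.prod (cube_convex m).isPreconnected
      · exact ⟨(x.1, 0), ⟨rfl, h0K⟩, ⟨hfl hz, rfl⟩⟩

end Pool.Agent.H289R3.Tri
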