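import Pool.Agent.H289R3.Tri.Main

set_option autoImplicit false
set_option linter.unusedSectionVars false
set_option linter.unusedVariables false
open Set Filter Topology unitInterval

namespace Pool.Agent.H289R3.Tri

variable {G : Type*} [Group G] {X : Type*} [TopologicalSpace X] {E : Type*} [TopologicalSpace E]

theorem hol_path {g : X → X → G} {f : E → X} {U : Set E} (hf : ContinuousOn f U) {c : E → G}
    (hc : TrivBy U (fun x y => g (f x) (f y)) c) {x y : E} (h : JoinedIn U x y) :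
    ∃ l : Path (f x) (f y), IsHol g l ((c x)⁻¹ * c y) := by
  obtain ⟨γ, hγ⟩ := h
  refine ⟨{ toFun := fun t => f (γ t)
            continuous_toFun := hf.comp_continuous γ.continuous hγ
            source' := by simp
            target' := by simp }, fun t => c (γ t), ?_, by simp⟩
  intro s
  have h1 : Tendsto γ (𝓝 s) (𝓝[U] (γ s)) :=
    tendsto_nhdsWithin_iff.2 ⟨γ.continuous.tendsto s, Eventually.of_forall hγ⟩
  exact h1.eventually (hc (γ s) (hγ s))

theorem rel_loop {g : X → X → G} (hg : Coc g) {f : E → X} {k : ℕ} {U V : Set E}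
    {D : Fin (k + 1) → Set E} (h : TwoPiece G U V D) (pU : IsPathConnected U)
    (pV : IsPathConnected V) (hf : ContinuousOn f (U ∪ V)) {w0 : E} (hw : w0 ∈ U) {t : Fin k → G}
    (r : Rel U V D w0 (fun x y => g (f x) (f y)) t) (j : Fin k) :
    ∃ l : Path (f w0) (f w0), IsHol g l (t j) := by
  obtain ⟨c, d, hc, hd, hc1, h0, hj⟩ := r
  obtain ⟨x0, hx0⟩ := h.neD 0
  obtain ⟨x1, hx1⟩ := h.neD j.succ
  obtain ⟨l1, hl1⟩ := hol_path (hf.mono subset_union_left) hc (pU.joinedIn w0 hw x1 (h.subU _ hx1))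
  obtain ⟨l2, hl2⟩ := hol_path (hf.mono subset_union_right) hd
    (pV.joinedIn x1 (h.subV _ hx1) x0 (h.subV _ hx0))
  obtain ⟨l3, hl3⟩ := hol_path (hf.mono subset_union_left) hc (pU.joinedIn x0 (h.subU _ hx0) w0 hw)
  refine ⟨(l1.trans l2).trans l3, ?_⟩
  have := (hl1.trans hg hl2).trans hg hl3
  rw [hc1, h0 x0 hx0, hj j x1 hx1] at this
  have e : (1 : G)⁻¹ * (t j * d x1) * ((d x1)⁻¹ * d x0) * ((d x0)⁻¹ * 1) = t j := by group
  rw [e] at this
  exact this

variable [T2Space X]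

variable (G) in
theorem IsTrisection.B2 {g : ℕ} {k : Fin 3 → ℕ} {P : Fin 3 → Set X} {S : Set X}
    (h : IsTrisection g k P S) {s0 : X} (hs : s0 ∈ S) {i j : Fin 3} (hij : i ≠ j) :
    ∃ R : (X → X → G) → (Fin g → G) → Prop, ParamR (P i ∩ P j) s0 R ∧
      ∀ c t, Coc c → R c t → ∀ j, ∃ l : Path s0 s0, IsHol c l (t j) := by
  obtain ⟨f, hf, hi, h1, h2⟩ := h.inter i j hij
  have hs' : s0 ∈ f '' handle 1 g := by rw [h1]; exact ⟨h.S_sub i hs, h.S_sub j hs⟩
  obtain ⟨w0, hw0, rfl⟩ := hs'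
  have two := twoPiece_handle G 1 g
  have pU := (low_facts (G := G) 1 g (cube_facts 1).1 (cube_facts 1).2.1 (cube_facts 1).2.2).2.1
  have pV := (up_facts (G := G) 1 g (cube_facts 1).1 (cube_facts 1).2.1 (cube_facts 1).2.2).2.1
  have hw := hw0
  rw [handle_eq] at hw
  rcases hw with hw | hw
  · have hp : ParamR (handle 1 g) w0 (Rel (lowC g ×ˢ Icc (0 : Fin 1 → ℝ) 1)
        (upC g ×ˢ Icc (0 : Fin 1 → ℝ) 1) (fun j => rung g j ×ˢ Icc (0 : Fin 1 → ℝ) 1) w0
        (G := G)) := by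
      rw [handle_eq]
      exact ⟨fun _ hg => two.exists_rel w0 hg, fun _ _ _ _ r r' => two.rel_iff hw r r',
        fun t => two.rel_surj w0 t⟩
    have := ParamR.transfer (isCompact_handle 1 g) hf hi hw0 hp
    rw [h1] at this
    refine ⟨_, this, ?_⟩
    intro c t hc hr j
    refine rel_loop hc two pU pV ?_ hw hr j
    rw [← handle_eq]; exact hf
  · have hp : ParamR (handle 1 g) w0 (Rel (upC g ×ˢ Icc (0 : Fin 1 → ℝ) 1)
        (lowC g ×ˢ Icc (0 : Fin 1 → ℝ) 1) (fun j => rung g j ×ˢ Icc (0 : Fin 1 → ℝ) 1) w0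
        (G := G)) := by
      rw [handle_eq, union_comm]
      exact ⟨fun _ hg => two.symm.exists_rel w0 hg, fun _ _ _ _ r r' => two.symm.rel_iff hw r r',
        fun t => two.symm.rel_surj w0 t⟩
    have := ParamR.transfer (isCompact_handle 1 g) hf hi hw0 hp
    rw [h1] at this
    refine ⟨_, this, ?_⟩
    intro c t hc hr j
    refine rel_loop hc two.symm pV pU ?_ hw hr j
    rw [union_comm, ← handle_eq]; exact hf

theorem no_trisection
    (hab : ∀ (x : X) (l l' : Path x x), (l.trans l').Homotopic (l'.trans l))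
    (hfam : ∀ s0 : X, ∃ c : Fin 3 → X → X → Multiplicative (ZMod 2), (∀ i, Coc (c i)) ∧
      ∀ i j, i ≠ j → ¬ ∃ b : X → Multiplicative (ZMod 2), b s0 = 1 ∧ GauOn univ (c i) (c j) b)
    (S : Set X) : ¬ ∃ (k : Fin 3 → ℕ) (P : Fin 3 → Set X), IsTrisection 2 k P S := by
  rintro ⟨k, P, h⟩
  obtain ⟨s0, hs⟩ := h.S_nonempty
  -- lower bound for `k i`
  have hlow : ∀ i j l : Fin 3, i ≠ j → i ≠ l → j ≠ l → 2 ≤ k i := by
    intro i j l hij hil hjl
    obtain ⟨R, r1, r2, -⟩ := h.B1 (Multiplicative (ZMod 2)) hs i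
    obtain ⟨c, hc, hcn⟩ := hfam s0
    have hcu : ∀ a, CocOn (univ : Set X) (c a) := by
      intro a p _
      simpa only [nhdsWithin_univ] using hc a p
    choose τ hτ using fun a => r1 (c a) ((hcu a).mono (subset_univ _))
    have hinj : Function.Injective τ := by
      intro a a' haa
      by_contra hne
      rw [r2 _ _ _ _ (hτ a) (hτ a')] at haa
      obtain ⟨b, hb1, hb⟩ := haa
      obtain ⟨b', hb', hbb⟩ := h.A6 (Multiplicative (ZMod 2)) hij hil hjl (c a) (c a') (hcu a)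
        (hcu a') b hb
      exact hcn a a' hne ⟨b', by rw [hbb s0 (h.S_sub i hs), hb1], hb'⟩
    have hcard := Nat.card_le_card_of_injective τ hinj
    have e1 : Nat.card (Fin 3) = 3 := by simp
    have e2 : Nat.card (Fin (k i) → Multiplicative (ZMod 2)) = 2 ^ k i := by
      rw [Nat.card_fun]
      have : Nat.card (Multiplicative (ZMod 2)) = 2 := by
        rw [Nat.card_congr Multiplicative.toAdd]; simp
      rw [this]; simp
    rw [e1, e2] at hcard
    by_contra hlt
    have : k i = 0 ∨ k i = 1 := by omega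
    rcases this with h0 | h0 <;> rw [h0] at hcard <;> norm_num at hcard
  have key : ∀ i j l : Fin 3, i ≠ j → i ≠ l → j ≠ l →
      ∀ c : X → X → Equiv.Perm (Fin 3), CocOn (P i ∩ P j) c → ∃ c', CocOn (P i) c' ∧
      ∃ b : X → Equiv.Perm (Fin 3), b s0 = 1 ∧ GauOn (P i ∩ P j) c' c b := by
    intro i j l hij hil hjl
    obtain ⟨R, hR, -⟩ := h.B2 (Equiv.Perm (Fin 3)) hs hij
    obtain ⟨h1, h2⟩ := h.sur hs hij hil hjl hR
    apply h2
    apply le_antisymm _ (hlow i j l hij hil hjl)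
    have e : Nat.card (Equiv.Perm (Fin 3)) = 6 := by
      rw [Nat.card_eq_fintype_card, Fintype.card_perm]; rfl
    rw [e] at h1
    exact (Nat.pow_le_pow_iff_right (by norm_num)).1 h1
  obtain ⟨R, ⟨r1, r2, r3⟩, hloop⟩ := h.B2 (Equiv.Perm (Fin 3)) hs (i := 0) (j := 1) (by decide)
  obtain ⟨c, hc, hct⟩ := r3 ![Equiv.swap 0 1, Equiv.swap 1 2]
  obtain ⟨d, hd, b, hb1, hb⟩ := h.global hs (i := 0) (j := 1) (l := 2) (by decide) (by decide)
    (by decide) (key 0 1 2 (by decide) (by decide) (by decide))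
    (key 1 0 2 (by decide) (by decide) (by decide))
    (key 2 0 1 (by decide) (by decide) (by decide)) hc
  have hdu : CocOn (P 0 ∩ P 1) d := by
    have : CocOn (univ : Set X) d := by
      intro p _
      simpa only [nhdsWithin_univ] using hd p
    exact this.mono (subset_univ _)
  obtain ⟨t, ht⟩ := r1 d hdu
  have htt : t = ![Equiv.swap 0 1, Equiv.swap 1 2] := (r2 _ _ _ _ ht hct).2 ⟨b, hb1, hb⟩
  rw [htt] at ht
  obtain ⟨l0, hl0⟩ := hloop d _ hd ht 0
  obtain ⟨l1, hl1⟩ := hloop d _ hd ht 1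
  have hcomm := IsHol.homotopic hd (hab s0 l0 l1) (hl0.trans hd hl1) (hl1.trans hd hl0)
  simp only [Matrix.cons_val_zero, Matrix.cons_val_one] at hcomm
  revert hcomm
  decide

end Pool.Agent.H289R3.Tri
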