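import Pool.Agent.H289R3.Tri.Germ

set_option autoImplicit false
open Set Filter Topology

namespace Pool.Agent.H289R3.Tri

variable {X : Type*} [TopologicalSpace X] {G : Type*} [Group G]

/-- the invariants of a cocycle on a union of two pieces meeting in `D 0, ..., D k` -/
def Rel {k : ℕ} (U V : Set X) (D : Fin (k + 1) → Set X) (w0 : X) (g : X → X → G)
    (t : Fin k → G) : Prop :=
  ∃ c d : X → G, TrivBy U g c ∧ TrivBy V g d ∧ c w0 = 1 ∧ (∀ x ∈ D 0, c x = d x) ∧
    ∀ j : Fin k, ∀ x ∈ D j.succ, c x = t j * d x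

structure TwoPiece (G : Type*) [Group G] {k : ℕ} (U V : Set X) (D : Fin (k + 1) → Set X) :
    Prop where
  cU : IsClosed U
  cV : IsClosed V
  pU : IsPreconnected U
  pV : IsPreconnected V
  tU : Triv G U
  tV : Triv G V
  cD : ∀ j, IsClosed (D j)
  pD : ∀ j, IsPreconnected (D j)
  neD : ∀ j, (D j).Nonempty
  disj : ∀ i j, i ≠ j → Disjoint (D i) (D j)
  inter : U ∩ V = ⋃ j, D j

variable {k : ℕ} {U V : Set X} {D : Fin (k + 1) → Set X}

theorem TwoPiece.subU (h : TwoPiece G U V D) (j : Fin (k + 1)) : D j ⊆ U := fun _ hx =>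
  (h.inter.ge (mem_iUnion.2 ⟨j, hx⟩)).1

theorem TwoPiece.subV (h : TwoPiece G U V D) (j : Fin (k + 1)) : D j ⊆ V := fun _ hx =>
  (h.inter.ge (mem_iUnion.2 ⟨j, hx⟩)).2

theorem TwoPiece.exists_rel (h : TwoPiece G U V D) (w0 : X) {g : X → X → G}
    (hg : CocOn (U ∪ V) g) : ∃ t : Fin k → G, Rel U V D w0 g t := by
  obtain ⟨c, hc⟩ := h.tU g (hg.mono subset_union_left)
  obtain ⟨d, hd⟩ := h.tV g (hg.mono subset_union_right)
  choose z hz using h.neD
  have hc' := hc.const_mul (c w0)⁻¹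
  have hd' := hd.const_mul ((c w0)⁻¹ * c (z 0) * (d (z 0))⁻¹)
  refine ⟨fun j => ((c w0)⁻¹ * c (z j.succ)) * ((c w0)⁻¹ * c (z 0) * (d (z 0))⁻¹ * d (z j.succ))⁻¹,
    _, _, hc', hd', by simp, ?_, ?_⟩
  · intro x hx
    have := TrivBy.uniq (h.pD 0) (hd'.mono (h.subV 0)) (hc'.mono (h.subU 0)) hx (hz 0)
    have e : (c w0)⁻¹ * c (z 0) * ((c w0)⁻¹ * c (z 0) * (d (z 0))⁻¹ * d (z 0))⁻¹ = 1 := by group
    rw [e] at this
    exact (mul_inv_eq_one.1 this)
  · intro j x hx
    have := TrivBy.uniq (h.pD j.succ) (hd'.mono (h.subV _)) (hc'.mono (h.subU _)) hx (hz j.succ)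
    show (c w0)⁻¹ * c x = (c w0)⁻¹ * c (z j.succ) *
      ((c w0)⁻¹ * c (z 0) * (d (z 0))⁻¹ * d (z j.succ))⁻¹ * ((c w0)⁻¹ * c (z 0) * (d (z 0))⁻¹ * d x)
    rw [← this]; group

theorem TwoPiece.rel_iff (h : TwoPiece G U V D) {w0 : X} (hw : w0 ∈ U) {g g' : X → X → G}
    {t t' : Fin k → G} (r : Rel U V D w0 g t) (r' : Rel U V D w0 g' t') :
    t = t' ↔ ∃ b : X → G, b w0 = 1 ∧ GauOn (U ∪ V) g g' b := by
  classical
  obtain ⟨c, d, hc, hd, hc1, hcd0, hcd⟩ := r
  obtain ⟨c', d', hc', hd', hc1', hcd0', hcd'⟩ := r'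
  constructor
  · rintro rfl
    have g1 : GauOn U g g' (fun x => (c x)⁻¹ * 1 * c' x) := hc.gauOn hc' 1
    have g2 : GauOn V g g' (fun x => (d x)⁻¹ * 1 * d' x) := hd.gauOn hd' 1
    refine ⟨fun x => if x ∈ U then (c x)⁻¹ * 1 * c' x else (d x)⁻¹ * 1 * d' x, ?_, ?_⟩
    · simp [hw, hc1, hc1']
    · apply GauOn.union h.cU h.cV
      · exact g1.congr_b fun x hx => by simp [hx]
      · apply g2.congr_b
        intro x hx
        by_cases hxU : x ∈ U
        · have hxD : x ∈ ⋃ j, D j := h.inter.le ⟨hxU, hx⟩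
          obtain ⟨j, hj⟩ := mem_iUnion.1 hxD
          refine Fin.cases ?_ ?_ j hj
          · intro hj
            simp [hxU, hcd0 x hj, hcd0' x hj]
          · intro i hj
            simp [hxU, hcd i x hj, hcd' i x hj]
        · simp [hxU]
  · rintro ⟨b, hb1, hb⟩
    have k1 : TrivBy U g' (fun x => c x * b x) := hc.gau (hb.mono subset_union_left)
    have k2 : TrivBy V g' (fun x => d x * b x) := hd.gau (hb.mono subset_union_right)
    have e1 : ∀ x ∈ U, c' x = c x * b x := by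
      intro x hx
      have := TrivBy.uniq h.pU k1 hc' hx hw
      simp only [hc1', hc1, hb1, mul_one, inv_one] at this
      exact mul_inv_eq_one.1 this
    obtain ⟨z0, hz0⟩ := h.neD 0
    have e2 : ∀ x ∈ V, d' x = d x * b x := by
      intro x hx
      have := TrivBy.uniq h.pV k2 hd' hx (h.subV 0 hz0)
      rw [← hcd0' z0 hz0, e1 z0 (h.subU 0 hz0), hcd0 z0 hz0, mul_inv_cancel] at this
      exact mul_inv_eq_one.1 this
    funext j
    obtain ⟨z, hz⟩ := h.neD j.succ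
    have f1 := hcd j z hz
    have f2 := hcd' j z hz
    rw [e1 z (h.subU _ hz), e2 z (h.subV _ hz), f1] at f2
    have : t j * (d z * b z) = t' j * (d z * b z) := by rw [← f2]; group
    exact mul_right_cancel this

theorem TwoPiece.rel_surj (h : TwoPiece G U V D) (w0 : X) (t : Fin k → G) :
    ∃ g : X → X → G, CocOn (U ∪ V) g ∧ Rel U V D w0 g t := by
  classical
  let s : Fin (k + 1) → G := Fin.cons 1 (fun j => (t j)⁻¹)
  let d : X → G := fun x => if hx : ∃ j, x ∈ D j then s hx.choose else 1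
  have hd : ∀ j, ∀ x ∈ D j, d x = s j := by
    intro j x hx
    have hx' : ∃ j, x ∈ D j := ⟨j, hx⟩
    simp only [d, dif_pos hx']
    by_cases hj : hx'.choose = j
    · rw [hj]
    · exact ((h.disj _ _ hj).le_bot ⟨hx'.choose_spec, hx⟩).elim
  let g : X → X → G := fun p x => if p ∈ U ∧ x ∈ U then 1 else (d p)⁻¹ * d x
  have tU : TrivBy U g (fun _ => 1) := by
    intro p hp
    filter_upwards [self_mem_nhdsWithin] with x hx
    simp [g, hp, hx]
  have tV : TrivBy V g d := by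
    intro p hp
    by_cases hpU : p ∈ U
    · obtain ⟨j, hj⟩ := mem_iUnion.1 (h.inter.le ⟨hpU, hp⟩)
      have hcl : IsClosed (⋃ i ∈ ({j}ᶜ : Set (Fin (k + 1))), D i) :=
        (Set.toFinite _).isClosed_biUnion fun i _ => h.cD i
      have hpn : p ∉ ⋃ i ∈ ({j}ᶜ : Set (Fin (k + 1))), D i := by
        intro hmem
        simp only [mem_iUnion, mem_compl_iff, mem_singleton_iff] at hmem
        obtain ⟨i, hi, hpi⟩ := hmem
        exact (h.disj _ _ hi).le_bot ⟨hpi, hj⟩
      have ev : ∀ᶠ x in 𝓝[V] p, x ∉ ⋃ i ∈ ({j}ᶜ : Set (Fin (k + 1))), D i :=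
        (show ∀ᶠ x in 𝓝 p, x ∉ ⋃ i ∈ ({j}ᶜ : Set (Fin (k + 1))), D i from
          hcl.isOpen_compl.mem_nhds hpn).filter_mono nhdsWithin_le_nhds
      filter_upwards [self_mem_nhdsWithin, ev] with x hx hx2
      by_cases hxU : x ∈ U
      · obtain ⟨i, hi⟩ := mem_iUnion.1 (h.inter.le ⟨hxU, hx⟩)
        have hij : i = j := by
          by_contra hne
          exact hx2 (mem_biUnion (x := i) hne hi)
        subst hij
        simp [g, hpU, hxU, hd i x hi, hd i p hj]
      · simp [g, hxU]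
    · exact Eventually.of_forall fun x => by simp [g, hpU]
  have coc1 : CocOn U g := by
    refine (CocOn.of_triv (U := U) (fun _ => (1 : G))).congr ?_
    intro p hp
    filter_upwards [tU p hp] with x hx
    rw [hx]
  have coc2 : CocOn V g := by
    refine (CocOn.of_triv (U := V) d).congr ?_
    intro p hp
    filter_upwards [tV p hp] with x hx
    rw [hx]
  refine ⟨g, coc1.union h.cU h.cV coc2, fun _ => 1, d, tU, tV, rfl, ?_, ?_⟩
  · intro x hx
    rw [hd 0 x hx]; simp [s]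
  · intro j x hx
    rw [hd _ x hx]; simp [s]

variable (G) in
/-- cocycles on `A`, up to isomorphism fixing the frame at `w0`, are parametrised by `Fin k → G` -/
def Param (A : Set X) (w0 : X) (k : ℕ) : Prop :=
  ∃ R : (X → X → G) → (Fin k → G) → Prop,
    (∀ g, CocOn A g → ∃ t, R g t) ∧
    (∀ g g' t t', R g t → R g' t' → (t = t' ↔ ∃ b : X → G, b w0 = 1 ∧ GauOn A g g' b)) ∧
    ∀ t, ∃ g, CocOn A g ∧ R g t

theorem TwoPiece.param (h : TwoPiece G U V D) {w0 : X} (hw : w0 ∈ U) :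
    Param G (U ∪ V) w0 k :=
  ⟨Rel U V D w0, fun _ hg => h.exists_rel w0 hg, fun _ _ _ _ r r' => h.rel_iff hw r r',
    fun t => h.rel_surj w0 t⟩

theorem TwoPiece.symm (h : TwoPiece G U V D) : TwoPiece G V U D :=
  ⟨h.cV, h.cU, h.pV, h.pU, h.tV, h.tU, h.cD, h.pD, h.neD, h.disj, by rw [inter_comm]; exact h.inter⟩

theorem TwoPiece.param' (h : TwoPiece G U V D) {w0 : X} (hw : w0 ∈ U ∪ V) :
    Param G (U ∪ V) w0 k := by
  rcases hw with hw | hw
  · exact h.param hw
  · rw [union_comm]; exact h.symm.param hw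

end Pool.Agent.H289R3.Tri
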