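import Pool.Agent.H289R3.Tri.Smooth

set_option autoImplicit false
set_option linter.unusedSectionVars false
set_option linter.unusedVariables false
open Set Filter Topology unitInterval Metric Module
open scoped Manifold ContDiff

namespace Pool.Agent.H289R3.Tri

theorem q2 (x y : ℝ) : qpoly 2 x y =
    (144 - x ^ 2 - y ^ 2) * (((x - 4) ^ 2 + y ^ 2 - 1) * ((x - 8) ^ 2 + y ^ 2 - 1)) := by
  simp only [qpoly, Finset.prod_range_succ, Finset.prod_range_zero]
  push_cast
  ring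

theorem q2_signs {x y : ℝ} (h : 0 ≤ qpoly 2 x y) :
    0 ≤ 144 - x ^ 2 - y ^ 2 ∧ 0 ≤ (x - 4) ^ 2 + y ^ 2 - 1 ∧ 0 ≤ (x - 8) ^ 2 + y ^ 2 - 1 := by
  rw [q2] at h
  have hB : 144 - x ^ 2 - y ^ 2 < 0 → 0 < (x - 4) ^ 2 + y ^ 2 - 1 := by
    intro hA
    by_contra hcon
    push Not at hcon
    have h1 : (x - 4) ^ 2 ≤ 1 := by nlinarith [sq_nonneg y]
    have h2 : x ≤ 5 := by nlinarith
    have h3 : 3 ≤ x := by nlinarith
    nlinarith [sq_nonneg (x - 4)]
  have hC : 144 - x ^ 2 - y ^ 2 < 0 → 0 < (x - 8) ^ 2 + y ^ 2 - 1 := by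
    intro hA
    by_contra hcon
    push Not at hcon
    have h1 : (x - 8) ^ 2 ≤ 1 := by nlinarith [sq_nonneg y]
    have h2 : x ≤ 9 := by nlinarith
    have h3 : 7 ≤ x := by nlinarith
    nlinarith [sq_nonneg (x - 8)]
  have hA0 : 0 ≤ 144 - x ^ 2 - y ^ 2 := by
    by_contra hcon
    push Not at hcon
    have := mul_pos (hB hcon) (hC hcon)
    nlinarith
  refine ⟨hA0, ?_, ?_⟩
  · by_contra hcon
    push Not at hcon
    have h1 : (x - 4) ^ 2 ≤ 1 := by nlinarith [sq_nonneg y]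
    have h2 : x ≤ 5 := by nlinarith
    have h3 : 3 ≤ x := by nlinarith
    have h4 : y ^ 2 ≤ 1 := by nlinarith [sq_nonneg (x - 4)]
    have hC' : 0 < (x - 8) ^ 2 + y ^ 2 - 1 := by nlinarith [sq_nonneg y]
    have hA' : 0 < 144 - x ^ 2 - y ^ 2 := by nlinarith
    have := mul_pos hA' hC'
    nlinarith
  · by_contra hcon
    push Not at hcon
    have h1 : (x - 8) ^ 2 ≤ 1 := by nlinarith [sq_nonneg y]
    have h2 : x ≤ 9 := by nlinarith
    have h3 : 7 ≤ x := by nlinarith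
    have h4 : y ^ 2 ≤ 1 := by nlinarith [sq_nonneg (x - 8)]
    have hC' : 0 < (x - 4) ^ 2 + y ^ 2 - 1 := by nlinarith [sq_nonneg y]
    have hA' : 0 < 144 - x ^ 2 - y ^ 2 := by nlinarith
    have := mul_pos hA' hC'
    nlinarith

/-- surface points -/
noncomputable def mk3 (x y z : ℝ) : E3 := !₂[x, y, z]

theorem mk3_mem {x y z : ℝ} : mk3 x y z ∈ smoothSurface 2 ↔ z ^ 2 = qpoly 2 x y := by
  simp [mk3, smoothSurface]

theorem mk3_eta (v : E3) : mk3 (v 0) (v 1) (v 2) = v := by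
  ext i; fin_cases i <;> rfl

theorem mk3_continuous {T : Type*} [TopologicalSpace T] {a b c : T → ℝ} (ha : Continuous a)
    (hb : Continuous b) (hc : Continuous c) : Continuous (fun t => mk3 (a t) (b t) (c t)) := by
  unfold mk3
  fun_prop

/-- the outer circle is path connected -/
theorem outer_joined {x y : ℝ} (h : x ^ 2 + y ^ 2 = 144) :
    JoinedIn (smoothSurface 2) (mk3 x y 0) (mk3 12 0 0) := by
  have hpc : IsPathConnected ((fun θ : ℝ => mk3 (12 * Real.cos θ) (12 * Real.sin θ) 0) '' univ) :=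
    isPathConnected_univ.image (mk3_continuous (by fun_prop) (by fun_prop) (by fun_prop))
  have hsub : (fun θ : ℝ => mk3 (12 * Real.cos θ) (12 * Real.sin θ) 0) '' univ ⊆
      smoothSurface 2 := by
    rintro _ ⟨θ, -, rfl⟩
    simp only [mk3_mem, q2]
    have : (144 - (12 * Real.cos θ) ^ 2 - (12 * Real.sin θ) ^ 2) = 0 := by
      nlinarith [Real.sin_sq_add_cos_sq θ]
    rw [this]; ring
  have h1 : mk3 x y 0 ∈ (fun θ : ℝ => mk3 (12 * Real.cos θ) (12 * Real.sin θ) 0) '' univ := by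
    have hn : ‖(⟨x, y⟩ : ℂ)‖ = 12 := by
      rw [Complex.norm_def, Complex.normSq_mk, ← sq, ← sq, h]
      rw [show (144 : ℝ) = 12 ^ 2 by norm_num]
      exact Real.sqrt_sq (by norm_num)
    refine ⟨Complex.arg ⟨x, y⟩, trivial, ?_⟩
    have e1 := Complex.norm_mul_cos_arg ⟨x, y⟩
    have e2 := Complex.norm_mul_sin_arg ⟨x, y⟩
    rw [hn] at e1 e2
    simp only at e1 e2 ⊢
    rw [e1, e2]
  have h2 : mk3 12 0 0 ∈ (fun θ : ℝ => mk3 (12 * Real.cos θ) (12 * Real.sin θ) 0) '' univ :=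
    ⟨0, trivial, by simp⟩
  exact (hpc.joinedIn _ h1 _ h2).mono hsub

theorem vert_joined {x y e s : ℝ} (hq : 0 ≤ qpoly 2 x y) (he : x ^ 2 + e ^ 2 = 144)
    (hye : 0 ≤ y * e) :
    JoinedIn (smoothSurface 2) (mk3 x y (s * Real.sqrt (qpoly 2 x y))) (mk3 x e 0) ∨ s ^ 2 ≠ 1 := by
  by_cases hs : s ^ 2 = 1
  swap
  · exact Or.inr hs
  left
  obtain ⟨hA, hB, hC⟩ := q2_signs hq
  have hy2 : y ^ 2 ≤ e ^ 2 := by linarith
  have mono : ∀ t : I, y ^ 2 ≤ ((1 - t) * y + t * e) ^ 2 ∧ ((1 - t) * y + t * e) ^ 2 ≤ e ^ 2 := by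
    intro t
    have t0 := t.2.1
    have t1 := t.2.2
    have hs1 : (0 : ℝ) ≤ 1 - t := by linarith
    have hab : |y| ≤ |e| := sq_le_sq.1 hy2
    have hye' : |y| * |e| = y * e := by rw [← abs_mul, abs_of_nonneg hye]
    have h1 : y ^ 2 ≤ y * e := by
      rw [← hye', ← sq_abs y, sq]; exact mul_le_mul_of_nonneg_left hab (abs_nonneg y)
    have h2 : y * e ≤ e ^ 2 := by
      rw [← hye', ← sq_abs e, sq]; exact mul_le_mul_of_nonneg_right hab (abs_nonneg e)
    constructor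
    · nlinarith [mul_nonneg t0 hs1, mul_nonneg t0 t0, mul_nonneg hs1 hs1]
    · nlinarith [mul_nonneg t0 hs1, mul_nonneg t0 t0, mul_nonneg hs1 hs1]
  have hqt : ∀ t : I, 0 ≤ qpoly 2 x ((1 - t) * y + t * e) := by
    intro t
    obtain ⟨m1, m2⟩ := mono t
    rw [q2]
    apply mul_nonneg
    · linarith
    · apply mul_nonneg <;> linarith
  refine ⟨{ toFun := fun t => mk3 x ((1 - t) * y + t * e)
              (s * Real.sqrt (qpoly 2 x ((1 - t) * y + t * e)))
            continuous_toFun := ?_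
            source' := by simp
            target' := ?_ }, ?_⟩
  · apply mk3_continuous
    · fun_prop
    · fun_prop
    · simp only [q2]
      fun_prop
  · have : qpoly 2 x e = 0 := by
      rw [q2]
      have : 144 - x ^ 2 - e ^ 2 = 0 := by linarith
      rw [this]; ring
    simp [this]
  · intro t
    show mk3 _ _ _ ∈ _
    rw [mk3_mem, mul_pow, hs, one_mul, Real.sq_sqrt (hqt t)]

theorem surface_joined {v : E3} (hv : v ∈ smoothSurface 2) :
    JoinedIn (smoothSurface 2) v (mk3 12 0 0) := by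
  have hv' : v 2 ^ 2 = qpoly 2 (v 0) (v 1) := hv
  have hq : 0 ≤ qpoly 2 (v 0) (v 1) := by rw [← hv']; positivity
  obtain ⟨hA, -, -⟩ := q2_signs hq
  set η := Real.sqrt (144 - v 0 ^ 2) with hη
  have hη2 : η ^ 2 = 144 - v 0 ^ 2 := Real.sq_sqrt (by nlinarith [sq_nonneg (v 1)])
  have hη0 : 0 ≤ η := Real.sqrt_nonneg _
  obtain ⟨e, he, hye⟩ : ∃ e : ℝ, (v 0) ^ 2 + e ^ 2 = 144 ∧ 0 ≤ v 1 * e := by
    rcases le_total 0 (v 1) with h | h
    · exact ⟨η, by linarith, mul_nonneg h hη0⟩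
    · exact ⟨-η, by rw [neg_sq]; linarith, mul_nonneg_of_nonpos_of_nonpos h (by linarith)⟩
  obtain ⟨s, hs, hsv⟩ : ∃ s : ℝ, s ^ 2 = 1 ∧ v 2 = s * Real.sqrt (qpoly 2 (v 0) (v 1)) := by
    rw [← hv', Real.sqrt_sq_eq_abs]
    rcases le_total 0 (v 2) with h | h
    · exact ⟨1, by norm_num, by rw [abs_of_nonneg h]; ring⟩
    · exact ⟨-1, by norm_num, by rw [abs_of_nonpos h]; ring⟩
  have h1 := (vert_joined (s := s) hq he hye).resolve_right (fun h => h hs)
  rw [← hsv, mk3_eta] at h1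
  exact h1.trans (outer_joined he)

instance surface_pc : PathConnectedSpace (smoothSurface 2) := by
  rw [← isPathConnected_iff_pathConnectedSpace]
  refine ⟨mk3 12 0 0, ?_, fun {v} hv => (surface_joined hv).symm⟩
  rw [mk3_mem, q2]; norm_num

theorem surface_sub_UU : smoothSurface 2 ⊆ UU := fun v hv => handle_sub_UU (le_of_eq hv)

theorem Phi_cont : Continuous (fun v : smoothSurface 2 => Phi v) :=
  continuousOn_iff_continuous_domRestrict.1 (Phi_contMDiffOn.continuousOn.mono surface_sub_UU)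

theorem h1_cont : Continuous (fun v : smoothSurface 2 => (Phi v).2.1) :=
  (continuous_fst.comp continuous_snd).comp Phi_cont

theorem h2_cont : Continuous (fun v : smoothSurface 2 => (Phi v).2.2) :=
  (continuous_snd.comp continuous_snd).comp Phi_cont

theorem HasW.symm_map {Y : Type*} [TopologicalSpace Y] {h : Y → Circle} {x y : Y} {l : Path x y}
    {a : ℝ} (h1 : HasW (fun t => h (l t)) a) : HasW (fun t => h (l.symm t)) (-a) := by
  obtain ⟨L, hL, rfl⟩ := h1
  refine ⟨⟨fun t => L (σ t), by fun_prop⟩, fun t => by simp [hL, Path.symm_apply], ?_⟩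
  simp

theorem HasW.of_arg {z : I → ℂ} (hz : Continuous z) (hp : ∀ t, 0 < (z t).re) (h01 : z 0 = z 1) :
    HasW (fun t => Circle.exp (Complex.arg (z t))) 0 := by
  refine ⟨⟨fun t => Complex.arg (z t), ?_⟩, fun t => rfl, ?_⟩
  swap
  · show Complex.arg (z 1) - Complex.arg (z 0) = 0
    rw [h01, sub_self]
  rw [continuous_iff_continuousAt]
  intro t
  exact (Complex.continuousAt_arg (Or.inl (hp t))).comp hz.continuousAt

theorem HasW.of_arg_neg {z : I → ℂ} (hz : Continuous z) (hp : ∀ t, (z t).re < 0)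
    (h01 : z 0 = z 1) : HasW (fun t => Circle.exp (Complex.arg (z t))) 0 := by
  refine ⟨⟨fun t => Complex.arg (-z t) + Real.pi, ?_⟩, fun t => ?_, ?_⟩
  · rw [continuous_iff_continuousAt]
    intro t
    have h1 : ContinuousAt (fun t => Complex.arg (-z t)) t :=
      (Complex.continuousAt_arg (Or.inl (by simpa using hp t))).comp hz.neg.continuousAt
    exact h1.add continuousAt_const
  · refine (exp_arg_neg ?_).symm
    intro h0
    have := hp t
    rw [h0] at this
    simp at this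
  · show Complex.arg (-z 1) + Real.pi - (Complex.arg (-z 0) + Real.pi) = 0
    rw [h01, sub_self]

theorem mem_c1 (θ : ℝ) : mk3 (4 + Real.cos θ) (Real.sin θ) 0 ∈ smoothSurface 2 := by
  rw [mk3_mem, q2]
  have : (4 + Real.cos θ - 4) ^ 2 + Real.sin θ ^ 2 - 1 = 0 := by
    nlinarith [Real.sin_sq_add_cos_sq θ]
  rw [this]; ring

theorem mem_c2 (θ : ℝ) : mk3 (8 + Real.cos θ) (Real.sin θ) 0 ∈ smoothSurface 2 := by
  rw [mk3_mem, q2]
  have : (8 + Real.cos θ - 8) ^ 2 + Real.sin θ ^ 2 - 1 = 0 := by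
    nlinarith [Real.sin_sq_add_cos_sq θ]
  rw [this]; ring

theorem cos_m (m : ℤ) : Real.cos (m * (2 * Real.pi) * (1 : I)) = 1 := by
  simp [Real.cos_int_mul_two_pi]

theorem sin_m (m : ℤ) : Real.sin (m * (2 * Real.pi) * (1 : I)) = 0 := by
  have := Real.sin_int_mul_pi (2 * m)
  push_cast at this
  simp only [Icc.coe_one, mul_one]
  rw [← this]; ring_nf

/-- loop around the first hole -/
noncomputable def c1 (m : ℤ) : Path (⟨mk3 (4 + Real.cos 0) (Real.sin 0) 0, mem_c1 0⟩ : smoothSurface 2)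
    (⟨mk3 (4 + Real.cos 0) (Real.sin 0) 0, mem_c1 0⟩ : smoothSurface 2) where
  toFun := fun t => ⟨mk3 (4 + Real.cos (m * (2 * Real.pi) * t)) (Real.sin (m * (2 * Real.pi) * t)) 0,
    mem_c1 _⟩
  continuous_toFun := by
    apply Continuous.subtype_mk
    apply mk3_continuous <;> fun_prop
  source' := by simp
  target' := by
    apply Subtype.ext
    show mk3 _ _ _ = mk3 _ _ _
    rw [cos_m, sin_m]; simp

/-- loop around the second hole -/
noncomputable def c2 (m : ℤ) : Path (⟨mk3 (8 + Real.cos 0) (Real.sin 0) 0, mem_c2 0⟩ : smoothSurface 2)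
    (⟨mk3 (8 + Real.cos 0) (Real.sin 0) 0, mem_c2 0⟩ : smoothSurface 2) where
  toFun := fun t => ⟨mk3 (8 + Real.cos (m * (2 * Real.pi) * t)) (Real.sin (m * (2 * Real.pi) * t)) 0,
    mem_c2 _⟩
  continuous_toFun := by
    apply Continuous.subtype_mk
    apply mk3_continuous <;> fun_prop
  source' := by simp
  target' := by
    apply Subtype.ext
    show mk3 _ _ _ = mk3 _ _ _
    rw [cos_m, sin_m]; simp

theorem zc_c (c a θ : ℝ) : zc c (mk3 (a + Real.cos θ) (Real.sin θ) 0) =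
    ((a - c : ℝ) : ℂ) + (Circle.exp θ : Circle) := by
  apply Complex.ext
  · rw [zc_re, Circle.coe_exp, Complex.add_re, Complex.exp_ofReal_mul_I_re, Complex.ofReal_re]
    simp [mk3]; ring
  · rw [zc_im, Circle.coe_exp, Complex.add_im, Complex.exp_ofReal_mul_I_im, Complex.ofReal_im]
    simp [mk3]

theorem Phi_21 (x y : ℝ) : (Phi (mk3 x y 0)).2.1 = ang 4 (mk3 x y 0) := by
  simp [Phi, mk3]

theorem w_line (m : ℤ) : HasW (fun t : I => Circle.exp (m * (2 * Real.pi) * t))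
    (m * (2 * Real.pi)) :=
  ⟨⟨fun t => m * (2 * Real.pi) * t, by fun_prop⟩, fun t => rfl, by simp⟩

theorem exp_arg_coe (z : Circle) : Circle.exp (Complex.arg (z : ℂ)) = z := Circle.exp_arg z

theorem zcont (a : ℂ) (m : ℤ) :
    Continuous (fun t : I => a + ((Circle.exp (m * (2 * Real.pi) * t) : Circle) : ℂ)) := by
  fun_prop

theorem zend (a : ℂ) (m : ℤ) : a + ((Circle.exp (m * (2 * Real.pi) * (0 : I)) : Circle) : ℂ) =
    a + ((Circle.exp (m * (2 * Real.pi) * (1 : I)) : Circle) : ℂ) := by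
  have : Circle.exp (m * (2 * Real.pi) * (1 : I)) = 1 := by
    rw [Icc.coe_one, mul_one]; exact Circle.exp_int_mul_two_pi m
  rw [this]; simp

theorem w_c1_1 (m : ℤ) : HasW (fun t => (Phi (c1 m t)).2.1) (m * (2 * Real.pi)) := by
  have e : (fun t => (Phi (c1 m t)).2.1) = fun t : I => Circle.exp (m * (2 * Real.pi) * t) := by
    funext t
    show (Phi (mk3 _ _ 0)).2.1 = _
    rw [Phi_21, ang, zc_c]
    rw [sub_self, Complex.ofReal_zero, zero_add, exp_arg_coe]
  rw [e]; exact w_line m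

theorem w_c1_2 (m : ℤ) : HasW (fun t => (Phi (c1 m t)).2.2) 0 := by
  have e : (fun t => (Phi (c1 m t)).2.2) = fun t : I => Circle.exp (Complex.arg
      (((4 - 8 : ℝ) : ℂ) + ((Circle.exp (m * (2 * Real.pi) * t) : Circle) : ℂ))) := by
    funext t
    show ang 8 (mk3 _ _ 0) = _
    rw [ang, zc_c]
  rw [e]
  apply HasW.of_arg_neg (zcont _ m) _ (zend _ m)
  intro t
  rw [Circle.coe_exp, Complex.add_re, Complex.exp_ofReal_mul_I_re, Complex.ofReal_re]
  have := Real.cos_le_one (m * (2 * Real.pi) * t)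
  linarith

theorem w_c2_2 (m : ℤ) : HasW (fun t => (Phi (c2 m t)).2.2) (m * (2 * Real.pi)) := by
  have e : (fun t => (Phi (c2 m t)).2.2) = fun t : I => Circle.exp (m * (2 * Real.pi) * t) := by
    funext t
    show ang 8 (mk3 _ _ 0) = _
    rw [ang, zc_c]
    rw [sub_self, Complex.ofReal_zero, zero_add, exp_arg_coe]
  rw [e]; exact w_line m

theorem w_c2_1 (m : ℤ) : HasW (fun t => (Phi (c2 m t)).2.1) 0 := by
  have e : (fun t => (Phi (c2 m t)).2.1) = fun t : I => Circle.exp (Complex.arg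
      (((8 - 4 : ℝ) : ℂ) + ((Circle.exp (m * (2 * Real.pi) * t) : Circle) : ℂ))) := by
    funext t
    show (Phi (mk3 _ _ 0)).2.1 = _
    rw [Phi_21, ang, zc_c]
  rw [e]
  apply HasW.of_arg (zcont _ m) _ (zend _ m)
  intro t
  rw [Circle.coe_exp, Complex.add_re, Complex.exp_ofReal_mul_I_re, Complex.ofReal_re]
  have := Real.neg_one_le_cos (m * (2 * Real.pi) * t)
  linarith

theorem HasW.loop {l : I → Circle} (h01 : l 0 = l 1) {a : ℝ} (h : HasW l a) :
    ∃ m : ℤ, a = m * (2 * Real.pi) := by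
  obtain ⟨L, hL, rfl⟩ := h
  rw [← hL, ← hL] at h01
  obtain ⟨m, hm⟩ := Circle.exp_eq_exp.1 h01.symm
  exact ⟨m, by rw [hm]; ring⟩

/-- every loop in `S² × S¹ × S¹` based on the surface is homotopic to a loop of the surface -/
theorem loop_in_surface {v0 : smoothSurface 2} (l : Path (Phi v0) (Phi v0)) :
    ∃ lam : Path v0 v0, (lam.map Phi_cont).Homotopic l := by
  have k1 : Continuous (fun x : X4 => x.2.1) := by fun_prop
  have k2 : Continuous (fun x : X4 => x.2.2) := by fun_prop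
  obtain ⟨a, ha⟩ := HasW.exists (k1.comp l.continuous)
  obtain ⟨b, hb⟩ := HasW.exists (k2.comp l.continuous)
  obtain ⟨m, rfl⟩ := ha.loop (by simp)
  obtain ⟨n, rfl⟩ := hb.loop (by simp)
  obtain ⟨p⟩ := PathConnectedSpace.joined v0
    (⟨mk3 (4 + Real.cos 0) (Real.sin 0) 0, mem_c1 0⟩ : smoothSurface 2)
  obtain ⟨p'⟩ := PathConnectedSpace.joined v0
    (⟨mk3 (8 + Real.cos 0) (Real.sin 0) 0, mem_c2 0⟩ : smoothSurface 2)
  obtain ⟨a1, ha1⟩ := HasW.exists (h1_cont.comp p.continuous)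
  obtain ⟨a2, ha2⟩ := HasW.exists (h1_cont.comp p'.continuous)
  obtain ⟨b1, hb1⟩ := HasW.exists (h2_cont.comp p.continuous)
  obtain ⟨b2, hb2⟩ := HasW.exists (h2_cont.comp p'.continuous)
  refine ⟨((p.trans (c1 m)).trans p.symm).trans ((p'.trans (c2 n)).trans p'.symm), ?_⟩
  have r1 := HasW.trans_map h1_cont
    (HasW.trans_map h1_cont (HasW.trans_map h1_cont ha1 (w_c1_1 m)) (HasW.symm_map
      (h := fun v : smoothSurface 2 => (Phi v).2.1) (l := p) ha1))
    (HasW.trans_map h1_cont (HasW.trans_map h1_cont ha2 (w_c2_1 n)) (HasW.symm_map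
      (h := fun v : smoothSurface 2 => (Phi v).2.1) (l := p') ha2))
  have r2 := HasW.trans_map h2_cont
    (HasW.trans_map h2_cont (HasW.trans_map h2_cont hb1 (w_c1_2 m)) (HasW.symm_map
      (h := fun v : smoothSurface 2 => (Phi v).2.2) (l := p) hb1))
    (HasW.trans_map h2_cont (HasW.trans_map h2_cont hb2 (w_c2_2 n)) (HasW.symm_map
      (h := fun v : smoothSurface 2 => (Phi v).2.2) (l := p') hb2))
  have s1 : a1 + m * (2 * Real.pi) + -a1 + (a2 + 0 + -a2) = m * (2 * Real.pi) := by ring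
  have s2 : b1 + 0 + -b1 + (b2 + n * (2 * Real.pi) + -b2) = n * (2 * Real.pi) := by ring
  rw [s1] at r1
  rw [s2] at r2
  exact X4_homotopic r1 ha r2 hb

theorem pi1_surj : PiOneSurjective Sig := by
  rintro ⟨_, v0, hv0, rfl⟩ γ
  obtain ⟨l, rfl⟩ := Quotient.exists_rep γ
  obtain ⟨lam, hlam⟩ := loop_in_surface (v0 := ⟨v0, hv0⟩) l
  have hc : Continuous (fun v : smoothSurface 2 => (⟨Phi v, v, v.2, rfl⟩ : Sig)) :=
    Phi_cont.subtype_mk _
  refine ⟨Path.Homotopic.Quotient.mk (lam.map hc), ?_⟩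
  show Path.Homotopic.Quotient.mk ((lam.map hc).map continuous_subtype_val) =
    Path.Homotopic.Quotient.mk l
  exact Quotient.sound hlam

end Pool.Agent.H289R3.Tri
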