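import Pool.Agent.H289R3.Tri.Space

set_option autoImplicit false
set_option linter.unusedSectionVars false
set_option linter.unusedVariables false
open Set Filter Topology unitInterval Metric Module
open scoped Manifold ContDiff

namespace Pool.Agent.H289R3.Tri

abbrev E3 := EuclideanSpace ℝ (Fin 3)
abbrev E2 := EuclideanSpace ℝ (Fin 2)

/-- base point of the sphere -/
noncomputable def p0 : S2 := ⟨EuclideanSpace.single 0 1, by simp⟩

/-- chart of the sphere -/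
noncomputable def ch : OpenPartialHomeomorph S2 E2 := chartAt E2 p0

theorem ch_target : ch.target = univ :=
  haveI := Fact.mk (@finrank_euclideanSpace_fin ℝ _ (2 + 1))
  stereographic'_target _

/-- plane coordinates -/
noncomputable def ww (v : E3) : E2 := !₂[v 0, v 1]

/-- complex coordinate centred at `c` -/
noncomputable def zc (c : ℝ) (v : E3) : ℂ := ((v 0 - c : ℝ) : ℂ) + ((v 1 : ℝ) : ℂ) * Complex.I

/-- angle seen from `c` -/
noncomputable def ang (c : ℝ) (v : E3) : Circle := Circle.exp (Complex.arg (zc c v))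

theorem ww_contDiff : ContDiff ℝ ∞ ww := by
  unfold ww
  rw [contDiff_euclidean]
  intro i
  fin_cases i
  · simp; fun_prop
  · simp; fun_prop

theorem zc_contDiff (c : ℝ) : ContDiff ℝ ∞ (zc c) := by
  unfold zc
  have h0 : ContDiff ℝ ∞ (fun v : E3 => (v 0 - c : ℝ)) := by fun_prop
  have h1 : ContDiff ℝ ∞ (fun v : E3 => ((v 0 - c : ℝ) : ℂ)) :=
    Complex.ofRealCLM.contDiff.comp h0
  have h2 : ContDiff ℝ ∞ (fun v : E3 => ((v 1 : ℝ) : ℂ)) :=
    Complex.ofRealCLM.contDiff.comp (by fun_prop)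
  exact h1.add (h2.mul contDiff_const)

theorem coe_exp_arg {z : ℂ} (hz : z ≠ 0) : ((Circle.exp (Complex.arg z) : Circle) : ℂ) = z / ‖z‖ := by
  rw [Circle.coe_exp]
  have h := Complex.norm_mul_exp_arg_mul_I z
  have : (‖z‖ : ℂ) ≠ 0 := by simpa using hz
  field_simp
  rw [mul_comm]; exact h

theorem exp_arg_neg {z : ℂ} (hz : z ≠ 0) : Circle.exp (Complex.arg z) =
    Circle.exp (Complex.arg (-z) + Real.pi) := by
  apply Circle.ext
  rw [Circle.exp_add, Circle.coe_mul, coe_exp_arg hz, coe_exp_arg (neg_ne_zero.2 hz),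
    Circle.coe_exp, Complex.exp_pi_mul_I, norm_neg]
  ring

theorem arg_contDiffAt {z : ℂ} (hz : z ∈ Complex.slitPlane) : ContDiffAt ℝ ∞ Complex.arg z := by
  have h1 : ContDiffAt ℝ ∞ Complex.log z := (Complex.contDiffAt_log hz).restrict_scalars ℝ
  have h2 : ContDiffAt ℝ ∞ (fun z => Complex.imCLM (Complex.log z)) z :=
    Complex.imCLM.contDiff.contDiffAt.comp z h1
  have e : (fun z => Complex.imCLM (Complex.log z)) = Complex.arg := by
    funext z; simp [Complex.log_im]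
  rwa [e] at h2

theorem ang_contMDiffAt {c : ℝ} {v : E3} (h : zc c v ≠ 0) :
    ContMDiffAt (𝓡 3) (𝓡 1) ∞ (ang c) v := by
  have hz := (zc_contDiff c).contDiffAt (x := v)
  by_cases hs : zc c v ∈ Complex.slitPlane
  · have h1 : ContDiffAt ℝ ∞ (fun v => Complex.arg (zc c v)) v := (arg_contDiffAt hs).comp v hz
    exact contMDiff_circleExp.contMDiffAt.comp v h1.contMDiffAt
  · have hs' : -zc c v ∈ Complex.slitPlane := by
      rw [Complex.mem_slitPlane_iff] at hs ⊢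
      push Not at hs
      simp only [Complex.neg_re, Complex.neg_im]
      by_cases him : (zc c v).im = 0
      · left
        have hre : (zc c v).re ≠ 0 := fun h0 => h (Complex.ext h0 him)
        have := lt_of_le_of_ne hs.1 hre
        linarith
      · exact (him hs.2).elim
    have h1 : ContDiffAt ℝ ∞ (fun v => Complex.arg (-zc c v) + Real.pi) v :=
      ((arg_contDiffAt hs').comp v hz.neg).add contDiffAt_const
    have h2 : ContMDiffAt (𝓡 3) (𝓡 1) ∞
        (fun v => Circle.exp (Complex.arg (-zc c v) + Real.pi)) v :=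
      contMDiff_circleExp.contMDiffAt.comp v h1.contMDiffAt
    apply h2.congr_of_eventuallyEq
    have : ∀ᶠ w in 𝓝 v, zc c w ≠ 0 :=
      (zc_contDiff c).continuous.continuousAt.eventually_ne h
    filter_upwards [this] with w hw
    exact exp_arg_neg hw

/-- the embedding of a neighbourhood of the genus two handlebody -/
noncomputable def Phi (v : E3) : X4 :=
  (ch.symm (ww v), ang 4 v * Circle.exp (Real.arctan (v 2)), ang 8 v)

/-- the neighbourhood of the handlebody -/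
def UU : Set E3 := {v | zc 4 v ≠ 0 ∧ zc 8 v ≠ 0}

theorem UU_open : IsOpen UU := by
  apply IsOpen.inter
  · exact isOpen_ne.preimage (zc_contDiff 4).continuous
  · exact isOpen_ne.preimage (zc_contDiff 8).continuous

theorem Phi_contMDiffOn : ContMDiffOn (𝓡 3) I4 ∞ Phi UU := by
  intro v hv
  apply ContMDiffAt.contMDiffWithinAt
  apply ContMDiffAt.prodMk
  · have h1 : ContMDiffAt (𝓡 2) (𝓡 2) ∞ ch.symm (ww v) := by
      have h2 : ContMDiffOn (𝓡 2) (𝓡 2) ∞ ch.symm ch.target := contMDiffOn_chart_symm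
      rw [ch_target] at h2
      exact (contMDiffOn_univ.1 h2).contMDiffAt
    exact h1.comp v ww_contDiff.contMDiff.contMDiffAt
  · apply ContMDiffAt.prodMk
    · apply ContMDiffAt.mul (ang_contMDiffAt hv.1)
      have h1 : ContDiff ℝ ∞ (fun v : E3 => Real.arctan (v 2)) :=
        Real.contDiff_arctan.comp (by fun_prop)
      exact contMDiff_circleExp.contMDiffAt.comp v h1.contMDiff.contMDiffAt
    · exact ang_contMDiffAt hv.2

theorem zc_re (c : ℝ) (v : E3) : (zc c v).re = v 0 - c := by simp [zc]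

theorem zc_im (c : ℝ) (v : E3) : (zc c v).im = v 1 := by simp [zc]

theorem ch_symm_inj {w w' : E2} (h : ch.symm w = ch.symm w') : w = w' := by
  have h1 := ch.right_inv (x := w) (by rw [ch_target]; trivial)
  have h2 := ch.right_inv (x := w') (by rw [ch_target]; trivial)
  rw [← h1, ← h2, h]

theorem Phi_injOn : InjOn Phi UU := by
  intro v hv v' hv' h
  simp only [Phi, Prod.mk.injEq] at h
  obtain ⟨h1, h2, -⟩ := h
  have h3 := ch_symm_inj h1
  have e0 : v 0 = v' 0 := by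
    have := congrArg (fun w : E2 => w 0) h3
    simpa [ww] using this
  have e1 : v 1 = v' 1 := by
    have := congrArg (fun w : E2 => w 1) h3
    simpa [ww] using this
  have ez : zc 4 v = zc 4 v' := by simp only [zc, e0, e1]
  have ea : ang 4 v = ang 4 v' := by simp only [ang, ez]
  rw [ea] at h2
  have h4 := mul_left_cancel h2
  have h5 : Real.arctan (v 2) = Real.arctan (v' 2) := by
    have hpi := Real.pi_pos
    refine Circle.exp_injOn_Icc (a := -(Real.pi / 2)) (b := Real.pi / 2) (by linarith) ?_ ?_ h4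
    · exact ⟨(Real.neg_pi_div_two_lt_arctan _).le, (Real.arctan_lt_pi_div_two _).le⟩
    · exact ⟨(Real.neg_pi_div_two_lt_arctan _).le, (Real.arctan_lt_pi_div_two _).le⟩
  have e2 : v 2 = v' 2 := Real.arctan_injective h5
  ext i
  fin_cases i
  · exact e0
  · exact e1
  · exact e2

/-- the left inverse, in coordinates -/
noncomputable def GG (q : E2 × ℂ) : E3 :=
  !₂[q.1 0, q.1 1,
    (q.2 * (starRingEnd ℂ) (((q.1 0 - 4 : ℝ) : ℂ) + ((q.1 1 : ℝ) : ℂ) * Complex.I)).im /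
    (q.2 * (starRingEnd ℂ) (((q.1 0 - 4 : ℝ) : ℂ) + ((q.1 1 : ℝ) : ℂ) * Complex.I)).re]

/-- coordinates on the target -/
noncomputable def KK (x : X4) : E2 × ℂ := (ch x.1, (x.2.1 : ℂ))

theorem prod_formula (v : E3) (hv : zc 4 v ≠ 0) :
    ((ang 4 v * Circle.exp (Real.arctan (v 2)) : Circle) : ℂ) * (starRingEnd ℂ) (zc 4 v) =
      (‖zc 4 v‖ : ℂ) * Complex.exp (Real.arctan (v 2) * Complex.I) := by
  have hn : (‖zc 4 v‖ : ℂ) ≠ 0 := by simpa using hv
  rw [Circle.coe_mul, ang, coe_exp_arg hv, Circle.coe_exp]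
  have h1 : zc 4 v * (starRingEnd ℂ) (zc 4 v) = (‖zc 4 v‖ : ℂ) ^ 2 := by
    rw [Complex.mul_conj, Complex.normSq_eq_norm_sq]; push_cast; rfl
  field_simp
  exact h1

theorem GG_KK_Phi (v : E3) (hv : zc 4 v ≠ 0) : GG (KK (Phi v)) = v := by
  have h1 : ch (ch.symm (ww v)) = ww v := ch.right_inv (by rw [ch_target]; trivial)
  have hn : 0 < ‖zc 4 v‖ := by simpa using hv
  have hc := Real.cos_arctan_pos (v 2)
  have hz : ((((ww v) 0 - 4 : ℝ) : ℂ) + (((ww v) 1 : ℝ) : ℂ) * Complex.I) = zc 4 v := by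
    simp [zc, ww]
  ext i
  fin_cases i
  · show (ch (ch.symm (ww v))) 0 = v 0
    rw [h1]; simp [ww]
  · show (ch (ch.symm (ww v))) 1 = v 1
    rw [h1]; simp [ww]
  · show ((((ang 4 v * Circle.exp (Real.arctan (v 2)) : Circle) : ℂ)) * (starRingEnd ℂ)
      ((((ch (ch.symm (ww v))) 0 - 4 : ℝ) : ℂ) + (((ch (ch.symm (ww v))) 1 : ℝ) : ℂ) *
        Complex.I)).im / ((((ang 4 v * Circle.exp (Real.arctan (v 2)) : Circle) : ℂ)) *
        (starRingEnd ℂ)
      ((((ch (ch.symm (ww v))) 0 - 4 : ℝ) : ℂ) + (((ch (ch.symm (ww v))) 1 : ℝ) : ℂ) *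
        Complex.I)).re = v 2
    rw [h1, hz, prod_formula v hv, Complex.re_ofReal_mul, Complex.im_ofReal_mul,
      Complex.exp_ofReal_mul_I_re, Complex.exp_ofReal_mul_I_im, mul_div_mul_left _ _ hn.ne',
      ← Real.tan_eq_sin_div_cos, Real.tan_arctan]

theorem GG_contDiffAt (v : E3) (hv : zc 4 v ≠ 0) : ContDiffAt ℝ ∞ GG (KK (Phi v)) := by
  have h1 : ch (ch.symm (ww v)) = ww v := ch.right_inv (by rw [ch_target]; trivial)
  have hn : 0 < ‖zc 4 v‖ := by simpa using hv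
  have hc := Real.cos_arctan_pos (v 2)
  have hz : ((((ww v) 0 - 4 : ℝ) : ℂ) + (((ww v) 1 : ℝ) : ℂ) * Complex.I) = zc 4 v := by
    simp [zc, ww]
  have c0 : ContDiff ℝ ∞ (fun q : E2 × ℂ => (q.1 0 - 4 : ℝ)) := by fun_prop
  have c1 : ContDiff ℝ ∞ (fun q : E2 × ℂ => ((q.1 0 - 4 : ℝ) : ℂ)) :=
    Complex.ofRealCLM.contDiff.comp c0
  have c2 : ContDiff ℝ ∞ (fun q : E2 × ℂ => (q.1 1 : ℝ)) := by fun_prop
  have c3 : ContDiff ℝ ∞ (fun q : E2 × ℂ => ((q.1 1 : ℝ) : ℂ)) :=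
    Complex.ofRealCLM.contDiff.comp c2
  have c4 : ContDiff ℝ ∞ (fun q : E2 × ℂ => q.2 * (starRingEnd ℂ) (((q.1 0 - 4 : ℝ) : ℂ) +
      ((q.1 1 : ℝ) : ℂ) * Complex.I)) :=
    contDiff_snd.mul (Complex.conjCLE.contDiff.comp (c1.add (c3.mul contDiff_const)))
  have c5 : ContDiff ℝ ∞ (fun q : E2 × ℂ => (q.2 * (starRingEnd ℂ) (((q.1 0 - 4 : ℝ) : ℂ) +
      ((q.1 1 : ℝ) : ℂ) * Complex.I)).im) := Complex.imCLM.contDiff.comp c4
  have c6 : ContDiff ℝ ∞ (fun q : E2 × ℂ => (q.2 * (starRingEnd ℂ) (((q.1 0 - 4 : ℝ) : ℂ) +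
      ((q.1 1 : ℝ) : ℂ) * Complex.I)).re) := Complex.reCLM.contDiff.comp c4
  unfold GG
  rw [contDiffAt_euclidean]
  intro i
  fin_cases i
  · simp; fun_prop
  · simp; fun_prop
  · show ContDiffAt ℝ ∞ (fun q : E2 × ℂ => (q.2 * (starRingEnd ℂ) (((q.1 0 - 4 : ℝ) : ℂ) +
      ((q.1 1 : ℝ) : ℂ) * Complex.I)).im / (q.2 * (starRingEnd ℂ) (((q.1 0 - 4 : ℝ) : ℂ) +
      ((q.1 1 : ℝ) : ℂ) * Complex.I)).re) (KK (Phi v))
    apply ContDiffAt.div c5.contDiffAt c6.contDiffAt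
    show ((((ang 4 v * Circle.exp (Real.arctan (v 2)) : Circle) : ℂ)) *
        (starRingEnd ℂ)
      ((((ch (ch.symm (ww v))) 0 - 4 : ℝ) : ℂ) + (((ch (ch.symm (ww v))) 1 : ℝ) : ℂ) *
        Complex.I)).re ≠ 0
    rw [h1, hz, prod_formula v hv, Complex.re_ofReal_mul, Complex.exp_ofReal_mul_I_re]
    positivity

theorem coe_circle_contMDiff : ContMDiff (𝓡 1) 𝓘(ℝ, ℂ) ∞ (fun z : Circle => (z : ℂ)) :=
  haveI : Fact (finrank ℝ ℂ = 1 + 1) := finrank_real_complex_fact'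
  contMDiff_coe_sphere

theorem KK_mdiff (v : E3) : MDifferentiableAt I4 𝓘(ℝ, E2 × ℂ) KK (Phi v) := by
  have hs : ch.symm (ww v) ∈ ch.source := ch.map_target (by rw [ch_target]; trivial)
  have h1 : ContMDiffAt (𝓡 2) (𝓡 2) ∞ ch (ch.symm (ww v)) :=
    (contMDiffOn_chart (n := ∞)).contMDiffAt (ch.open_source.mem_nhds hs)
  have h2 : ContMDiffAt I4 (𝓡 2) ∞ (fun x : X4 => ch x.1) (Phi v) :=
    ContMDiffAt.comp (x := Phi v) (g := ch) h1 contMDiff_fst.contMDiffAt
  have h3 : ContMDiffAt I4 𝓘(ℝ, ℂ) ∞ (fun x : X4 => (x.2.1 : ℂ)) (Phi v) :=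
    (coe_circle_contMDiff.contMDiffAt).comp (Phi v)
      (contMDiff_fst.contMDiffAt.comp (Phi v) contMDiff_snd.contMDiffAt)
  have h4 : ContMDiffAt I4 𝓘(ℝ, E2 × ℂ) ∞ KK (Phi v) := h2.prodMk_space h3
  exact h4.mdifferentiableAt (by simp)

theorem Phi_mfderiv_inj (v : E3) (hv : v ∈ UU) :
    Function.Injective (mfderiv (𝓡 3) I4 Phi v) := by
  have h1 : MDifferentiableAt (𝓡 3) I4 Phi v :=
    (Phi_contMDiffOn.contMDiffAt (UU_open.mem_nhds hv)).mdifferentiableAt (by simp)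
  have h2 := KK_mdiff v
  have h3 : MDifferentiableAt 𝓘(ℝ, E2 × ℂ) (𝓡 3) GG (KK (Phi v)) :=
    ((GG_contDiffAt v hv.1).differentiableAt (by simp)).mdifferentiableAt
  have h4 : mfderiv (𝓡 3) (𝓡 3) (GG ∘ KK ∘ Phi) v =
      (mfderiv 𝓘(ℝ, E2 × ℂ) (𝓡 3) GG (KK (Phi v))).comp
        ((mfderiv I4 𝓘(ℝ, E2 × ℂ) KK (Phi v)).comp (mfderiv (𝓡 3) I4 Phi v)) := by
    rw [mfderiv_comp v h3 (h2.comp v h1), mfderiv_comp v h2 h1]
    rfl
  have h5 : mfderiv (𝓡 3) (𝓡 3) (GG ∘ KK ∘ Phi) v = ContinuousLinearMap.id ℝ E3 := by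
    have : (GG ∘ KK ∘ Phi) =ᶠ[𝓝 v] id := by
      filter_upwards [UU_open.mem_nhds hv] with w hw
      exact GG_KK_Phi w hw.1
    rw [this.mfderiv_eq]
    exact mfderiv_id
  intro a b hab
  have e := h4.symm.trans h5
  have ea := congrArg (fun L : E3 →L[ℝ] E3 => L a) e
  have eb := congrArg (fun L : E3 →L[ℝ] E3 => L b) e
  have : (mfderiv 𝓘(ℝ, E2 × ℂ) (𝓡 3) GG (KK (Phi v)))
        ((mfderiv I4 𝓘(ℝ, E2 × ℂ) KK (Phi v)) (mfderiv (𝓡 3) I4 Phi v a)) =
      (mfderiv 𝓘(ℝ, E2 × ℂ) (𝓡 3) GG (KK (Phi v)))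
        ((mfderiv I4 𝓘(ℝ, E2 × ℂ) KK (Phi v)) (mfderiv (𝓡 3) I4 Phi v b)) := by rw [hab]
  exact ea.symm.trans (this.trans eb)

/-- the handlebody avoids the two punctures -/
theorem handle_sub_UU : smoothHandlebody 2 ⊆ UU := by
  intro v hv
  have hv' : v 2 ^ 2 ≤ qpoly 2 (v 0) (v 1) := hv
  have hq : 0 ≤ qpoly 2 (v 0) (v 1) := le_trans (sq_nonneg _) hv'
  constructor
  · intro h
    have e0 : v 0 = 4 := by have := congrArg Complex.re h; rw [zc_re] at this; simpa [sub_eq_zero] using this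
    have e1 : v 1 = 0 := by have := congrArg Complex.im h; rw [zc_im] at this; simpa using this
    rw [e0, e1] at hq
    simp [qpoly, Finset.prod_range_succ] at hq
    norm_num at hq
  · intro h
    have e0 : v 0 = 8 := by have := congrArg Complex.re h; rw [zc_re] at this; simpa [sub_eq_zero] using this
    have e1 : v 1 = 0 := by have := congrArg Complex.im h; rw [zc_im] at this; simpa using this
    rw [e0, e1] at hq
    simp [qpoly, Finset.prod_range_succ] at hq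
    norm_num at hq

/-- the surface -/
noncomputable def Sig : Set X4 := Phi '' smoothSurface 2

theorem bounds : BoundsHandlebody I4 2 Sig :=
  ⟨UU, Phi, UU_open, handle_sub_UU, ⟨Phi_contMDiffOn, Phi_injOn, fun v hv => Phi_mfderiv_inj v hv⟩,
    rfl⟩

end Pool.Agent.H289R3.Tri
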