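import Pool.Agent.H289R3.Tri.Winding
import Pool.Agent.Helper206.BoxS.SphereSC

set_option autoImplicit false
set_option linter.unusedSectionVars false
set_option linter.unusedVariables false
open Set Filter Topology unitInterval Metric Module

namespace Pool.Agent.H289R3.Tri

instance instSCS2 : SimplyConnectedSpace S2 :=
  Pool.Agent.Helper206.BoxS.Sph.simplyConnected_sphere (by simp)

theorem map_trans' {A B : Type*} [TopologicalSpace A] [TopologicalSpace B] {x y z : A}
    (l : Path x y) (l' : Path y z) {f : A → B} (hf : Continuous f) :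
    (l.trans l').map hf = (l.map hf).trans (l'.map hf) := Path.map_trans _ _ _

theorem X4_homotopic {x y : X4} {l l' : Path x y} {a b : ℝ}
    (h1 : HasW (fun t => (l t).2.1) a) (h1' : HasW (fun t => (l' t).2.1) a)
    (h2 : HasW (fun t => (l t).2.2) b) (h2' : HasW (fun t => (l' t).2.2) b) :
    l.Homotopic l' := by
  apply homotopic_prod
  · exact SimplyConnectedSpace.paths_homotopic _ _
  · apply homotopic_prod
    · exact HasW.homotopic (l := (l.map continuous_snd).map continuous_fst)
        (l' := (l'.map continuous_snd).map continuous_fst) h1 h1'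
    · exact HasW.homotopic (l := (l.map continuous_snd).map continuous_snd)
        (l' := (l'.map continuous_snd).map continuous_snd) h2 h2'

/-- total angle of a path under a map to the circle -/
theorem HasW.trans_map {Y : Type*} [TopologicalSpace Y] {h : Y → Circle} (hh : Continuous h)
    {x y z : Y} {l : Path x y} {l' : Path y z} {a b : ℝ} (h1 : HasW (fun t => h (l t)) a)
    (h2 : HasW (fun t => h (l' t)) b) : HasW (fun t => h ((l.trans l') t)) (a + b) := by
  have h3 := HasW.trans (l := l.map hh) (l' := l'.map hh) h1 h2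
  rw [← map_trans' l l' hh] at h3
  exact h3

theorem X4_comm (x : X4) (l l' : Path x x) : (l.trans l').Homotopic (l'.trans l) := by
  have c1 : Continuous (fun x : X4 => x.2.1) := by fun_prop
  have c2 : Continuous (fun x : X4 => x.2.2) := by fun_prop
  obtain ⟨a, ha⟩ := HasW.exists (c1.comp l.continuous)
  obtain ⟨a', ha'⟩ := HasW.exists (c1.comp l'.continuous)
  obtain ⟨b, hb⟩ := HasW.exists (c2.comp l.continuous)
  obtain ⟨b', hb'⟩ := HasW.exists (c2.comp l'.continuous)
  have e1 := HasW.trans_map c1 ha ha'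
  have e2 := HasW.trans_map c1 ha' ha
  have e3 := HasW.trans_map c2 hb hb'
  have e4 := HasW.trans_map c2 hb' hb
  rw [add_comm] at e2 e4
  exact X4_homotopic e1 e2 e3 e4

/-- the homomorphism `ℤ → ℤ/2` -/
def chi2 : Multiplicative ℤ →* Multiplicative (ZMod 2) :=
  AddMonoidHom.toMultiplicative (Int.castAddHom (ZMod 2))

theorem X4_family (s0 : X4) : ∃ c : Fin 3 → X4 → X4 → Multiplicative (ZMod 2), (∀ i, Coc (c i)) ∧
      ∀ i j, i ≠ j → ¬ ∃ b : X4 → Multiplicative (ZMod 2), b s0 = 1 ∧
        GauOn univ (c i) (c j) b := by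
  have c1 : Continuous (fun x : X4 => x.2.1) := by fun_prop
  have c2 : Continuous (fun x : X4 => x.2.2) := by fun_prop
  have hpi := Real.pi_pos
  let g0 : X4 → X4 → Multiplicative (ZMod 2) := fun _ _ => 1
  let g1 : X4 → X4 → Multiplicative (ZMod 2) := fun x y => gC chi2 x.2.1 y.2.1
  let g2 : X4 → X4 → Multiplicative (ZMod 2) := fun x y => gC chi2 x.2.2 y.2.2
  have h0 : Coc g0 := fun p => Eventually.of_forall fun x => Eventually.of_forall fun y => by
    simp [g0]
  have h1 : Coc g1 := (gC_coc chi2).pull c1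
  have h2 : Coc g2 := (gC_coc chi2).pull c2
  -- loops
  let l1 : I → X4 := fun t => (s0.1, s0.2.1 * Circle.exp (2 * Real.pi * t), s0.2.2)
  let l2 : I → X4 := fun t => (s0.1, s0.2.1, s0.2.2 * Circle.exp (2 * Real.pi * t))
  have cl1 : Continuous l1 := by fun_prop
  have cl2 : Continuous l2 := by fun_prop
  have wind : ∀ z : Circle, HasW (fun t : I => z * Circle.exp (2 * Real.pi * t))
      ((1 : ℤ) * (2 * Real.pi)) := by
    intro z
    refine ⟨⟨fun t => Complex.arg z + 2 * Real.pi * t, by fun_prop⟩, ?_, ?_⟩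
    · intro t
      show Circle.exp (Complex.arg z + 2 * Real.pi * t) = _
      rw [Circle.exp_add, Circle.exp_arg]
    · simp
  have wind0 : ∀ z : Circle, HasW (fun t : I => z) ((0 : ℤ) * (2 * Real.pi)) := by
    intro z
    refine ⟨⟨fun t => Complex.arg z, by fun_prop⟩, ?_, by simp⟩
    intro t
    exact Circle.exp_arg z
  have e1 : l1 0 = s0 := by simp [l1]
  have e1' : l1 1 = s0 := by simp [l1]
  have e2 : l2 0 = s0 := by simp [l2]
  have e2' : l2 1 = s0 := by simp [l2]
  have hh0 : ∀ l : I → X4, IsHol g0 l 1 := fun l => ⟨fun _ => 1, fun s =>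
    Eventually.of_forall fun t => by simp [g0], by simp⟩
  have H11 : IsHol g1 l1 (chi2 (Multiplicative.ofAdd 1)) :=
    gC_hol chi2 (γ := fun t => (l1 t).2.1) (wind s0.2.1) (by rw [e1, e1'])
  have H12 : IsHol g1 l2 (chi2 (Multiplicative.ofAdd 0)) :=
    gC_hol chi2 (γ := fun t => (l2 t).2.1) (wind0 s0.2.1) (by rw [e2, e2'])
  have H21 : IsHol g2 l1 (chi2 (Multiplicative.ofAdd 0)) :=
    gC_hol chi2 (γ := fun t => (l1 t).2.2) (wind0 s0.2.2) (by rw [e1, e1'])
  have H22 : IsHol g2 l2 (chi2 (Multiplicative.ofAdd 1)) :=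
    gC_hol chi2 (γ := fun t => (l2 t).2.2) (wind s0.2.2) (by rw [e2, e2'])
  have ne : chi2 (Multiplicative.ofAdd 1) ≠ 1 := by
    intro h
    have : ((1 : ℤ) : ZMod 2) = 0 := Multiplicative.ofAdd.injective h
    revert this
    decide
  have eq1 : chi2 (Multiplicative.ofAdd 0) = 1 := by
    simp
  rw [eq1] at H12 H21
  -- general principle
  have princ : ∀ {g g' : X4 → X4 → Multiplicative (ZMod 2)} {b : X4 → Multiplicative (ZMod 2)}
      {l : I → X4} {a a' : Multiplicative (ZMod 2)}, Continuous l → l 0 = s0 → l 1 = s0 →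
      GauOn univ g g' b → IsHol g l a → IsHol g' l a' → a = a' := by
    intro g g' b l a a' hl hl0 hl1 hb ha ha'
    have := (IsHol.gau hb hl ha).uniq ha'
    rw [hl0, hl1] at this
    rw [← this, mul_comm, ← mul_assoc]
    simp
  refine ⟨![g0, g1, g2], ?_, ?_⟩
  · intro i
    fin_cases i
    · exact h0
    · exact h1
    · exact h2
  · rintro i j hij ⟨b, hb1, hb⟩
    fin_cases i <;> fin_cases j <;> simp only [ne_eq, not_true_eq_false, Fin.zero_eta, Fin.mk_one,
      Fin.reduceFinMk] at hij
    · exact ne (princ cl1 e1 e1' hb (hh0 l1) H11).symm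
    · exact ne (princ cl2 e2 e2' hb (hh0 l2) H22).symm
    · exact ne (princ cl1 e1 e1' hb H11 (hh0 l1))
    · exact ne (princ cl1 e1 e1' hb H11 H21)
    · exact ne (princ cl2 e2 e2' hb H22 (hh0 l2))
    · exact ne (princ cl1 e1 e1' hb H21 H11).symm

/-- no subset of `S² × S¹ × S¹` is the core of a trisection with core of genus two -/
theorem X4_no_trisection (S : Set X4) :
    ¬ ∃ (k : Fin 3 → ℕ) (P : Fin 3 → Set X4), IsTrisection 2 k P S :=
  no_trisection X4_comm X4_family S

end Pool.Agent.H289R3.Tri
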