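import Pool.Agent.H289R3.Tri.Model

set_option autoImplicit false
open Set Filter Topology

namespace Pool.Agent.H289R3.Tri

variable {G : Type*} [Group G]

section transfer

variable {E X : Type*} [TopologicalSpace E] [TopologicalSpace X]

theorem CocOn.comp {P : Set X} {A : Set E} {g : X → X → G} (hg : CocOn P g) {f : E → X}
    (hf : ContinuousOn f A) (hm : MapsTo f A P) : CocOn A (fun x y => g (f x) (f y)) := by
  intro p hp
  have h1 : Tendsto f (𝓝[A] p) (𝓝[P] (f p)) := (hf p hp).tendsto_nhdsWithin hm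
  filter_upwards [h1.eventually (hg (f p) (hm hp)), self_mem_nhdsWithin] with x hx hxA
  exact ((hf x hxA).tendsto_nhdsWithin hm).eventually hx

theorem GauOn.comp {P : Set X} {A : Set E} {g g' : X → X → G} {b : X → G} (hg : GauOn P g g' b)
    {f : E → X} (hf : ContinuousOn f A) (hm : MapsTo f A P) :
    GauOn A (fun x y => g (f x) (f y)) (fun x y => g' (f x) (f y)) (fun x => b (f x)) := by
  intro p hp
  exact ((hf p hp).tendsto_nhdsWithin hm).eventually (hg (f p) (hm hp))

theorem TrivBy.comp {P : Set X} {A : Set E} {g : X → X → G} {b : X → G} (hg : TrivBy P g b)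
    {f : E → X} (hf : ContinuousOn f A) (hm : MapsTo f A P) :
    TrivBy A (fun x y => g (f x) (f y)) (fun x => b (f x)) := by
  intro p hp
  exact ((hf p hp).tendsto_nhdsWithin hm).eventually (hg (f p) (hm hp))

theorem GauOn.congr_g {P : Set X} {g g' h h' : X → X → G} {b : X → G} (hg : GauOn P g g' b)
    (h1 : ∀ x ∈ P, ∀ y ∈ P, h x y = g x y) (h2 : ∀ x ∈ P, ∀ y ∈ P, h' x y = g' x y) :
    GauOn P h h' b := by
  intro p hp
  filter_upwards [hg p hp, self_mem_nhdsWithin] with x hx hxA
  rw [h1 p hp x hxA, h2 p hp x hxA, hx]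

theorem exists_inv [T2Space X] [Nonempty E] {A : Set E} (hA : IsCompact A) {f : E → X}
    (hf : ContinuousOn f A) (hi : InjOn f A) :
    ∃ F : X → E, (∀ a ∈ A, F (f a) = a) ∧ ContinuousOn F (f '' A) := by
  classical
  have hcA : CompactSpace A := isCompact_iff_compactSpace.1 hA
  have hc : Continuous (fun a : A => f a) := continuousOn_iff_continuous_domRestrict.1 hf
  have hinj : Function.Injective (fun a : A => f a) := fun a b hab => Subtype.ext (hi a.2 b.2 hab)
  have hce := hc.isClosedEmbedding hinj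
  let e := hce.isEmbedding.toHomeomorph
  have hr : range (fun a : A => f a) = f '' A := by
    ext y; simp
  refine ⟨fun y => if hy : y ∈ range (fun a : A => f a) then (e.symm ⟨y, hy⟩ : A) else
    Classical.arbitrary E, ?_, ?_⟩
  · intro a ha
    have hy : f a ∈ range (fun a : A => f a) := ⟨⟨a, ha⟩, rfl⟩
    simp only [dif_pos hy]
    have : (⟨f a, hy⟩ : range (fun a : A => f a)) = e ⟨a, ha⟩ := rfl
    rw [this, Homeomorph.symm_apply_apply]
  · rw [← hr, continuousOn_iff_continuous_domRestrict]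
    have : (range (fun a : A => f a)).domRestrict (fun y => if hy : y ∈ range (fun a : A => f a) then
        ((e.symm ⟨y, hy⟩ : A) : E) else Classical.arbitrary E) =
        fun y => ((e.symm y : A) : E) := by
      funext y
      simp only [Set.domRestrict_apply, dif_pos y.2]
    rw [this]
    exact continuous_subtype_val.comp e.symm.continuous

theorem Ext.transfer [T2Space X] [Nonempty E] {A C : Set E} (hA : IsCompact A) {f : E → X}
    (hf : ContinuousOn f A) (hi : InjOn f A) (hCA : C ⊆ A) (h : Ext G A C) :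
    Ext G (f '' A) (f '' C) := by
  obtain ⟨F, hF, hFc⟩ := exists_inv hA hf hi
  intro g g' hg hg' b hb
  obtain ⟨b', hb', hb''⟩ := h _ _ (hg.comp hf (mapsTo_image f A)) (hg'.comp hf (mapsTo_image f A))
    _ (hb.comp (hf.mono hCA) (mapsTo_image f C))
  have hm : MapsTo F (f '' A) A := by
    rintro _ ⟨a, ha, rfl⟩
    rw [hF a ha]; exact ha
  have hfF : ∀ x ∈ f '' A, f (F x) = x := by
    rintro _ ⟨a, ha, rfl⟩
    rw [hF a ha]
  refine ⟨fun x => b' (F x), (hb'.comp hFc hm).congr_g ?_ ?_, ?_⟩
  · intro x hx y hy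
    simp only [hfF x hx, hfF y hy]
  · intro x hx y hy
    simp only [hfF x hx, hfF y hy]
  · rintro _ ⟨a, ha, rfl⟩
    simp only [hF a (hCA ha)]
    exact hb'' a ha

/-- transferred parametrisation, keeping the relation explicit -/
def ParamR (A : Set X) (w0 : X) {k : ℕ} (R : (X → X → G) → (Fin k → G) → Prop) : Prop :=
    (∀ g, CocOn A g → ∃ t, R g t) ∧
    (∀ g g' t t', R g t → R g' t' → (t = t' ↔ ∃ b : X → G, b w0 = 1 ∧ GauOn A g g' b)) ∧
    ∀ t, ∃ g, CocOn A g ∧ R g t

theorem ParamR.transfer [T2Space X] [Nonempty E] {A : Set E} (hA : IsCompact A) {f : E → X}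
    (hf : ContinuousOn f A) (hi : InjOn f A) {w0 : E} (hw : w0 ∈ A) {k : ℕ}
    {R : (E → E → G) → (Fin k → G) → Prop} (h : ParamR A w0 R) :
    ParamR (f '' A) (f w0) (fun (g : X → X → G) t => R (fun x y => g (f x) (f y)) t) := by
  obtain ⟨h1, h2, h3⟩ := h
  obtain ⟨F, hF, hFc⟩ := exists_inv hA hf hi
  have hm : MapsTo F (f '' A) A := by
    rintro _ ⟨a, ha, rfl⟩
    rw [hF a ha]; exact ha
  have hfF : ∀ x ∈ f '' A, f (F x) = x := by
    rintro _ ⟨a, ha, rfl⟩
    rw [hF a ha]
  refine ⟨fun g hg => h1 _ (hg.comp hf (mapsTo_image f A)), ?_, ?_⟩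
  · intro g g' t t' r r'
    rw [h2 _ _ _ _ r r']
    constructor
    · rintro ⟨b, hb1, hb⟩
      refine ⟨fun x => b (F x), by simp only [hF w0 hw, hb1], (hb.comp hFc hm).congr_g ?_ ?_⟩
      · intro x hx y hy
        simp only [hfF x hx, hfF y hy]
      · intro x hx y hy
        simp only [hfF x hx, hfF y hy]
    · rintro ⟨b, hb1, hb⟩
      exact ⟨fun x => b (f x), hb1, hb.comp hf (mapsTo_image f A)⟩
  · intro t
    obtain ⟨g, hg, hgt⟩ := h3 t
    have hg' : CocOn (f '' A) (fun x y => g (F x) (F y)) := hg.comp hFc hm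
    have hg'' := hg'.comp hf (mapsTo_image f A)
    refine ⟨_, hg', ?_⟩
    obtain ⟨t', ht'⟩ := h1 _ hg''
    have : t = t' := by
      rw [h2 _ _ _ _ hgt ht']
      refine ⟨fun _ => 1, rfl, (GauOn.refl A g).congr_g (fun _ _ _ _ => rfl) ?_⟩
      intro x hx y hy
      simp only [hF x hx, hF y hy]
    rw [this]
    exact ht'

end transfer

section glue

variable {X : Type*} [TopologicalSpace X]

theorem Ext.glue {U V : Set X} (hU : IsClosed U) (hV : IsClosed V) (h : Ext G V (U ∩ V)) :
    Ext G (U ∪ V) U := by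
  refine Ext.union hU hV subset_union_left ?_ h ?_
  · rw [inter_self]
    exact fun g g' _ _ b hb => ⟨b, hb, fun _ _ => rfl⟩
  · intro x hx
    exact ⟨{x}, singleton_subset_iff.2 hx, isPreconnected_singleton, rfl, x, rfl, hx.1⟩

theorem glue_coc {U V : Set X} (hU : IsClosed U) (hV : IsClosed V) {g g' : X → X → G}
    (hg : CocOn U g) (hg' : CocOn V g') {b : X → G} (hb : GauOn (U ∩ V) g' g b) :
    ∃ h : X → X → G, CocOn (U ∪ V) h ∧ GauOn U g h (fun _ => 1) ∧ GauOn V g' h b := by
  classical
  let h : X → X → G := fun x y => if x ∈ U ∧ y ∈ U then g x y else (b x)⁻¹ * g' x y * b y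
  have h1 : GauOn U g h (fun _ => 1) := by
    intro p hp
    filter_upwards [self_mem_nhdsWithin] with x hx
    simp [h, hp, hx]
  have h2 : GauOn V g' h b := by
    intro p hp
    by_cases hpU : p ∈ U
    · have h3 : ∀ᶠ x in 𝓝[V] p, x ∈ U → g p x = (b p)⁻¹ * g' p x * b x := by
        have h4 := hb p ⟨hpU, hp⟩
        rw [inter_comm, nhdsWithin_inter', eventually_inf_principal] at h4
        exact h4
      filter_upwards [h3] with x hx
      by_cases hxU : x ∈ U
      · simp [h, hpU, hxU, hx hxU]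
      · simp [h, hxU]
    · exact Eventually.of_forall fun x => by simp [h, hpU]
  exact ⟨h, (hg.gau h1).union hU hV (hg'.gau h2), h1, h2⟩

end glue

end Pool.Agent.H289R3.Tri
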