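import Pool.Agent.H289R3.Tri.NoTri

set_option autoImplicit false
set_option linter.unusedSectionVars false
set_option linter.unusedVariables false
open Set Filter Topology unitInterval

namespace Pool.Agent.H289R3.Tri

/-- the path `l` in the circle has total angle `w` -/
def HasW (l : I → Circle) (w : ℝ) : Prop :=
  ∃ L : C(I, ℝ), (∀ t, Circle.exp (L t) = l t) ∧ L 1 - L 0 = w

theorem HasW.exists {l : I → Circle} (hl : Continuous l) : ∃ w, HasW l w := by
  obtain ⟨Γ, hΓ, -⟩ := Circle.isCoveringMap_exp.exists_path_lifts ⟨l, hl⟩ (Complex.arg (l 0))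
    (by simp [Circle.exp_arg])
  exact ⟨_, Γ, fun t => congrFun hΓ t, rfl⟩

theorem HasW.symm {x y : Circle} {l : Path x y} {w : ℝ} (h : HasW l w) : HasW l.symm (-w) := by
  obtain ⟨L, hL, rfl⟩ := h
  refine ⟨⟨fun t => L (σ t), by fun_prop⟩, fun t => by simp [hL, Path.symm_apply], ?_⟩
  simp

theorem HasW.trans {x y z : Circle} {l : Path x y} {l' : Path y z} {a b : ℝ} (h : HasW l a)
    (h' : HasW l' b) : HasW (l.trans l') (a + b) := by
  obtain ⟨L, hL, rfl⟩ := h
  obtain ⟨L', hL', rfl⟩ := h'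
  let p : Path (L 0) (L 1) := ⟨L, rfl, rfl⟩
  let p' : Path (L 1) (L 1 + (L' 1 - L' 0)) :=
    ⟨⟨fun t => L 1 + (L' t - L' 0), by fun_prop⟩, by simp, by simp⟩
  have hp' : ∀ t, Circle.exp (p' t) = l' t := by
    intro t
    show Circle.exp (L 1 + (L' t - L' 0)) = l' t
    rw [Circle.exp_add, Circle.exp_sub, hL, hL', hL', l.target, l'.source]
    simp
  refine ⟨(p.trans p').toContinuousMap, ?_, ?_⟩
  · intro t
    show Circle.exp ((p.trans p') t) = (l.trans l') t
    rw [Path.trans_apply, Path.trans_apply]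
    split_ifs with ht
    · exact hL _
    · exact hp' _
  · show (p.trans p') 1 - (p.trans p') 0 = _
    simp
    ring

theorem HasW.homotopic {x y : Circle} {l l' : Path x y} {w : ℝ} (h : HasW l w) (h' : HasW l' w) :
    l.Homotopic l' := by
  obtain ⟨L, hL, rfl⟩ := h
  obtain ⟨L', hL', hw⟩ := h'
  have hx : Circle.exp (L 0) = x := by rw [hL, l.source]
  have hy : Circle.exp (L 1) = y := by rw [hL, l.target]
  subst hx
  subst hy
  have h0 : Circle.exp (L 0 - L' 0) = 1 := by
    rw [Circle.exp_sub, hL' 0, l'.source, div_self']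
  let p : Path (L 0) (L 1) := ⟨L, rfl, rfl⟩
  let p' : Path (L 0) (L 1) :=
    ⟨⟨fun t => L' t + (L 0 - L' 0), by fun_prop⟩, by simp, by simp; linarith⟩
  have e1 : l = p.map Circle.exp.continuous := by
    ext t
    exact congrArg _ (hL t).symm
  have e2 : l' = p'.map Circle.exp.continuous := by
    ext t
    show (l' t : ℂ) = Circle.exp (L' t + (L 0 - L' 0))
    rw [Circle.exp_add, h0, hL', mul_one]
  rw [e1, e2]
  exact (SimplyConnectedSpace.paths_homotopic p p').map ⟨_, Circle.exp.continuous⟩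

theorem circle_comm {x : Circle} (l l' : Path x x) : (l.trans l').Homotopic (l'.trans l) := by
  obtain ⟨a, ha⟩ := HasW.exists l.continuous
  obtain ⟨b, hb⟩ := HasW.exists l'.continuous
  have h1 := hb.trans ha
  rw [add_comm] at h1
  exact (ha.trans hb).homotopic h1

theorem homotopic_prod {A B : Type*} [TopologicalSpace A] [TopologicalSpace B] {x y : A × B}
    {l l' : Path x y} (h1 : (l.map continuous_fst).Homotopic (l'.map continuous_fst))
    (h2 : (l.map continuous_snd).Homotopic (l'.map continuous_snd)) : l.Homotopic l' := by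
  obtain ⟨F⟩ := h1
  obtain ⟨F'⟩ := h2
  exact ⟨Path.Homotopic.prodHomotopy F F'⟩

/-! ### cocycles on the circle -/

variable {G : Type*} [Group G]

/-- the cocycle attached to `χ : ℤ → G` -/
noncomputable def gC (χ : Multiplicative ℤ →* G) (x y : Circle) : G :=
  χ (Multiplicative.ofAdd (round ((Complex.arg x - Complex.arg y) / (2 * Real.pi))))

theorem gC_eq (χ : Multiplicative ℤ →* G) {a b : ℝ} {m n : ℤ}
    (ha : a = Complex.arg (Circle.exp a) + m * (2 * Real.pi))
    (hb : b = Complex.arg (Circle.exp b) + n * (2 * Real.pi)) (hab : |b - a| < Real.pi) :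
    gC χ (Circle.exp a) (Circle.exp b) =
      (χ (Multiplicative.ofAdd m))⁻¹ * χ (Multiplicative.ofAdd n) := by
  have hpi := Real.pi_pos
  have e : (Complex.arg (Circle.exp a) - Complex.arg (Circle.exp b)) / (2 * Real.pi) =
      ((n - m : ℤ) : ℝ) + (a - b) / (2 * Real.pi) := by
    have h1 : (Complex.arg (Circle.exp a) : ℝ) = a - m * (2 * Real.pi) := by linarith
    have h2 : (Complex.arg (Circle.exp b) : ℝ) = b - n * (2 * Real.pi) := by linarith
    rw [h1, h2]
    push_cast
    field_simp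
    ring
  have e2 : round ((a - b) / (2 * Real.pi)) = 0 := by
    rw [round_eq_zero_iff]
    rw [abs_lt] at hab
    constructor
    · rw [le_div_iff₀ (by positivity)]; linarith [hab.2]
    · rw [div_lt_iff₀ (by positivity)]; linarith [hab.1]
  rw [gC, e, round_intCast_add, e2, add_zero, ← map_inv, ← map_mul]
  congr 1
  rw [← ofAdd_neg, ← ofAdd_add]
  congr 1
  ring

theorem exists_m (a : ℝ) : ∃ m : ℤ, a = Complex.arg (Circle.exp a) + m * (2 * Real.pi) :=
  Circle.exp_eq_exp.1 (Circle.exp_arg (Circle.exp a)).symm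

theorem gC_coc (χ : Multiplicative ℤ →* G) : Coc (gC χ) := by
  intro p
  have hpi := Real.pi_pos
  have ho : IsOpen (Circle.exp '' Ioo (Complex.arg p - Real.pi / 2) (Complex.arg p + Real.pi / 2)) :=
    isLocalHomeomorph_circleExp.isOpenMap _ isOpen_Ioo
  have hp : p ∈ Circle.exp '' Ioo (Complex.arg p - Real.pi / 2) (Complex.arg p + Real.pi / 2) :=
    ⟨Complex.arg p, ⟨by linarith, by linarith⟩, Circle.exp_arg p⟩
  have key : ∀ x ∈ Circle.exp '' Ioo (Complex.arg p - Real.pi / 2) (Complex.arg p + Real.pi / 2),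
      ∀ y ∈ Circle.exp '' Ioo (Complex.arg p - Real.pi / 2) (Complex.arg p + Real.pi / 2),
      gC χ x y = (gC χ p x)⁻¹ * gC χ p y := by
    rintro _ ⟨a, ha, rfl⟩ _ ⟨b, hb, rfl⟩
    obtain ⟨m, hm⟩ := exists_m a
    obtain ⟨n, hn⟩ := exists_m b
    have h0 : (Complex.arg p : ℝ) = Complex.arg (Circle.exp (Complex.arg p)) +
        (0 : ℤ) * (2 * Real.pi) := by
      rw [Circle.exp_arg]; simp
    have e1 := gC_eq χ hm hn (by rw [abs_lt]; constructor <;> linarith [ha.1, ha.2, hb.1, hb.2])
    have e2 := gC_eq χ h0 hm (by rw [abs_lt]; constructor <;> linarith [ha.1, ha.2])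
    have e3 := gC_eq χ h0 hn (by rw [abs_lt]; constructor <;> linarith [hb.1, hb.2])
    rw [Circle.exp_arg] at e2 e3
    rw [e1, e2, e3]
    simp
  have hev := ho.mem_nhds hp
  filter_upwards [hev] with x hx
  filter_upwards [ho.mem_nhds hx] with y hy
  exact key x hx y hy

theorem gC_hol (χ : Multiplicative ℤ →* G) {γ : I → Circle} {k : ℤ}
    (h : HasW γ (k * (2 * Real.pi))) (hγ : γ 0 = γ 1) :
    IsHol (gC χ) γ (χ (Multiplicative.ofAdd k)) := by
  obtain ⟨L, hL, hw⟩ := h
  have hpi := Real.pi_pos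
  choose m hm using fun t => exists_m (L t)
  refine ⟨fun t => χ (Multiplicative.ofAdd (m t)), ?_, ?_⟩
  · intro s
    have : ∀ᶠ t in 𝓝 s, |L t - L s| < Real.pi := by
      have h1 := (L.continuous.tendsto s)
      have h2 := Metric.tendsto_nhds.1 h1 Real.pi hpi
      simpa [Real.dist_eq] using h2
    filter_upwards [this] with t ht
    rw [← hL s, ← hL t]
    exact gC_eq χ (hm s) (hm t) ht
  · show _ = (χ (Multiplicative.ofAdd (m 0)))⁻¹ * χ (Multiplicative.ofAdd (m 1))
    have h0 := hm 0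
    have h1 := hm 1
    rw [hL, hγ] at h0
    rw [hL] at h1
    have e : ((m 1 : ℝ) - m 0) * (2 * Real.pi) = k * (2 * Real.pi) := by
      rw [← hw]; linarith
    have e2 : (m 1 : ℝ) - m 0 = k := mul_right_cancel₀ (by positivity) e
    have e3 : m 1 - m 0 = k := by exact_mod_cast e2
    rw [← e3, ← map_inv, ← map_mul, ← ofAdd_neg, ← ofAdd_add]
    congr 2
    ring

theorem IsHol.gau {Y : Type*} [TopologicalSpace Y] {g g' : Y → Y → G} {b : Y → G}
    (h : GauOn univ g g' b) {γ : I → Y} (hγ : Continuous γ) {a : G} (ha : IsHol g γ a) :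
    IsHol g' γ ((b (γ 0))⁻¹ * a * b (γ 1)) := by
  obtain ⟨c, hc, rfl⟩ := ha
  refine ⟨fun t => c t * b (γ t), ?_, by group⟩
  intro s
  have h1 := h (γ s) trivial
  rw [nhdsWithin_univ] at h1
  filter_upwards [hc s, hγ.continuousAt.eventually h1] with t ht ht'
  rw [ht', ht]; group

end Pool.Agent.H289R3.Tri
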